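import Pool.Agent.Lib_helper54.RAGaussBonnet
import Pool.Agent.Lib_helper61.RAVol
import Pool.Agent.Lib_helper16.RA.Euler

/-!
MP_20f8ce_gt : Gauss-Bonnet, assembled.
-/

open MeasureTheory Finset

namespace Pool.Agent.RA

variable {n : ℕ} {ι : Type} [Fintype ι] [DecidableEq ι]

theorem integrableOn_exp (hn : 2 ≤ n) (R : RASys n ι) :
    IntegrableOn (fun x => Real.exp (B x x)) R.K :=
  integrableOn_exp_of_frame R hn fun f hf0 hff hfK => by
    obtain ⟨E, E', a, h1, h2, h3, h4, -⟩ := exists_frame (R := R) (by omega) hf0 hff hfK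
    exact ⟨E, E', a, h1, h2, h3, h4⟩

theorem gauss_bonnet (hn : 2 ≤ n) (hev : Even n) (R : RASys n ι) :
    2 * ∫ x in R.K, Real.exp (B x x)
      = (-1) ^ (n / 2) * Real.pi ^ (((n : ℝ) + 1) / 2) * chi R.G :=
  gauss_bonnet_of R hn hev
    (fun _ hf0 hff hfK => exists_frame (R := R) (by omega) hf0 hff hfK)
    (fun v hv => (mem_iv_iff (R := R) hn v).1 hv)
    (fun x hx => euler_gram hn R x hx)
    (integrableOn_exp hn R)

lemma volume_K_pos (R : RASys n ι) : 0 < volume R.K := by
  have h1 : IsOpen (⋂ i, {x : M n | B x (R.e i) < 0}) :=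
    isOpen_iInter_of_finite fun i => isOpen_lt (continuous_B_left _) continuous_const
  have h2 : R.p ∈ ⋂ i, {x : M n | B x (R.e i) < 0} := by
    simpa using R.pneg
  have := Orthant.isAddHaar (n := n)
  refine lt_of_lt_of_le (h1.measure_pos volume ⟨R.p, h2⟩) (measure_mono ?_)
  intro x hx i
  simp only [Set.mem_iInter, Set.mem_ofPred_eq] at hx
  exact (hx i).le

lemma integral_K_pos (hn : 2 ≤ n) (R : RASys n ι) : 0 < ∫ x in R.K, Real.exp (B x x) := by
  have h1 := integrableOn_exp hn R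
  rw [setIntegral_pos_iff_support_of_nonneg_ae (ae_of_all _ fun x => (Real.exp_pos _).le) h1]
  have h2 : (Function.support fun x : M n => Real.exp (B x x)) = Set.univ := by
    ext x
    simp [Real.exp_ne_zero]
  rw [h2, Set.univ_inter]
  exact volume_K_pos R

/-- the sign of the Euler characteristic -/
theorem chi_pos (hn : 2 ≤ n) (hev : Even n) (R : RASys n ι) : 0 < (-1) ^ (n / 2) * chi R.G := by
  have h1 := gauss_bonnet hn hev R
  have h2 := integral_K_pos hn R
  have h3 : 0 < Real.pi ^ (((n : ℝ) + 1) / 2) := Real.rpow_pos_of_pos Real.pi_pos _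
  have h4 : 0 < ((-1) ^ (n / 2) * chi R.G) * Real.pi ^ (((n : ℝ) + 1) / 2) := by
    have : ((-1) ^ (n / 2) * chi R.G) * Real.pi ^ (((n : ℝ) + 1) / 2)
        = 2 * ∫ x in R.K, Real.exp (B x x) := by
      rw [h1]; ring
    rw [this]
    positivity
  exact pos_of_mul_pos_left h4 h3.le

end Pool.Agent.RA
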