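import Pool.Agent.Lib_helper16.RA.Basics

/-!
MP_20f8ce_gt, Block D : the finite combinatorics of right-angled 6-polytopes.
-/

open Finset

namespace Pool.Agent.RA

section DC
variable {ι : Type} [DecidableEq ι]

/-- members of the family `A` containing `s` with `a` more elements -/
def up (A : Finset (Finset ι)) (s : Finset ι) (a : ℕ) : Finset (Finset ι) :=
  A.filter (fun t => s ⊆ t ∧ t.card = s.card + a)

lemma mem_up {A : Finset (Finset ι)} {s t : Finset ι} {a : ℕ} :
    t ∈ up A s a ↔ t ∈ A ∧ s ⊆ t ∧ t.card = s.card + a := by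
  simp [up]

lemma up_zero {A : Finset (Finset ι)} {s : Finset ι} (hs : s ∈ A) : up A s 0 = {s} := by
  ext t
  simp only [mem_up, mem_singleton, add_zero]
  constructor
  · rintro ⟨-, h2, h3⟩
    exact (eq_of_subset_of_card_le h2 h3.le).symm
  · rintro rfl
    exact ⟨hs, Subset.refl _, rfl⟩

lemma card_between (s r : Finset ι) (hsr : s ⊆ r) (a : ℕ) :
    ((r.powerset).filter (fun t => s ⊆ t ∧ t.card = s.card + a)).card
      = (r.card - s.card).choose a := by
  have h0 : (r.powerset).filter (fun t => s ⊆ t ∧ t.card = s.card + a)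
      = ((r \ s).powersetCard a).image (fun u => s ∪ u) := by
    ext t
    simp only [mem_filter, mem_powerset, mem_image, mem_powersetCard]
    constructor
    · rintro ⟨h1, h2, h3⟩
      refine ⟨t \ s, ⟨sdiff_subset_sdiff h1 le_rfl, ?_⟩, union_sdiff_of_subset h2⟩
      rw [card_sdiff_of_subset h2]; omega
    · rintro ⟨u, ⟨hu1, hu2⟩, rfl⟩
      refine ⟨union_subset hsr (hu1.trans sdiff_subset), subset_union_left, ?_⟩
      have hd : Disjoint s u := by
        rw [disjoint_left]
        intro x hx hxu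
        exact (mem_sdiff.1 (hu1 hxu)).2 hx
      rw [card_union_of_disjoint hd, hu2]
  rw [h0, card_image_of_injOn, card_powersetCard, card_sdiff_of_subset hsr]
  intro u hu w hw huw
  simp only [mem_coe, mem_powersetCard] at hu hw
  have key : ∀ y : Finset ι, y ⊆ r \ s → (s ∪ y) \ s = y := by
    intro y hy
    ext x
    simp only [mem_sdiff, mem_union]
    constructor
    · rintro ⟨h1 | h1, h2⟩
      · exact absurd h1 h2
      · exact h1
    · intro hx
      exact ⟨Or.inr hx, (mem_sdiff.1 (hy hx)).2⟩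
  have h1 := key u hu.1
  have h2 := key w hw.1
  have huw' : s ∪ u = s ∪ w := huw
  rw [← h1, ← h2, huw']

/-- double counting of flags in a simplicial complex -/
lemma dc (A : Finset (Finset ι)) (hA : ∀ r ∈ A, ∀ t ⊆ r, t ∈ A) (s : Finset ι) (a b : ℕ) :
    ∑ t ∈ up A s a, (up A t b).card = (a + b).choose a * (up A s (a + b)).card := by
  have h := sum_card_bipartiteAbove_eq_sum_card_bipartiteBelow
    (s := up A s a) (t := up A s (a + b)) (fun t r => t ⊆ r)
  have h1 : ∀ t ∈ up A s a, (bipartiteAbove (fun t r => t ⊆ r) (up A s (a + b)) t).card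
      = (up A t b).card := by
    intro t ht
    rw [mem_up] at ht
    congr 1
    ext r
    simp only [mem_bipartiteAbove, mem_up]
    constructor
    · rintro ⟨⟨h1, -, h3⟩, h4⟩
      exact ⟨h1, h4, by omega⟩
    · rintro ⟨h1, h2, h3⟩
      exact ⟨⟨h1, ht.2.1.trans h2, by omega⟩, h2⟩
  have h2 : ∀ r ∈ up A s (a + b), (bipartiteBelow (fun t r => t ⊆ r) (up A s a) r).card
      = (a + b).choose a := by
    intro r hr
    rw [mem_up] at hr
    have h3 : bipartiteBelow (fun t r => t ⊆ r) (up A s a) r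
        = (r.powerset).filter (fun t => s ⊆ t ∧ t.card = s.card + a) := by
      ext t
      simp only [mem_bipartiteBelow, mem_up, mem_filter, mem_powerset]
      constructor
      · rintro ⟨⟨-, h2, h3⟩, h4⟩
        exact ⟨h4, h2, h3⟩
      · rintro ⟨h1, h2, h3⟩
        exact ⟨⟨hA r hr.1 t h1, h2, h3⟩, h1⟩
    rw [h3, card_between s r hr.2.1, hr.2.2]
    congr 1
    omega
  rw [sum_congr rfl h1, sum_congr rfl h2, sum_const, smul_eq_mul, mul_comm] at h
  exact h

/-- in the boundary complex of a cross-polytope the numbers of faces are as expected -/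
lemma up_cross (A : Finset (Finset ι)) (hA : ∀ r ∈ A, ∀ t ⊆ r, t ∈ A) (m : ℕ)
    (h1 : ∀ t ∈ A, (up A t 1).card = 2 * (m - t.card)) (s : Finset ι) (hs : s ∈ A) (a : ℕ) :
    (up A s a).card = (m - s.card).choose a * 2 ^ a := by
  induction a with
  | zero => simp [up_zero hs]
  | succ a ih =>
    have h := dc A hA s a 1
    have h2 : ∀ t ∈ up A s a, (up A t 1).card = 2 * (m - s.card - a) := by
      intro t ht
      rw [mem_up] at ht
      rw [h1 t ht.1, ht.2.2]
      omega
    rw [sum_congr rfl h2, sum_const, smul_eq_mul, ih] at h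
    have h3 : (a + 1).choose a = a + 1 := by
      rw [Nat.choose_succ_self_right]
    rw [h3] at h
    have h4 : (a + 1) * ((m - s.card).choose (a + 1) * 2 ^ (a + 1))
        = (m - s.card).choose a * 2 ^ a * (2 * (m - s.card - a)) := by
      have h5 := Nat.choose_succ_right_eq (m - s.card) a
      calc (a + 1) * ((m - s.card).choose (a + 1) * 2 ^ (a + 1))
          = ((m - s.card).choose (a + 1) * (a + 1)) * (2 ^ a * 2) := by
            rw [pow_succ]; ring
        _ = ((m - s.card).choose a * (m - s.card - a)) * (2 ^ a * 2) := by rw [h5]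
        _ = _ := by ring
    have h6 : (a + 1) * (up A s (a + 1)).card
        = (a + 1) * ((m - s.card).choose (a + 1) * 2 ^ (a + 1)) := by
      rw [← h, h4]
    exact Nat.eq_of_mul_eq_mul_left (Nat.succ_pos a) h6

/-- double counting of ideal vertices -/
lemma dcv (A V : Finset (Finset ι)) (s : Finset ι) (a m : ℕ)
    (h1 : ∀ v ∈ V, s ⊆ v → (up (A.filter (fun t => t ⊆ v)) s a).card = m) :
    ∑ t ∈ up A s a, (V.filter (fun v => t ⊆ v)).card = m * (V.filter (fun v => s ⊆ v)).card := by
  have h := sum_card_bipartiteAbove_eq_sum_card_bipartiteBelow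
    (s := up A s a) (t := V.filter (fun v => s ⊆ v)) (fun t v => t ⊆ v)
  have h2 : ∀ t ∈ up A s a,
      (bipartiteAbove (fun t v => t ⊆ v) (V.filter (fun v => s ⊆ v)) t).card
      = (V.filter (fun v => t ⊆ v)).card := by
    intro t ht
    rw [mem_up] at ht
    congr 1
    ext v
    simp only [mem_bipartiteAbove, mem_filter]
    constructor
    · rintro ⟨⟨h1, -⟩, h4⟩
      exact ⟨h1, h4⟩
    · rintro ⟨h1, h2⟩
      exact ⟨⟨h1, ht.2.1.trans h2⟩, h2⟩
  have h3 : ∀ v ∈ V.filter (fun v => s ⊆ v),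
      (bipartiteBelow (fun t v => t ⊆ v) (up A s a) v).card = m := by
    intro v hv
    rw [mem_filter] at hv
    rw [← h1 v hv.1 hv.2]
    congr 1
    ext t
    simp only [mem_bipartiteBelow, mem_up, mem_filter]
    tauto
  rw [sum_congr rfl h2, sum_congr rfl h3, sum_const, smul_eq_mul, mul_comm] at h
  exact h

end DC

section D
variable {ι : Type} [Fintype ι] [DecidableEq ι]

/-- number of cliques containing `s` with `k` more elements -/
noncomputable def Nf (G : ι → ι → ℝ) (s : Finset ι) (k : ℕ) : ℕ :=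
  ((cliques G).filter (fun t => s ⊆ t ∧ t.card = s.card + k)).card

/-- number of ideal vertices of the face `s` -/
noncomputable def cf (G : ι → ι → ℝ) (s : Finset ι) : ℕ :=
  ((iv G).filter (fun v => s ⊆ v)).card

open Classical in
/-- link of a clique -/
noncomputable def lk (G : ι → ι → ℝ) (s : Finset ι) : Finset ι :=
  univ.filter (fun j => j ∉ s ∧ ∀ i ∈ s, G i j = 0)

open Classical in
/-- The combinatorial facts about (Gram matrices of) right-angled systems of dimension `n`. -/
structure Comb (n : ℕ) (G : ι → ι → ℝ) : Prop where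
  symm : ∀ i j, G i j = G j i
  diag : ∀ i, G i i = 1
  gram : ∀ i j, i ≠ j → G i j = 0 ∨ G i j ≤ -1
  card_le : ∀ s ∈ cliques G, s.card ≤ n
  edge : ∀ s ∈ cliques G, s.card + 1 = n → Nf G s 1 + cf G s = 2
  euler : ∀ s ∈ cliques G, s.card + 2 ≤ n →
    (∑ k ∈ range (n - s.card + 1), (-1 : ℤ) ^ (n - s.card - k) * (Nf G s k : ℤ)) + cf G s = 1
  polygon : ∀ s ∈ cliques G, s.card + 2 = n → 5 ≤ Nf G s 1 + cf G s
  chi4 : ∀ s ∈ cliques G, s.card + 4 = n →
    (1 : ℤ) ≤ 16 - 8 * Nf G s 1 + 4 * Nf G s 2 - 2 * Nf G s 3 + Nf G s 4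
  star_one : ∀ v ∈ iv G, ∀ s ∈ cliques G, s ⊆ v →
    (v.filter (fun j => j ∉ s ∧ ∀ i ∈ s, G i j = 0)).card = 2 * (n - 1 - s.card)
  par_count : ∀ s ∈ cliques G, s.card + 2 ≤ n →
    ((lk G s ×ˢ lk G s).filter (fun q => G q.1 q.2 = -1)).card = 2 * (n - s.card - 1) * cf G s
  two_le : ∀ s ∈ cliques G, s.card + 2 ≤ n → 2 ≤ Nf G s 1

variable {G : ι → ι → ℝ}

omit [DecidableEq ι] in
lemma mem_cliques {s : Finset ι} : s ∈ cliques G ↔ IsCl G s := by
  simp [cliques]

lemma cliques_down : ∀ r ∈ cliques G, ∀ t ⊆ r, t ∈ cliques G := by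
  intro r hr t htr
  rw [mem_cliques] at hr ⊢
  exact fun i hi j hj hij => hr i (htr hi) j (htr hj) hij

lemma Nf_eq (s : Finset ι) (k : ℕ) : Nf G s k = (up (cliques G) s k).card := rfl

lemma Nf_zero {s : Finset ι} (hs : s ∈ cliques G) : Nf G s 0 = 1 := by
  rw [Nf_eq, up_zero hs, card_singleton]

lemma sum_Nf (s : Finset ι) (a b : ℕ) :
    ∑ t ∈ up (cliques G) s a, Nf G t b = (a + b).choose a * Nf G s (a + b) := by
  simp only [Nf_eq]
  exact dc _ cliques_down s a b

lemma insert_cliques (hsym : ∀ i j, G i j = G j i) {s : Finset ι} (hs : s ∈ cliques G) (j : ι)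
    (hj : ∀ i ∈ s, G i j = 0) : insert j s ∈ cliques G := by
  rw [mem_cliques] at hs ⊢
  intro a ha b hb hab
  rw [mem_insert] at ha hb
  rcases ha with rfl | ha
  · rcases hb with rfl | hb
    · exact absurd rfl hab
    · rw [hsym]; exact hj b hb
  · rcases hb with rfl | hb
    · exact hj a ha
    · exact hs a ha b hb hab

/-- one-element extensions of a clique inside a set -/
lemma up_one_card (hsym : ∀ i j, G i j = G j i) (v : Finset ι) {s : Finset ι}
    (hs : s ∈ cliques G) (hsv : s ⊆ v) (T : Finset ι)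
    (hT : ∀ j, j ∈ T ↔ j ∈ v ∧ j ∉ s ∧ ∀ i ∈ s, G i j = 0) :
    (up ((cliques G).filter (fun t => t ⊆ v)) s 1).card = T.card := by
  have h : up ((cliques G).filter (fun t => t ⊆ v)) s 1 = T.image (fun j => insert j s) := by
    ext t
    simp only [mem_up, mem_filter, mem_image]
    constructor
    · rintro ⟨⟨h1, h2⟩, h3, h4⟩
      have h5 : (t \ s).card = 1 := by rw [card_sdiff_of_subset h3]; omega
      obtain ⟨j, hj⟩ := card_eq_one.1 h5
      have hjt : j ∈ t \ s := by rw [hj]; simp
      rw [mem_sdiff] at hjt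
      refine ⟨j, ?_, ?_⟩
      · rw [hT]
        refine ⟨h2 hjt.1, hjt.2, fun i hi => ?_⟩
        rw [mem_cliques] at h1
        refine h1 i (h3 hi) j hjt.1 ?_
        rintro rfl
        exact hjt.2 hi
      · rw [insert_eq, ← hj, sdiff_union_of_subset h3]
    · rintro ⟨j, hj, rfl⟩
      rw [hT] at hj
      refine ⟨⟨insert_cliques hsym hs j hj.2.2, ?_⟩, subset_insert _ _, ?_⟩
      · exact insert_subset hj.1 hsv
      · rw [card_insert_of_notMem hj.2.1]
  rw [h, card_image_of_injOn]
  intro a ha b hb hab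
  rw [mem_coe, hT] at ha hb
  have : a ∈ insert b s := by
    have h1 : insert a s = insert b s := hab
    rw [← h1]; exact mem_insert_self _ _
  rw [mem_insert] at this
  rcases this with h1 | h1
  · exact h1
  · exact absurd h1 ha.2.1

lemma Nf_one (hsym : ∀ i j, G i j = G j i) {s : Finset ι} (hs : s ∈ cliques G) :
    Nf G s 1 = (lk G s).card := by
  have h := up_one_card hsym univ hs (subset_univ _) (lk G s) (by
    intro j
    simp [lk])
  rw [← h, Nf_eq]
  congr 1
  simp

namespace Comb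
variable {n : ℕ}

lemma star_up (h : Comb n G) {v : Finset ι} (hv : v ∈ iv G) {s : Finset ι}
    (hs : s ∈ cliques G) (hsv : s ⊆ v) (a : ℕ) :
    (up ((cliques G).filter (fun t => t ⊆ v)) s a).card = (n - 1 - s.card).choose a * 2 ^ a := by
  classical
  refine up_cross _ ?_ (n - 1) ?_ s ?_ a
  · intro r hr t ht
    rw [mem_filter] at hr ⊢
    exact ⟨cliques_down r hr.1 t ht, ht.trans hr.2⟩
  · intro t ht
    rw [mem_filter] at ht
    rw [up_one_card h.symm v ht.1 ht.2
      (v.filter (fun j => j ∉ t ∧ ∀ i ∈ t, G i j = 0)) (by intro j; simp)]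
    rw [← h.star_one v hv t ht.1 ht.2]
  · rw [mem_filter]
    exact ⟨hs, hsv⟩

lemma sum_cf (h : Comb n G) {s : Finset ι} (hs : s ∈ cliques G) (a : ℕ) :
    ∑ t ∈ up (cliques G) s a, cf G t = (n - 1 - s.card).choose a * 2 ^ a * cf G s :=
  dcv _ _ s a _ fun _ hv hsv => h.star_up hv hs hsv a

/-- orthogonal pairs and parallel pairs of facets of a face are pairs of facets -/
lemma pairs (h : Comb n G) {s : Finset ι} (hs : s ∈ cliques G) (hsn : s.card + 2 ≤ n) :
    2 * Nf G s 2 + 2 * (n - s.card - 1) * cf G s + Nf G s 1 ≤ Nf G s 1 * Nf G s 1 := by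
  classical
  rw [← h.par_count s hs hsn]
  have h1 := Nf_one h.symm hs
  have h2 : 2 * Nf G s 2
      = ((lk G s ×ˢ lk G s).filter (fun q => q.1 ≠ q.2 ∧ G q.1 q.2 = 0)).card := by
    have h3 := sum_Nf (G := G) s 1 1
    have h4 : (1 + 1).choose 1 = 2 := rfl
    rw [h4, show (1 + 1) = 2 from rfl] at h3
    rw [← h3]
    have h5 : up (cliques G) s 1 = (lk G s).image (fun j => insert j s) := by
      ext t
      simp only [mem_up, mem_image]
      constructor
      · rintro ⟨h1, h3, h4⟩
        have h5 : (t \ s).card = 1 := by rw [card_sdiff_of_subset h3]; omega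
        obtain ⟨j, hj⟩ := card_eq_one.1 h5
        have hjt : j ∈ t \ s := by rw [hj]; simp
        rw [mem_sdiff] at hjt
        refine ⟨j, ?_, ?_⟩
        · simp only [lk, mem_filter, mem_univ, true_and]
          refine ⟨hjt.2, fun i hi => ?_⟩
          rw [mem_cliques] at h1
          refine h1 i (h3 hi) j hjt.1 ?_
          rintro rfl
          exact hjt.2 hi
        · rw [insert_eq, ← hj, sdiff_union_of_subset h3]
      · rintro ⟨j, hj, rfl⟩
        simp only [lk, mem_filter, mem_univ, true_and] at hj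
        refine ⟨insert_cliques h.symm hs j hj.2, subset_insert _ _, ?_⟩
        rw [card_insert_of_notMem hj.1]
    have h6 : Set.InjOn (fun j => insert j s) (lk G s : Set ι) := by
      intro a ha b hb hab
      simp only [lk, mem_coe, mem_filter, mem_univ, true_and] at ha hb
      have : a ∈ insert b s := by
        have h1 : insert a s = insert b s := hab
        rw [← h1]; exact mem_insert_self _ _
      rw [mem_insert] at this
      rcases this with h1 | h1
      · exact h1
      · exact absurd h1 ha.1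
    rw [h5, sum_image h6]
    rw [card_filter, sum_product]
    refine sum_congr rfl fun j hj => ?_
    have hj' := hj
    simp only [lk, mem_filter, mem_univ, true_and] at hj'
    rw [Nf_one h.symm (insert_cliques h.symm hs j hj'.2), ← card_filter]
    congr 1
    ext i
    simp only [lk, mem_filter, mem_univ, true_and, mem_insert, not_or, forall_eq_or_imp]
    constructor
    · rintro ⟨⟨h1, h2⟩, h3, h4⟩
      exact ⟨⟨h2, h4⟩, fun h => h1 h.symm, h3⟩
    · rintro ⟨⟨h2, h4⟩, h1, h3⟩
      exact ⟨⟨fun h => h1 h.symm, h2⟩, h3, h4⟩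
  have h3 : Nf G s 1 = ((lk G s ×ˢ lk G s).filter (fun q => q.1 = q.2)).card := by
    rw [h1, card_filter, sum_product]
    simp
  have h4 : Nf G s 1 * Nf G s 1 = (lk G s ×ˢ lk G s).card := by
    rw [h1, card_product]
  rw [h2, h4, h3]
  rw [← card_union_of_disjoint, ← card_union_of_disjoint]
  · apply card_le_card
    intro q hq
    simp only [mem_union, mem_filter] at hq
    tauto
  · rw [disjoint_left]
    intro q hq hq2
    simp only [mem_union, mem_filter] at hq hq2
    rcases hq with hq | hq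
    · exact hq.2.1 hq2.2
    · have := hq.2
      rw [hq2.2, h.diag] at this
      norm_num at this
  · rw [disjoint_left]
    intro q hq hq2
    simp only [mem_filter] at hq hq2
    rw [hq.2.2] at hq2
    norm_num at hq2

lemma count_edges (h : Comb n G) {s : Finset ι} (hs : s ∈ cliques G) (a : ℕ)
    (ha : s.card + a + 1 = n) :
    (a + 1) * Nf G s (a + 1) + 2 ^ a * cf G s = 2 * Nf G s a := by
  have h1 := sum_Nf (G := G) s a 1
  have h2 := h.sum_cf hs a
  have h3 : ∑ t ∈ up (cliques G) s a, (Nf G t 1 + cf G t) = 2 * Nf G s a := by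
    rw [sum_congr rfl (g := fun _ => 2), sum_const, smul_eq_mul, mul_comm, Nf_eq]
    intro t ht
    rw [mem_up] at ht
    exact h.edge t ht.1 (by omega)
  rw [sum_add_distrib, h1, h2, Nat.choose_succ_self_right,
    show n - 1 - s.card = a by omega, Nat.choose_self, one_mul] at h3
  exact h3

lemma count_polygons (h : Comb n G) {s : Finset ι} (hs : s ∈ cliques G) (a : ℕ)
    (ha : s.card + a + 2 = n) :
    5 * Nf G s a ≤ (a + 1) * Nf G s (a + 1) + (a + 1) * 2 ^ a * cf G s := by
  have h1 := sum_Nf (G := G) s a 1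
  have h2 := h.sum_cf hs a
  have h3 : 5 * Nf G s a ≤ ∑ t ∈ up (cliques G) s a, (Nf G t 1 + cf G t) := by
    rw [Nf_eq, mul_comm, ← smul_eq_mul, ← sum_const]
    refine sum_le_sum fun t ht => ?_
    rw [mem_up] at ht
    exact h.polygon t ht.1 (by omega)
  rw [sum_add_distrib, h1, h2, Nat.choose_succ_self_right,
    show n - 1 - s.card = a + 1 by omega, Nat.choose_succ_self_right] at h3
  exact h3

/-- Euler relations of the 3-dimensional faces, summed -/
lemma count_three (h : Comb n G) {s : Finset ι} (hs : s ∈ cliques G) (a : ℕ)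
    (ha : s.card + a + 3 = n) :
    (a + 1 : ℤ) * Nf G s (a + 1) - ((a + 2).choose a : ℕ) * Nf G s (a + 2)
      + ((a + 3).choose a : ℕ) * Nf G s (a + 3) + ((a + 2).choose a : ℕ) * 2 ^ a * cf G s
      = 2 * Nf G s a := by
  have h1 := sum_Nf (G := G) s a 1
  have h2 := sum_Nf (G := G) s a 2
  have h3 := sum_Nf (G := G) s a 3
  have h4 := h.sum_cf hs a
  rw [Nat.choose_succ_self_right] at h1
  rw [show n - 1 - s.card = a + 2 by omega] at h4
  have h5 : ∑ t ∈ up (cliques G) s a,
      ((Nf G t 1 : ℤ) - Nf G t 2 + Nf G t 3 + cf G t) = 2 * Nf G s a := by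
    rw [sum_congr rfl (g := fun _ => (2 : ℤ)), sum_const, nsmul_eq_mul, mul_comm, Nf_eq]
    intro t ht
    rw [mem_up] at ht
    have h6 := h.euler t ht.1 (by omega)
    rw [show n - t.card = 3 by omega] at h6
    simp only [sum_range_succ, sum_range_zero, Nf_zero ht.1] at h6
    norm_num at h6
    linarith
  simp only [sum_add_distrib, sum_sub_distrib] at h5
  have h1' : (∑ t ∈ up (cliques G) s a, (Nf G t 1 : ℤ)) = (a + 1 : ℤ) * Nf G s (a + 1) := by
    exact_mod_cast h1
  have h2' : (∑ t ∈ up (cliques G) s a, (Nf G t 2 : ℤ))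
      = ((a + 2).choose a : ℕ) * Nf G s (a + 2) := by
    exact_mod_cast h2
  have h3' : (∑ t ∈ up (cliques G) s a, (Nf G t 3 : ℤ))
      = ((a + 3).choose a : ℕ) * Nf G s (a + 3) := by
    exact_mod_cast h3
  have h4' : (∑ t ∈ up (cliques G) s a, (cf G t : ℤ))
      = ((a + 2).choose a : ℕ) * 2 ^ a * cf G s := by
    exact_mod_cast h4
  rw [h1', h2', h3', h4'] at h5
  exact h5

/-- a 4-dimensional face has at least 10 facets -/
lemma four_face (h : Comb 6 G) {s : Finset ι} (hs : s ∈ cliques G) (hc : s.card = 2) :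
    10 ≤ Nf G s 1 := by
  have e1 := h.count_edges hs 3 (by omega)
  have e2 := h.euler s hs (by omega)
  have e3 := h.chi4 s hs (by omega)
  have e4 := h.count_polygons hs 2 (by omega)
  have e5 := h.pairs hs (by omega)
  have e6 := h.two_le s hs (by omega)
  rw [hc] at e2 e5
  simp only [Nat.reduceSub, Nat.reduceAdd, sum_range_succ, sum_range_zero, Nf_zero hs] at e2
  norm_num at e1 e2 e4 e5
  zify at e1 e4 e5 e6 ⊢
  by_contra hcon
  rw [not_le] at hcon
  generalize (Nf G s 1 : ℤ) = x1 at *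
  generalize (Nf G s 2 : ℤ) = x2 at *
  generalize (Nf G s 3 : ℤ) = x3 at *
  generalize (Nf G s 4 : ℤ) = x4 at *
  generalize (cf G s : ℤ) = c at *
  have hx : x1 ≤ 9 := by omega
  nlinarith

/-- a 5-dimensional face has at least 16 facets -/
lemma five_face (h : Comb 6 G) {s : Finset ι} (hs : s ∈ cliques G) (hc : s.card = 1) :
    16 ≤ Nf G s 1 := by
  have e1 := h.count_edges hs 4 (by omega)
  have e2 := h.euler s hs (by omega)
  have e3 := h.count_three hs 2 (by omega)
  have e4 := h.count_polygons hs 3 (by omega)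
  have e5 := h.pairs hs (by omega)
  have e6 := h.two_le s hs (by omega)
  have e7 : 10 * Nf G s 1 ≤ 2 * Nf G s 2 := by
    have h1 := sum_Nf (G := G) s 1 1
    simp only [Nat.reduceAdd, show Nat.choose 2 1 = 2 from rfl] at h1
    rw [← h1, Nf_eq, mul_comm, ← smul_eq_mul, ← sum_const]
    refine sum_le_sum fun t ht => ?_
    rw [mem_up] at ht
    exact h.four_face ht.1 (by omega)
  rw [hc] at e2 e5
  simp only [Nat.reduceSub, Nat.reduceAdd, sum_range_succ, sum_range_zero, Nf_zero hs] at e2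
  norm_num [Nat.choose] at e1 e2 e3 e4 e5
  zify at e1 e4 e5 e6 e7 ⊢
  by_contra hcon
  rw [not_le] at hcon
  generalize (Nf G s 1 : ℤ) = x1 at *
  generalize (Nf G s 2 : ℤ) = x2 at *
  generalize (Nf G s 3 : ℤ) = x3 at *
  generalize (Nf G s 4 : ℤ) = x4 at *
  generalize (Nf G s 5 : ℤ) = x5 at *
  generalize (cf G s : ℤ) = c at *
  have hx : x1 ≤ 15 := by omega
  nlinarith

end Comb

theorem comb6 {G : ι → ι → ℝ} (h : Comb 6 G) :
    27 ≤ (iv G).card ∧ ((iv G).card = 27 →
      (64 : ℤ) - 32 * N G 1 + 16 * N G 2 - 8 * N G 3 + 4 * N G 4 - 2 * N G 5 + N G 6 ≤ -8) := by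
  have hs : (∅ : Finset ι) ∈ cliques G := by
    rw [mem_cliques]
    intro i hi
    simp at hi
  have hN : ∀ k, N G k = Nf G ∅ k := by
    intro k
    simp [N, Nf]
  have hc : cf G ∅ = (iv G).card := by simp [cf]
  have e1 := h.count_edges hs 5 (by simp)
  have e2 := h.euler ∅ hs (by simp)
  have e3 := h.count_three hs 3 (by simp)
  have e4 := h.count_polygons hs 4 (by simp)
  have e5 := h.pairs hs (by simp)
  have e6 := h.two_le ∅ hs (by simp)
  have e7 : 16 * Nf G ∅ 1 ≤ 2 * Nf G ∅ 2 := by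
    have h1 := sum_Nf (G := G) ∅ 1 1
    simp only [Nat.reduceAdd, show Nat.choose 2 1 = 2 from rfl] at h1
    rw [← h1, Nf_eq, mul_comm, ← smul_eq_mul, ← sum_const]
    refine sum_le_sum fun t ht => ?_
    rw [mem_up] at ht
    exact h.five_face ht.1 (by simpa using ht.2.2)
  have e8 : (Nf G ∅ 2 : ℤ) ≤ 16 * Nf G ∅ 2 - 24 * Nf G ∅ 3 + 24 * Nf G ∅ 4 - 20 * Nf G ∅ 5
      + 15 * Nf G ∅ 6 := by
    have h1 := sum_Nf (G := G) ∅ 2 1
    have h2 := sum_Nf (G := G) ∅ 2 2
    have h3 := sum_Nf (G := G) ∅ 2 3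
    have h4 := sum_Nf (G := G) ∅ 2 4
    norm_num [Nat.choose] at h1 h2 h3 h4
    have h5 : (Nf G ∅ 2 : ℤ) ≤ ∑ t ∈ up (cliques G) ∅ 2,
        ((16 : ℤ) - 8 * Nf G t 1 + 4 * Nf G t 2 - 2 * Nf G t 3 + Nf G t 4) := by
      rw [Nf_eq]
      have h6 : ((up (cliques G) ∅ 2).card : ℤ) = ∑ t ∈ up (cliques G) ∅ 2, (1 : ℤ) := by simp
      rw [h6]
      refine sum_le_sum fun t ht => ?_
      rw [mem_up] at ht
      exact h.chi4 t ht.1 (by simp at ht; omega)
    simp only [sum_add_distrib, sum_sub_distrib, ← mul_sum, sum_const, nsmul_eq_mul] at h5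
    rw [← Nf_eq] at h5
    zify at h1 h2 h3 h4
    rw [h1, h2, h3, h4] at h5
    linarith
  simp only [card_empty, Nat.reduceSub, Nat.reduceAdd, sum_range_succ, sum_range_zero,
    Nf_zero hs] at e2
  rw [card_empty] at e5
  norm_num [Nat.choose] at e1 e2 e3 e4 e5
  simp only [hN, ← hc]
  zify at e1 e4 e5 e6 e7 ⊢
  generalize (Nf G ∅ 1 : ℤ) = x1 at *
  generalize (Nf G ∅ 2 : ℤ) = x2 at *
  generalize (Nf G ∅ 3 : ℤ) = x3 at *
  generalize (Nf G ∅ 4 : ℤ) = x4 at *
  generalize (Nf G ∅ 5 : ℤ) = x5 at *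
  generalize (Nf G ∅ 6 : ℤ) = x6 at *
  generalize (cf G ∅ : ℤ) = c at *
  have hcx : x1 ≤ c := by linarith
  have hx : 27 ≤ x1 := by
    by_contra hcon
    rw [not_le] at hcon
    have hx : x1 ≤ 26 := by omega
    nlinarith
  refine ⟨by omega, fun hc27 => ?_⟩
  have hx1 : x1 = 27 := by omega
  linarith

end D

end Pool.Agent.RA
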