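import Pool.Agent.Lib_helper54.RAGB
import Pool.Agent.Lib_helper54.RAComb
import Pool.Agent.Lib_helper83.RA.Cusp
import Pool.Agent.Lib_helper6.RAPoly

/-!
MP_20f8ce_gt : from the combinatorial facts to the volume bound.
-/

open MeasureTheory Finset

namespace Pool.Agent.RA

theorem cusp_volume {ι : Type} [Fintype ι] [DecidableEq ι] (R : RASys 6 ι)
    (hfin : volume (R.K ∩ {x | -1 ≤ B x x}) < ⊤) :
    (0.065 : ℝ) * (iv R.G).card ≤ 7 * (volume (R.K ∩ {x | -1 ≤ B x x})).toReal :=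
  Cusp.cusp_volume_of R (fun _ h0 h1 h2 => exists_frame (R := R) (by norm_num) h0 h1 h2)
    (fun v hv => (mem_iv_iff (R := R) (by norm_num) v).1 hv) hfin

/-- the Euler characteristic of a right-angled 6-polytope in terms of the numbers of faces -/
lemma chi_six {ι : Type} [Fintype ι] [DecidableEq ι] {G : ι → ι → ℝ}
    (hle : ∀ s ∈ cliques G, s.card ≤ 6) :
    64 * chi G = (((64 : ℤ) - 32 * N G 1 + 16 * N G 2 - 8 * N G 3 + 4 * N G 4 - 2 * N G 5 + N G 6 : ℤ) : ℝ) := by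
  classical
  have h0 : N G 0 = 1 := by
    have h1 : (cliques G).filter (fun s => s.card = 0) = {∅} := by
      ext s
      simp only [mem_filter, card_eq_zero, mem_singleton]
      constructor
      · exact fun h => h.2
      · rintro rfl
        exact ⟨by rw [mem_cliques]; intro i hi; simp at hi, rfl⟩
    rw [N, h1, card_singleton]
  have h1 : chi G = ∑ k ∈ range 7, ∑ s ∈ (cliques G).filter (fun s => s.card = k),
      (-1 / 2 : ℝ) ^ s.card := by
    rw [chi]
    refine (sum_fiberwise_of_maps_to (fun s hs => ?_) _).symm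
    rw [mem_range]
    have := hle s hs
    omega
  have h2 : ∀ k, ∑ s ∈ (cliques G).filter (fun s => s.card = k), (-1 / 2 : ℝ) ^ s.card
      = (N G k : ℝ) * (-1 / 2) ^ k := by
    intro k
    rw [sum_congr rfl (g := fun _ => (-1 / 2 : ℝ) ^ k), sum_const, nsmul_eq_mul, N]
    intro s hs
    rw [(mem_filter.1 hs).2]
  rw [h1, sum_congr rfl (fun k _ => h2 k)]
  simp only [sum_range_succ, sum_range_zero, h0]
  push_cast
  ring

/-- The main theorem for right-angled systems. -/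
theorem volume_ge_of_comb {ι : Type} [Fintype ι] [DecidableEq ι] (R : RASys 6 ι)
    (hcomb : Comb 6 R.G) :
    volume (R.K ∩ {x | -1 ≤ B x x}) < ⊤ ∧
    Real.pi ^ 3 / 15 ≤ 7 * (volume (R.K ∩ {x | -1 ≤ B x x})).toReal := by
  have hsmul : ∀ x ∈ R.K, ∀ t : ℝ, 0 < t → t • x ∈ R.K := by
    intro x hx t ht i
    rw [B_smul_left]
    exact mul_nonpos_of_nonneg_of_nonpos ht.le (hx i)
  obtain ⟨hfin, hexp⟩ := integral_exp_cone R.K R.measurableSet_K hsmul (fun x hx => R.cone x hx)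
    (integrableOn_exp (by norm_num) R)
  refine ⟨hfin, ?_⟩
  have hgb := gauss_bonnet (by norm_num) (by decide) R
  have hcusp := cusp_volume R hfin
  set L : ℝ := (volume (R.K ∩ {x | -1 ≤ B x x})).toReal with hL
  have hchi := chi_six hcomb.card_le
  obtain ⟨hc27, hg⟩ := comb6 hcomb
  set g : ℤ := (64 : ℤ) - 32 * N R.G 1 + 16 * N R.G 2 - 8 * N R.G 3 + 4 * N R.G 4 - 2 * N R.G 5
    + N R.G 6 with hgdef
  have hpi : 0 < Real.pi := Real.pi_pos
  have hGamma : Real.Gamma ((((6 : ℕ) : ℝ) + 1) / 2 + 1) = 105 / 16 * Real.sqrt Real.pi := by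
    have h1 := Real.Gamma_nat_add_half 4
    have h2 : ((((6 : ℕ) : ℝ) + 1) / 2 + 1) = ((4 : ℕ) : ℝ) + 1 / 2 := by push_cast; norm_num
    rw [h2, h1]
    norm_num [Nat.doubleFactorial]
    ring
  have h7L : 7 * L = -(g : ℝ) * Real.pi ^ 3 / 120 := by
    have h1 : Real.pi ^ ((((6 : ℕ) : ℝ) + 1) / 2) = Real.pi ^ 3 * Real.sqrt Real.pi := by
      rw [Real.sqrt_eq_rpow, ← Real.rpow_natCast, ← Real.rpow_add hpi]
      congr 1
      push_cast
      norm_num
    rw [hexp, hGamma, h1, show (6 / 2 : ℕ) = 3 from rfl] at hgb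
    have hs : 0 < Real.sqrt Real.pi := Real.sqrt_pos.2 hpi
    have h2 : Real.sqrt Real.pi * (2 * (105 / 16) * L + Real.pi ^ 3 * chi R.G) = 0 := by
      linear_combination hgb
    rcases mul_eq_zero.1 h2 with h3 | h3
    · exact absurd h3 hs.ne'
    · linear_combination (8 / 15) * h3 + (-Real.pi ^ 3 / 120) * hchi
  have hpi3 : 0 < Real.pi ^ 3 := by positivity
  have hg8 : g ≤ -8 := by
    rcases Nat.lt_or_ge 27 (iv R.G).card with h | h
    · by_contra hcon
      have h1 : -7 ≤ g := by omega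
      have h2 : (28 : ℝ) ≤ (iv R.G).card := by exact_mod_cast h
      have h3 : (-7 : ℝ) ≤ g := by exact_mod_cast h1
      have h4 : Real.pi < 3.1416 := Real.pi_lt_d4
      have h5 : Real.pi ^ 3 < 3.1416 ^ 3 := pow_lt_pow_left₀ h4 hpi.le (by norm_num)
      nlinarith
    · exact hg (le_antisymm h hc27)
  have h8 : (g : ℝ) ≤ -8 := by exact_mod_cast hg8
  rw [h7L]
  nlinarith

/-- The main theorem for polytopes given by their outward unit normals. -/
theorem hvol_ge_of_comb {k : ℕ} (e : Fin k → M 6)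
    (hunit : ∀ i, B (e i) (e i) = 1)
    (hint : ∃ x ∈ Hyp, ∀ i, B x (e i) < 0)
    (hirr : ∀ i, ∃ x ∈ Hyp, 0 < B x (e i) ∧ ∀ j, j ≠ i → B x (e j) ≤ 0)
    (hra : ∀ i j, i ≠ j → (∃ x ∈ Hyp, B x (e i) = 0 ∧ B x (e j) = 0) → B (e i) (e j) = 0)
    (hvolfin : hvol {x | ∀ i, B x (e i) ≤ 0} < ⊤)
    (hcomb : ∀ R : RASys 6 (Fin k), Comb 6 R.G) :
    ENNReal.ofReal (Real.pi ^ 3 / 15) ≤ hvol {x | ∀ i, B x (e i) ≤ 0} := by
  obtain ⟨R, rfl, hp2⟩ := rasys_of_polytope e hunit hint hirr hra hvolfin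
  obtain ⟨hfin, hge⟩ := volume_ge_of_comb R (hcomb R)
  have hK : {x : M 6 | ∀ i, B x (R.e i) ≤ 0} = R.K := rfl
  have hsmul : ∀ x ∈ R.K, ∀ t : ℝ, 0 < t → t • x ∈ R.K := by
    intro x hx t ht i
    rw [B_smul_left]
    exact mul_nonpos_of_nonneg_of_nonpos ht.le (hx i)
  have hneg : ∀ x ∈ R.K, B x x ≤ 0 ∧ 0 ≤ x.2 := by
    intro x hx
    refine ⟨R.cone x hx, ?_⟩
    by_contra hcon
    rw [not_le] at hcon
    have hx0 : x ≠ 0 := by
      rintro rfl
      simp at hcon
    have h1 : B x R.p < 0 := R.K_time (by norm_num) hx hx0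
    -- normalise `p`
    set r : ℝ := Real.sqrt (-B R.p R.p) with hr
    have hpt := R.ptime
    have hr0 : 0 < r := Real.sqrt_pos.2 (by linarith)
    have hr2 : r ^ 2 = -B R.p R.p := Real.sq_sqrt (by linarith)
    have hpH : r⁻¹ • R.p ∈ Hyp := by
      constructor
      · rw [B_smul_left, B_smul_right]
        have : B R.p R.p = -r ^ 2 := by linarith
        rw [this]
        field_simp
      · show 0 < (r⁻¹ • R.p).2
        rw [Prod.smul_snd, smul_eq_mul]
        exact mul_pos (inv_pos.2 hr0) hp2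
    have h2 : B (r⁻¹ • R.p) (-x) < 0 := by
      apply B_neg_of_causal hpH (neg_ne_zero.2 hx0)
      · rw [B_neg_left, B_neg_right, neg_neg]
        exact R.cone x hx
      · show 0 ≤ -x.2
        linarith
    rw [B_neg_right, B_smul_left, B_comm] at h2
    have h3 : 0 < r⁻¹ * B x R.p := by linarith
    have h4 := mul_neg_of_pos_of_neg (inv_pos.2 hr0) h1
    linarith
  rw [hK, hvol_cone R.K R.isClosed_K hsmul hneg]
  rw [← ENNReal.ofReal_toReal hfin.ne, show (7 : ENNReal) = ENNReal.ofReal 7 by simp,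
    ← ENNReal.ofReal_mul (by norm_num)]
  exact ENNReal.ofReal_le_ofReal hge

end Pool.Agent.RA
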