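import Pool.Agent.Lib_helper84.BT.Defs

set_option autoImplicit false

/-! Block P3: subgroups of small index of a group which induces the alternating group on a set of
at least eight points. -/

namespace Pool.Agent.Lib_helper84.BT

open MulAction Equiv Equiv.Perm
open scoped Pointwise

/-- subgroups of small index of finite simple groups -/
theorem P3_simple_index {T : Type*} [Group T] [Finite T] [IsSimpleGroup T] (E : Subgroup T)
    {k : ℕ} (hk : E.index ≤ k) (hf : k.factorial < Nat.card T) : E = ⊤ := by
  classical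
  rcases IsSimpleGroup.eq_bot_or_eq_top_of_normal E.normalCore inferInstance with h | h
  · exfalso
    have hinj : Function.Injective (MulAction.toPermHom T (T ⧸ E)) := by
      rw [← MonoidHom.ker_eq_bot_iff, ← Subgroup.normalCore_eq_ker, h]
    have h1 : Nat.card T ≤ Nat.card (Perm (T ⧸ E)) := Nat.card_le_card_of_injective _ hinj
    rw [Nat.card_perm] at h1
    have h2 : Nat.card (T ⧸ E) = E.index := rfl
    rw [h2] at h1
    have h3 := Nat.factorial_le hk
    omega
  · exact top_le_iff.1 (h ▸ E.normalCore_le)

theorem P3_num1 : ∀ R : ℕ, 3 ≤ R → 2 * 3 ^ R * R.factorial < 3 * (3 * R - 3).factorial := by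
  intro R hR
  induction R, hR using Nat.le_induction with
  | base => decide
  | succ R hR ih =>
    have e : 3 * (R + 1) - 3 = (3 * R - 3) + 1 + 1 + 1 := by omega
    rw [e, Nat.factorial_succ, Nat.factorial_succ, Nat.factorial_succ, Nat.factorial_succ, pow_succ]
    have h1 : 3 * (R + 1) ≤ (3 * R - 3 + 1 + 1 + 1) * ((3 * R - 3 + 1 + 1) * (3 * R - 3 + 1)) := by
      have a : R + 1 ≤ 3 * R - 3 + 1 + 1 + 1 := by omega
      have b : 3 ≤ (3 * R - 3 + 1 + 1) * (3 * R - 3 + 1) := by
        have b1 : 3 ≤ 3 * R - 3 + 1 + 1 := by omega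
        have b2 : 1 ≤ 3 * R - 3 + 1 := by omega
        calc 3 = 3 * 1 := by norm_num
          _ ≤ _ := Nat.mul_le_mul b1 b2
      calc 3 * (R + 1) = (R + 1) * 3 := by ring
        _ ≤ _ := Nat.mul_le_mul a b
    calc 2 * (3 ^ R * 3) * ((R + 1) * R.factorial) = 2 * 3 ^ R * R.factorial * (3 * (R + 1)) := by ring
      _ < 3 * (3 * R - 3).factorial * (3 * (R + 1)) := by
          apply Nat.mul_lt_mul_of_pos_right ih (by omega)
      _ ≤ 3 * (3 * R - 3).factorial *
          ((3 * R - 3 + 1 + 1 + 1) * ((3 * R - 3 + 1 + 1) * (3 * R - 3 + 1))) :=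
          Nat.mul_le_mul_left _ h1
      _ = _ := by ring

theorem P3_num {n R : ℕ} (hn : 8 ≤ n) (hR : 2 ≤ R) (h3 : 3 * R ≤ n) :
    2 * ((n - 3 * R).factorial * 3 ^ R * R.factorial) < 3 * (n - 3).factorial := by
  obtain ⟨k, rfl⟩ : ∃ k, n = k + 3 * R := ⟨n - 3 * R, by omega⟩
  have e1 : k + 3 * R - 3 * R = k := by omega
  rw [e1]
  rcases Nat.lt_or_ge R 3 with h | h
  · have hR2 : R = 2 := by omega
    subst hR2
    have e2 : k + 3 * 2 - 3 = k + 1 + 1 + 1 := by omega
    rw [e2, Nat.factorial_succ (k + 1 + 1), Nat.factorial_succ (k + 1), Nat.factorial_succ k]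
    have hk : 2 ≤ k := by omega
    have hp : 0 < k.factorial := Nat.factorial_pos k
    have h5 : 60 ≤ (k + 1 + 1 + 1) * ((k + 1 + 1) * (k + 1)) := by
      calc 60 = (2 + 1 + 1 + 1) * ((2 + 1 + 1) * (2 + 1)) := by norm_num
        _ ≤ _ := by gcongr
    calc 2 * (k.factorial * 3 ^ 2 * Nat.factorial 2) = 36 * k.factorial := by
          simp [Nat.factorial]; ring
      _ < 180 * k.factorial := by omega
      _ = 3 * 60 * k.factorial := by ring
      _ ≤ 3 * ((k + 1 + 1 + 1) * ((k + 1 + 1) * (k + 1))) * k.factorial := by gcongr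
      _ = _ := by ring
  · have e2 : k + 3 * R - 3 = k + (3 * R - 3) := by omega
    rw [e2]
    have h1 := P3_num1 R h
    have h2 : k.factorial * (3 * R - 3).factorial ≤ (k + (3 * R - 3)).factorial :=
      Nat.le_of_dvd (Nat.factorial_pos _) (Nat.factorial_mul_factorial_dvd_factorial_add _ _)
    have hp : 0 < k.factorial := Nat.factorial_pos k
    calc 2 * (k.factorial * 3 ^ R * R.factorial) = (2 * 3 ^ R * R.factorial) * k.factorial := by ring
      _ < (3 * (3 * R - 3).factorial) * k.factorial := Nat.mul_lt_mul_of_pos_right h1 hp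
      _ = 3 * (k.factorial * (3 * R - 3).factorial) := by ring
      _ ≤ _ := Nat.mul_le_mul_left _ h2

section core

variable {α : Type*} [Fintype α] [DecidableEq α]

theorem P3_cent (t : alternatingGroup α) [Nontrivial α] :
    Nat.card (Subgroup.centralizer {(t : Perm α)}) ≤
      2 * Nat.card (Subgroup.centralizer {t}) := by
  set C := Subgroup.centralizer {(t : Perm α)} with hC
  have h1 := Subgroup.card_mul_index ((alternatingGroup α).subgroupOf C)
  have h2 : ((alternatingGroup α).subgroupOf C).index ≤ 2 := by
    have : (alternatingGroup α).relIndex C ∣ (alternatingGroup α).index :=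
      Subgroup.relIndex_dvd_index_of_normal _ _
    rw [alternatingGroup.index_eq_two] at this
    exact Nat.le_of_dvd (by norm_num) this
  have h3 : Nat.card ((alternatingGroup α).subgroupOf C) ≤ Nat.card (Subgroup.centralizer {t}) := by
    let f : (alternatingGroup α).subgroupOf C → Subgroup.centralizer {t} := fun g =>
      ⟨⟨((g : C) : Perm α), Subgroup.mem_subgroupOf.1 g.2⟩, by
        have hg := Subgroup.mem_centralizer_singleton_iff.1 (g : C).2
        rw [Subgroup.mem_centralizer_singleton_iff]
        apply Subtype.ext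
        exact hg⟩
    apply Nat.card_le_card_of_injective f
    intro a b hab
    apply Subtype.ext
    apply Subtype.ext
    have := congrArg (fun x : Subgroup.centralizer {t} => ((x : alternatingGroup α) : Perm α)) hab
    exact this
  calc Nat.card C = Nat.card ((alternatingGroup α).subgroupOf C) *
        ((alternatingGroup α).subgroupOf C).index := h1.symm
    _ ≤ Nat.card (Subgroup.centralizer {t}) * 2 := Nat.mul_le_mul h3 h2
    _ = _ := by ring

/-- an injective homomorphism of `Alt(n)` into `Sym(n)` maps 3-cycles to 3-cycles -/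
theorem P3_three {Ω : Type*} [Fintype Ω] [DecidableEq Ω] (hn : 8 ≤ Fintype.card α)
    (hΩ : Fintype.card Ω = Fintype.card α) (ψ : alternatingGroup α →* Perm Ω)
    (hψ : Function.Injective ψ) (t : alternatingGroup α) (ht : (t : Perm α).IsThreeCycle) :
    (ψ t).IsThreeCycle := by
  have : Nontrivial α := Fintype.one_lt_card_iff_nontrivial.1 (by omega)
  have ho : orderOf (ψ t) = 3 := by
    rw [orderOf_injective ψ hψ t, ← ht.orderOf]
    exact (orderOf_injective (alternatingGroup α).subtype Subtype.val_injective t).symm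
  obtain ⟨r, hr⟩ := cycleType_prime_order (σ := ψ t) (by rw [ho]; exact Nat.prime_three)
  rw [ho] at hr
  have hle : 3 * (r + 1) ≤ Fintype.card α := by
    have h1 := (ψ t).sum_cycleType
    rw [hr, Multiset.sum_replicate, smul_eq_mul] at h1
    have h2 := Finset.card_le_univ (ψ t).support
    rw [← h1, hΩ] at h2
    omega
  have hc1 : Nat.card (Subgroup.centralizer {(t : Perm α)}) =
      (Fintype.card α - 3).factorial * 3 := by
    rw [nat_card_centralizer, ht.cycleType]
    simp
  have hc2 : Nat.card (Subgroup.centralizer {ψ t}) =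
      (Fintype.card α - 3 * (r + 1)).factorial * 3 ^ (r + 1) * (r + 1).factorial := by
    rw [nat_card_centralizer, hr]
    rw [Multiset.sum_replicate, Multiset.prod_replicate, smul_eq_mul, hΩ]
    have h4 : (Multiset.replicate (r + 1) 3).toFinset = {3} := by
      rw [Multiset.toFinset_replicate]; simp
    rw [h4, Finset.prod_singleton, Multiset.count_replicate_self, mul_comm (r + 1) 3]
  have hc3 : Nat.card (Subgroup.centralizer {t}) ≤ Nat.card (Subgroup.centralizer {ψ t}) := by
    let f : Subgroup.centralizer {t} → Subgroup.centralizer {ψ t} := fun g =>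
      ⟨ψ g, by
        have hg := g.2
        rw [Subgroup.mem_centralizer_singleton_iff] at hg ⊢
        rw [← map_mul, ← map_mul, hg]⟩
    apply Nat.card_le_card_of_injective f
    intro a b hab
    apply Subtype.ext
    apply hψ
    exact congrArg Subtype.val hab
  have hc4 := P3_cent t
  rw [hc1] at hc4
  have hr0 : r = 0 := by
    by_contra hne
    have := P3_num hn (R := r + 1) (by omega) hle
    rw [hc2] at hc3
    have h5 : 2 * Nat.card (Subgroup.centralizer {t}) ≤
      2 * ((Fintype.card α - 3 * (r + 1)).factorial * 3 ^ (r + 1) * (r + 1).factorial) :=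
      Nat.mul_le_mul_left _ hc3
    omega
  rw [IsThreeCycle, hr, hr0]
  rfl

theorem P3_exists_three (hn : 3 ≤ Fintype.card α) : ∃ t : alternatingGroup α,
    (t : Perm α).IsThreeCycle := by
  obtain ⟨a, b, c, hab, hac, hbc⟩ := Fintype.two_lt_card_iff.1 (by omega : 2 < Fintype.card α)
  have h3 := isThreeCycle_swap_mul_swap_same hab hac hbc
  exact ⟨⟨_, h3.mem_alternatingGroup⟩, h3⟩

theorem P3_core (hn : 8 ≤ Fintype.card α)
    (D : Subgroup (alternatingGroup α)) (hD : D.index ≤ Fintype.card α) (hD1 : D ≠ ⊤) :
    ∃ s : α, ∀ x : alternatingGroup α, x ∈ D ↔ (x : Perm α) s = s := by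
  classical
  have : Nontrivial α := Fintype.one_lt_card_iff_nontrivial.1 (by omega)
  have : IsSimpleGroup (alternatingGroup α) :=
    alternatingGroup.isSimpleGroup (by rw [Nat.card_eq_fintype_card]; omega)
  set n := Fintype.card α with hnd
  set Ω := alternatingGroup α ⧸ D with hΩd
  let _ : Fintype Ω := Fintype.ofFinite Ω
  have hcardA : 2 * Nat.card (alternatingGroup α) = n.factorial := by
    rw [two_mul_nat_card_alternatingGroup, Nat.card_perm, Nat.card_eq_fintype_card]
  have hfac : n.factorial = n * (n - 1).factorial := by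
    rw [← Nat.mul_factorial_pred (by omega : n ≠ 0)]
  have hfac2 : (n - 1).factorial = (n - 1) * (n - 2).factorial := by
    rw [← Nat.mul_factorial_pred (by omega : n - 1 ≠ 0)]
    rfl
  have hp1 : 0 < (n - 1).factorial := Nat.factorial_pos _
  have hp2 : 0 < (n - 2).factorial := Nat.factorial_pos _
  have hΩcard : Nat.card Ω = D.index := rfl
  have hidx : D.index = n := by
    rcases Nat.lt_or_ge D.index n with h | h
    · exfalso
      apply hD1
      apply P3_simple_index D (k := n - 1) (by omega)
      have h4 : 4 * (n - 1).factorial ≤ n * (n - 1).factorial :=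
        Nat.mul_le_mul_right _ (by omega)
      omega
    · omega
  have hΩn : Fintype.card Ω = n := by rw [← Nat.card_eq_fintype_card, hΩcard, hidx]
  set ψ := MulAction.toPermHom (alternatingGroup α) Ω with hψd
  have hψ : Function.Injective ψ := by
    rw [← MonoidHom.ker_eq_bot_iff, ← Subgroup.normalCore_eq_ker]
    rcases IsSimpleGroup.eq_bot_or_eq_top_of_normal D.normalCore inferInstance with h | h
    · exact h
    · exact absurd (top_le_iff.1 (h ▸ D.normalCore_le)) hD1
  -- the stabilizer of a point
  obtain ⟨s0⟩ : Nonempty α := inferInstance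
  set S' : Finset α := Finset.univ.erase s0 with hS'
  have hS'card : Fintype.card S' = n - 1 := by
    rw [Fintype.card_coe, hS', Finset.card_erase_of_mem (Finset.mem_univ _), Finset.card_univ]
  have : Nontrivial S' := Fintype.one_lt_card_iff_nontrivial.1 (by omega)
  have : IsSimpleGroup (alternatingGroup S') :=
    alternatingGroup.isSimpleGroup (by rw [Nat.card_eq_fintype_card]; omega)
  have hcardT : 2 * Nat.card (alternatingGroup S') = (n - 1).factorial := by
    rw [two_mul_nat_card_alternatingGroup, Nat.card_perm, Nat.card_eq_fintype_card, hS'card]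
  set ι := alternatingGroup.ofSubtype S' with hι
  have hιinj : Function.Injective ι := alternatingGroup.ofSubtype_injective
  set χ := ψ.comp ι with hχ
  have hχinj : Function.Injective χ := hψ.comp hιinj
  set G' := χ.range with hG'
  have : Nontrivial G' := (MonoidHom.ofInjective hχinj).symm.toEquiv.nontrivial
  have : IsSimpleGroup G' :=
    IsSimpleGroup.isSimpleGroup_of_surjective χ.rangeRestrict χ.rangeRestrict_surjective
  have hcardG' : 2 * Nat.card G' = (n - 1).factorial := by
    rw [← hcardT, ← Nat.card_congr (MonoidHom.ofInjective hχinj).toEquiv]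
  have hbig : ∀ E : Subgroup G', E.index ≤ n - 2 → E = ⊤ := by
    intro E hE
    apply P3_simple_index E hE
    have h4 : 4 * (n - 2).factorial ≤ (n - 1) * (n - 2).factorial :=
      Nat.mul_le_mul_right _ (by omega)
    omega
  have hfix : ∃ ω : Ω, ∀ g ∈ G', g ω = ω := by
    by_contra hcon
    push Not at hcon
    have horb : ∀ ω : Ω, n - 1 ≤ (orbit G' ω).ncard := by
      intro ω
      by_contra hlt
      push Not at hlt
      rw [← index_stabilizer] at hlt
      have h1 := hbig _ (by omega : (stabilizer G' ω).index ≤ n - 2)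
      obtain ⟨g, hg, hne⟩ := hcon ω
      apply hne
      have : (⟨g, hg⟩ : G') ∈ stabilizer G' ω := by rw [h1]; trivial
      exact this
    have hpre : IsPretransitive G' Ω := by
      constructor
      intro a b
      by_contra hab
      push Not at hab
      have hdis : Disjoint (orbit G' a) (orbit G' b) := by
        rw [Set.disjoint_left]
        intro c hca hcb
        obtain ⟨g, rfl⟩ := hca
        obtain ⟨h, hh⟩ := hcb
        apply hab (h⁻¹ * g)
        rw [mul_smul]
        simp only at hh
        rw [← hh, inv_smul_smul]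
      have h1 := Set.ncard_union_eq hdis (Set.toFinite _) (Set.toFinite _)
      have h2 : (orbit G' a ∪ orbit G' b).ncard ≤ n := by
        rw [← hΩn, ← Nat.card_eq_fintype_card, ← Set.ncard_univ]
        exact Set.ncard_le_ncard (Set.subset_univ _) (Set.toFinite _)
      have h3 := horb a
      have h4 := horb b
      omega
    have hprim : IsPreprimitive G' Ω := by
      constructor
      intro Bl hBl
      rcases Set.eq_empty_or_nonempty Bl with rfl | hne
      · left; exact Set.subsingleton_empty
      · have h1 := hBl.ncard_block_mul_ncard_orbit_eq hne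
        rw [Nat.card_eq_fintype_card, hΩn] at h1
        by_cases hsub : Bl.Subsingleton
        · left; exact hsub
        · right
          have h2 : 2 ≤ Bl.ncard := by
            rw [Set.not_subsingleton_iff] at hsub
            exact (Set.one_lt_ncard_iff_nontrivial (s := Bl)).2 hsub
          have h3 : (orbit G' Bl).ncard ≤ n - 2 := by
            have : 2 * (orbit G' Bl).ncard ≤ n := by
              rw [← h1]; exact Nat.mul_le_mul_right _ h2
            omega
          rw [← index_stabilizer] at h3
          have h4 := hbig _ h3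
          rw [← index_stabilizer, h4, Subgroup.index_top, mul_one] at h1
          apply Set.eq_of_subset_of_ncard_le (Set.subset_univ _) _ (Set.toFinite _)
          rw [Set.ncard_univ, h1, Nat.card_eq_fintype_card, hΩn]
    obtain ⟨t', ht'⟩ := P3_exists_three (α := S') (by omega)
    have ht3 : ((ι t' : alternatingGroup α) : Perm α).IsThreeCycle := by
      rw [hι, alternatingGroup.coe_ofSubtype, IsThreeCycle, cycleType_ofSubtype]
      exact ht'
    have h3 := P3_three hn hΩn ψ hψ (ι t') ht3
    have hJ := alternatingGroup_le_of_isPreprimitive_of_isThreeCycle_mem hprim h3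
      (⟨t', rfl⟩ : ψ (ι t') ∈ G')
    have : Nontrivial Ω := Fintype.one_lt_card_iff_nontrivial.1 (by omega)
    have h5 : Nat.card (alternatingGroup Ω) ≤ Nat.card G' := Subgroup.card_le_of_le hJ
    have h6 : 2 * Nat.card (alternatingGroup Ω) = n.factorial := by
      rw [two_mul_nat_card_alternatingGroup, Nat.card_perm, Nat.card_eq_fintype_card, hΩn]
    have h7 : 2 * (n - 1).factorial ≤ n * (n - 1).factorial := Nat.mul_le_mul_right _ (by omega)
    omega
  obtain ⟨ω, hω⟩ := hfix
  have hcardι : 2 * Nat.card ι.range = (n - 1).factorial := by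
    rw [← hcardT, ← Nat.card_congr (MonoidHom.ofInjective hιinj).toEquiv]
  have hst : ∀ (E : Subgroup (alternatingGroup α)), ι.range ≤ E → E.index = n → ι.range = E := by
    intro E hE hEi
    apply Subgroup.eq_of_le_of_card_ge hE
    have h1 := E.card_mul_index
    rw [hEi] at h1
    have h2 : 2 * (Nat.card E * n) = n * (n - 1).factorial := by rw [h1, hcardA, hfac]
    have h3 : n * (2 * Nat.card E) = n * (2 * Nat.card ι.range) := by
      rw [hcardι, ← h2]; ring
    have h4 := Nat.eq_of_mul_eq_mul_left (by omega) h3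
    omega
  have e1 : ι.range = stabilizer (alternatingGroup α) ω := by
    apply hst
    · rintro _ ⟨t, rfl⟩
      exact hω (χ t) ⟨t, rfl⟩
    · rw [index_stabilizer_of_transitive, hΩcard, hidx]
  have : IsPretransitive (alternatingGroup α) α := by
    constructor
    intro a b
    by_cases hab : a = b
    · exact ⟨1, by rw [one_smul, hab]⟩
    · obtain ⟨c, hc⟩ : ∃ c, c ∉ ({a, b} : Finset α) := by
        by_contra hcon
        push Not at hcon
        have h1 : (Finset.univ : Finset α) ⊆ {a, b} := fun x _ => hcon x
        have h2 := Finset.card_le_card h1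
        have h3 : ({a, b} : Finset α).card ≤ 2 := Finset.card_le_two
        rw [Finset.card_univ] at h2
        omega
      simp only [Finset.mem_insert, Finset.mem_singleton, not_or] at hc
      have h3 : (swap a b * swap b c).IsThreeCycle := by
        have := isThreeCycle_swap_mul_swap_same (a := b) (b := a) (c := c) (Ne.symm hab)
          (Ne.symm hc.2) (Ne.symm hc.1)
        rw [swap_comm a b]
        exact this
      refine ⟨⟨swap a b * swap b c, h3.mem_alternatingGroup⟩, ?_⟩
      change (swap a b * swap b c) a = b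
      rw [Perm.mul_apply, swap_apply_of_ne_of_ne hab (Ne.symm hc.1), swap_apply_left]
  have e2 : ι.range = stabilizer (alternatingGroup α) s0 := by
    apply hst
    · rintro _ ⟨t, rfl⟩
      change ((ι t : alternatingGroup α) : Perm α) s0 = s0
      rw [hι, alternatingGroup.coe_ofSubtype]
      apply ofSubtype_apply_of_not_mem
      rw [hS']
      exact Finset.notMem_erase _ _
    · rw [index_stabilizer_of_transitive, Nat.card_eq_fintype_card]
  obtain ⟨g, hg⟩ : ∃ g : alternatingGroup α, g • ((1 : alternatingGroup α) : Ω) = ω :=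
    MulAction.exists_smul_eq _ _ _
  refine ⟨g⁻¹ • s0, fun x => ?_⟩
  have h1 : x ∈ D ↔ x • ((1 : alternatingGroup α) : Ω) = ((1 : alternatingGroup α) : Ω) := by
    rw [← MulAction.mem_stabilizer_iff, MulAction.stabilizer_quotient]
  have h2 : x • ((1 : alternatingGroup α) : Ω) = ((1 : alternatingGroup α) : Ω) ↔
      (g * x * g⁻¹) • ω = ω := by
    rw [← hg, smul_smul, mul_assoc, mul_assoc, inv_mul_cancel, mul_one, mul_smul]
    exact (MulAction.injective g).eq_iff.symm
  have h3 : (g * x * g⁻¹) • ω = ω ↔ (g * x * g⁻¹) • s0 = s0 := by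
    rw [← MulAction.mem_stabilizer_iff, ← MulAction.mem_stabilizer_iff, ← e1, ← e2]
  rw [h1, h2, h3, mul_smul, mul_smul, ← eq_inv_smul_iff]
  rfl

end core

section transfer

variable {G V : Type*} [Group G] [MulAction G V]

/-- the permutation representation of `A` on an invariant set -/
def P3_hom {A : Subgroup G} {S : Set V} (hA : Inv A S) : A →* Perm S where
  toFun a :=
    { toFun := fun s => ⟨(a : G) • (s : V), hA a a.2 s s.2⟩
      invFun := fun s => ⟨((a⁻¹ : A) : G) • (s : V), hA _ (a⁻¹).2 s s.2⟩
      left_inv := fun s => by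
        apply Subtype.ext
        simp
      right_inv := fun s => by
        apply Subtype.ext
        simp }
  map_one' := by
    ext s
    simp
  map_mul' a b := by
    ext s
    simp [mul_smul]

theorem P3_hom_apply {A : Subgroup G} {S : Set V} (hA : Inv A S) (a : A) (s : S) :
    ((P3_hom hA a s : S) : V) = (a : G) • (s : V) := rfl

/-- a 3-cycle moves three points cyclically -/
theorem P3_cycle {α : Type*} [Fintype α] [DecidableEq α] {σ : Perm α} (h : σ.IsThreeCycle) :
    ∃ x y z : α, x ≠ y ∧ y ≠ z ∧ x ≠ z ∧ σ x = y ∧ σ y = z ∧ σ z = x ∧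
      ∀ s, s ≠ x → s ≠ y → s ≠ z → σ s = s := by
  obtain ⟨x, hx⟩ : ∃ x, σ x ≠ x := by
    by_contra hcon
    push Not at hcon
    exact h.ne_one (Equiv.ext hcon)
  have h3 : σ (σ (σ x)) = x := by
    have h1 : σ ^ 3 = 1 := by rw [← h.orderOf]; exact pow_orderOf_eq_one σ
    have h2 := congrArg (fun τ : Perm α => τ x) h1
    simpa [pow_succ] using h2
  have hxy : x ≠ σ x := Ne.symm hx
  have hyz : σ x ≠ σ (σ x) := fun e => hxy (σ.injective e)
  have hxz : x ≠ σ (σ x) := by
    intro e
    apply hx
    have : σ x = σ (σ (σ x)) := congrArg σ e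
    rw [this, h3]
  refine ⟨x, σ x, σ (σ x), hxy, hyz, hxz, rfl, rfl, h3, ?_⟩
  have hsub : ({x, σ x, σ (σ x)} : Finset α) ⊆ σ.support := by
    intro y hy
    simp only [Finset.mem_insert, Finset.mem_singleton] at hy
    rw [mem_support]
    rcases hy with rfl | rfl | rfl
    · exact hx
    · exact Ne.symm hyz
    · rw [h3]; exact hxz
  have hcard : ({x, σ x, σ (σ x)} : Finset α).card = 3 := by
    rw [Finset.card_eq_three]
    exact ⟨x, σ x, σ (σ x), hxy, hxz, hyz, rfl⟩
  have heq := Finset.eq_of_subset_of_card_le hsub (by rw [h.card_support, hcard])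
  intro s h1 h2 h3
  by_contra hne
  have : s ∈ σ.support := mem_support.2 hne
  rw [← heq] at this
  simp only [Finset.mem_insert, Finset.mem_singleton] at this
  tauto

/-- P3 -/
theorem eq_stab {A B : Subgroup G} {S : Set V} (hS : 8 ≤ S.ncard) (hA : Inv A S)
    (hb : Big A S) (hBA : B ≤ A) (h0 : B.relIndex A ≠ 0) (hle : B.relIndex A ≤ S.ncard)
    (hnb : ¬ Big B S) : ∃ s ∈ S, B = A ⊓ stabilizer G s := by
  classical
  have hfin : S.Finite := Set.finite_of_ncard_pos (by omega)
  let _ : Fintype S := hfin.fintype
  have hcard : Fintype.card S = S.ncard := by rw [← Nat.card_eq_fintype_card]; rfl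
  set φ := P3_hom hA with hφ
  have hlift : ∀ (C : Subgroup G), C ≤ A → Big C S →
      ∀ σ : Perm S, σ.IsThreeCycle → ∃ a : A, (a : G) ∈ C ∧ φ a = σ := by
    intro C hCA hC σ hσ
    obtain ⟨x, y, z, hxy, hyz, hxz, e1, e2, e3, hother⟩ := P3_cycle hσ
    obtain ⟨a, haC, c1, c2, c3, c4⟩ := hC x x.2 y y.2 z z.2 (fun e => hxy (Subtype.ext e))
      (fun e => hyz (Subtype.ext e)) (fun e => hxz (Subtype.ext e))
    refine ⟨⟨a, hCA haC⟩, haC, ?_⟩
    ext s
    rw [P3_hom_apply]
    change a • (s : V) = _
    by_cases hsx : s = x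
    · rw [hsx, c1, e1]
    by_cases hsy : s = y
    · rw [hsy, c2, e2]
    by_cases hsz : s = z
    · rw [hsz, c3, e3]
    rw [hother s hsx hsy hsz]
    exact c4 s s.2 (fun e => hsx (Subtype.ext e)) (fun e => hsy (Subtype.ext e))
      (fun e => hsz (Subtype.ext e))
  set K : Subgroup (Perm S) := (B.subgroupOf A).map φ with hK
  have hAlt : alternatingGroup S ≤ φ.range := by
    rw [← closure_three_cycles_eq_alternating, Subgroup.closure_le]
    intro σ hσ
    obtain ⟨a, -, ha⟩ := hlift A le_rfl hb σ hσ
    exact ⟨a, ha⟩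
  set D : Subgroup (alternatingGroup S) := K.subgroupOf (alternatingGroup S) with hD
  have hDi : D.index ≤ Fintype.card S := by
    have h1 : D.index = K.relIndex (alternatingGroup S) := rfl
    have hne : K.relIndex φ.range ≠ 0 := Subgroup.FiniteIndex.index_ne_zero
    have h2 : K.relIndex (alternatingGroup S) ≤ K.relIndex φ.range :=
      Subgroup.relIndex_le_of_le_right hAlt hne
    have h3 : K.relIndex φ.range ≤ B.relIndex A := by
      have h4 : K.subgroupOf φ.range = (B.subgroupOf A).map φ.rangeRestrict := by
        ext ⟨σ, hσ⟩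
        rw [Subgroup.mem_subgroupOf, hK, Subgroup.mem_map, Subgroup.mem_map]
        constructor
        · rintro ⟨b, hb, e⟩
          exact ⟨b, hb, Subtype.ext e⟩
        · rintro ⟨b, hb, e⟩
          exact ⟨b, hb, congrArg Subtype.val e⟩
      have h5 : ((B.subgroupOf A).map φ.rangeRestrict).index ∣ (B.subgroupOf A).index :=
        Subgroup.index_map_dvd _ φ.rangeRestrict_surjective
      rw [← h4] at h5
      exact Nat.le_of_dvd (Nat.pos_of_ne_zero h0) h5
    omega
  have hDt : D ≠ ⊤ := by
    intro htop
    apply hnb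
    intro x hx y hy z hz hxy hyz hxz
    set x' : S := ⟨x, hx⟩
    set y' : S := ⟨y, hy⟩
    set z' : S := ⟨z, hz⟩
    have hxy' : x' ≠ y' := fun e => hxy (congrArg Subtype.val e)
    have hyz' : y' ≠ z' := fun e => hyz (congrArg Subtype.val e)
    have hxz' : x' ≠ z' := fun e => hxz (congrArg Subtype.val e)
    have h3 : (swap x' y' * swap y' z').IsThreeCycle := by
      have := isThreeCycle_swap_mul_swap_same (a := y') (b := x') (c := z') (Ne.symm hxy')
        hyz' hxz'
      rw [swap_comm x' y']
      exact this
    have hmem : (⟨_, h3.mem_alternatingGroup⟩ : alternatingGroup S) ∈ D := by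
      rw [htop]; trivial
    rw [hD, Subgroup.mem_subgroupOf, hK, Subgroup.mem_map] at hmem
    obtain ⟨b, hbB, hbe⟩ := hmem
    have hact : ∀ s : S, ((b : A) : G) • (s : V) = ((swap x' y' * swap y' z') s : S) := by
      intro s
      rw [← P3_hom_apply hA, ← hφ, hbe]
    refine ⟨b, hbB, ?_, ?_, ?_, ?_⟩
    · have := hact x'
      rw [Perm.mul_apply, swap_apply_of_ne_of_ne hxy' hxz', swap_apply_left] at this
      exact this
    · have := hact y'
      rw [Perm.mul_apply, swap_apply_left, swap_apply_of_ne_of_ne (Ne.symm hxz') (Ne.symm hyz')]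
        at this
      exact this
    · have := hact z'
      rw [Perm.mul_apply, swap_apply_right, swap_apply_right] at this
      exact this
    · intro s hs h1 h2 h3
      have := hact ⟨s, hs⟩
      have e1 : (⟨s, hs⟩ : S) ≠ x' := fun e => h1 (congrArg Subtype.val e)
      have e2 : (⟨s, hs⟩ : S) ≠ y' := fun e => h2 (congrArg Subtype.val e)
      have e3 : (⟨s, hs⟩ : S) ≠ z' := fun e => h3 (congrArg Subtype.val e)
      rw [Perm.mul_apply, swap_apply_of_ne_of_ne e2 e3, swap_apply_of_ne_of_ne e1 e2] at this
      exact this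
  obtain ⟨s, hs⟩ := P3_core (by omega) D hDi hDt
  have hKs : ∀ k ∈ K, k s = s := by
    intro k hk
    by_contra hne
    set u := k⁻¹ s with hu
    have hus : u ≠ s := by
      intro e
      apply hne
      have : k u = s := by rw [hu, ← Perm.mul_apply, mul_inv_cancel, Perm.one_apply]
      rw [e] at this
      exact this
    have hall : ∀ σ : alternatingGroup S, (σ : Perm S) s = s → (σ : Perm S) u = u := by
      intro σ hσ
      have h1 : σ ∈ D := (hs σ).2 hσ
      rw [hD, Subgroup.mem_subgroupOf] at h1
      have h2 : k * (σ : Perm S) * k⁻¹ ∈ K := K.mul_mem (K.mul_mem hk h1) (K.inv_mem hk)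
      have h3 : k * (σ : Perm S) * k⁻¹ ∈ alternatingGroup S := by
        rw [mem_alternatingGroup, map_mul, map_mul, mem_alternatingGroup.1 σ.2, mul_one,
          ← map_mul, mul_inv_cancel, map_one]
      have h4 : (⟨_, h3⟩ : alternatingGroup S) ∈ D := by
        rw [hD, Subgroup.mem_subgroupOf]
        exact h2
      have h5 := (hs _).1 h4
      simp only [Perm.mul_apply] at h5
      rw [← hu] at h5
      rw [hu, Perm.eq_inv_iff_eq]
      rw [← hu]
      exact h5
    obtain ⟨v, hv⟩ : ∃ v, v ∉ ({s, u} : Finset S) := by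
      by_contra hcon
      push Not at hcon
      have h1 : (Finset.univ : Finset S) ⊆ {s, u} := fun x _ => hcon x
      have h2 := Finset.card_le_card h1
      have h3 : ({s, u} : Finset S).card ≤ 2 := Finset.card_le_two
      rw [Finset.card_univ] at h2
      omega
    obtain ⟨w, hw⟩ : ∃ w, w ∉ ({s, u, v} : Finset S) := by
      by_contra hcon
      push Not at hcon
      have h1 : (Finset.univ : Finset S) ⊆ {s, u, v} := fun x _ => hcon x
      have h2 := Finset.card_le_card h1
      have h3 : ({s, u, v} : Finset S).card ≤ 3 := Finset.card_le_three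
      rw [Finset.card_univ] at h2
      omega
    simp only [Finset.mem_insert, Finset.mem_singleton, not_or] at hv hw
    have h3 : (swap v u * swap v w).IsThreeCycle :=
      isThreeCycle_swap_mul_swap_same hv.2 (Ne.symm hw.2.2) (Ne.symm hw.2.1)
    have h4 := hall ⟨_, h3.mem_alternatingGroup⟩ (by
      change (swap v u * swap v w) s = s
      rw [Perm.mul_apply, swap_apply_of_ne_of_ne (Ne.symm hv.1) (Ne.symm hw.1),
        swap_apply_of_ne_of_ne (Ne.symm hv.1) (Ne.symm hus)])
    have h5 : (swap v u * swap v w) u = u := h4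
    rw [Perm.mul_apply, swap_apply_of_ne_of_ne (Ne.symm hv.2) (Ne.symm hw.2.1),
      swap_apply_right] at h5
    exact hv.2 h5
  have hBs : B ≤ A ⊓ stabilizer G (s : V) := by
    intro b hbB
    refine ⟨hBA hbB, ?_⟩
    have h1 : φ ⟨b, hBA hbB⟩ ∈ K := by
      rw [hK]
      exact Subgroup.mem_map_of_mem _ (Subgroup.mem_subgroupOf.2 hbB)
    have h2 := hKs _ h1
    have h3 := congrArg Subtype.val h2
    rw [P3_hom_apply] at h3
    exact h3
  refine ⟨s, s.2, le_antisymm hBs ?_⟩
  set M := A ⊓ stabilizer G (s : V) with hM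
  have hMA : M ≤ A := inf_le_left
  have horb : orbit A (s : V) = S := by
    ext v
    constructor
    · rintro ⟨a, rfl⟩
      exact hA a a.2 s s.2
    · intro hv
      by_cases hvs : v = s
      · rw [hvs]; exact mem_orbit_self _
      · obtain ⟨c, hc⟩ : ∃ c, c ∉ ({s, ⟨v, hv⟩} : Finset S) := by
          by_contra hcon
          push Not at hcon
          have h1 : (Finset.univ : Finset S) ⊆ {s, ⟨v, hv⟩} := fun x _ => hcon x
          have h2 := Finset.card_le_card h1
          have h3 : ({s, ⟨v, hv⟩} : Finset S).card ≤ 2 := Finset.card_le_two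
          rw [Finset.card_univ] at h2
          omega
        simp only [Finset.mem_insert, Finset.mem_singleton, not_or] at hc
        obtain ⟨a, haA, c1, -, -, -⟩ := hb s s.2 v hv c c.2 (Ne.symm hvs)
          (fun e => hc.2 (Subtype.ext e.symm)) (fun e => hc.1 (Subtype.ext e.symm))
        exact ⟨⟨a, haA⟩, c1⟩
  have hMi : M.relIndex A = S.ncard := by
    have h1 : M.subgroupOf A = stabilizer A (s : V) := by
      ext a
      rw [Subgroup.mem_subgroupOf, hM, Subgroup.mem_inf, mem_stabilizer_iff, mem_stabilizer_iff]
      constructor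
      · rintro ⟨_, h⟩; exact h
      · intro h; exact ⟨a.2, h⟩
    change (M.subgroupOf A).index = _
    rw [h1, index_stabilizer, horb]
  have hmul := Subgroup.relIndex_mul_relIndex B M A hBs hMA
  rw [← Subgroup.relIndex_eq_one]
  have hBM : B.relIndex M ≠ 0 := by
    intro e
    rw [e, zero_mul] at hmul
    exact h0 hmul.symm
  rw [hMi] at hmul
  have h6 : B.relIndex M * S.ncard ≤ 1 * S.ncard := by omega
  have h7 := Nat.le_of_mul_le_mul_right h6 (by omega)
  omega

end transfer

end Pool.Agent.Lib_helper84.BT
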