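import Pool.Agent.Lib_helper54.NonInj

set_option autoImplicit false
set_option linter.unusedSectionVars false

open scoped InnerProductSpace ENNReal

namespace Pool.Agent.Lib_helper54

section L2

variable {X : Type}

/-- `ℓ²(X)`. -/
abbrev L2 (X : Type) : Type := lp (fun _ : X => ℂ) 2

theorem L2.hasSum_norm_sq (v : L2 X) : HasSum (fun i => ‖v i‖ ^ 2) (‖v‖ ^ 2) := by
  have h := lp.hasSum_norm (p := 2) (by norm_num) v
  simpa using h

theorem L2.ofReal_norm_sq (v : L2 X) :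
    ENNReal.ofReal (‖v‖ ^ 2) = ∑' i, ENNReal.ofReal (‖v i‖ ^ 2) := by
  rw [← (L2.hasSum_norm_sq v).tsum_eq,
    ENNReal.ofReal_tsum_of_nonneg (fun _ => by positivity) (L2.hasSum_norm_sq v).summable]

/-- Composition with the inverse of a permutation, as a function on `ℓ²(X)`. -/
noncomputable def permFun (σ : Equiv.Perm X) (v : L2 X) : L2 X :=
  ⟨fun p => v (σ.symm p), memℓp_gen (by
    have h : Summable fun i => ‖v (σ.symm i)‖ ^ 2 :=
      (L2.hasSum_norm_sq v).summable.comp_injective σ.symm.injective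
    simpa using h)⟩

theorem norm_permFun (σ : Equiv.Perm X) (v : L2 X) : ‖permFun σ v‖ = ‖v‖ := by
  have h1 := L2.hasSum_norm_sq (permFun σ v)
  have h2 : HasSum (fun i => ‖v (σ.symm i)‖ ^ 2) (‖v‖ ^ 2) :=
    (Equiv.hasSum_iff σ.symm).2 (L2.hasSum_norm_sq v)
  have h3 : ‖permFun σ v‖ ^ 2 = ‖v‖ ^ 2 := h1.unique h2
  exact (pow_left_inj₀ (norm_nonneg _) (norm_nonneg _) two_ne_zero).1 h3

/-- The permutation operator of `σ` on `ℓ²(X)`. -/
noncomputable def permOp (σ : Equiv.Perm X) : L2 X →L[ℂ] L2 X :=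
  LinearMap.mkContinuous
    { toFun := permFun σ
      map_add' := fun _ _ => rfl
      map_smul' := fun _ _ => rfl } 1
    (fun v => by rw [one_mul]; exact (norm_permFun σ v).le)

theorem permOp_apply (σ : Equiv.Perm X) (v : L2 X) (p : X) : permOp σ v p = v (σ.symm p) := rfl

theorem permOp_mul (σ τ : Equiv.Perm X) : permOp (σ * τ) = permOp σ * permOp τ := by
  ext v p
  rfl

theorem permOp_one : permOp (1 : Equiv.Perm X) = 1 := by
  ext v p
  rfl

theorem star_permOp (σ : Equiv.Perm X) : star (permOp σ) = permOp σ⁻¹ := by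
  rw [ContinuousLinearMap.star_eq_adjoint]
  symm
  rw [ContinuousLinearMap.eq_adjoint_iff]
  intro u v
  rw [lp.inner_eq_tsum, lp.inner_eq_tsum,
    ← Equiv.tsum_eq σ (fun p => ⟪u p, permOp σ v p⟫_ℂ)]
  refine tsum_congr fun p => ?_
  rw [permOp_apply, permOp_apply, Equiv.symm_apply_apply]
  rfl

/-- Multiplication by the indicator of a set, as a function. -/
noncomputable def indFun (S : Set X) (v : L2 X) : L2 X :=
  ⟨fun p => S.indicator (fun q => v q) p, memℓp_gen (by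
    have h : Summable fun i => ‖S.indicator (fun q => v q) i‖ ^ 2 :=
      Summable.of_nonneg_of_le (fun _ => by positivity)
        (fun i => by
          gcongr
          exact norm_indicator_le_norm_self _ _) (L2.hasSum_norm_sq v).summable
    simpa using h)⟩

theorem norm_indFun_le (S : Set X) (v : L2 X) : ‖indFun S v‖ ≤ ‖v‖ := by
  have h1 := L2.hasSum_norm_sq (indFun S v)
  have h3 : ‖indFun S v‖ ^ 2 ≤ ‖v‖ ^ 2 :=
    hasSum_le (fun i => by
      gcongr
      exact norm_indicator_le_norm_self _ _) h1 (L2.hasSum_norm_sq v)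
  exact (pow_le_pow_iff_left₀ (norm_nonneg _) (norm_nonneg _) two_ne_zero).1 h3

/-- Multiplication by the indicator of the set `S` on `ℓ²(X)`. -/
noncomputable def indOp (S : Set X) : L2 X →L[ℂ] L2 X :=
  LinearMap.mkContinuous
    { toFun := indFun S
      map_add' := fun u v => by
        ext p
        exact congrFun (Set.indicator_add S (fun q => u q) (fun q => v q)) p
      map_smul' := fun c v => by
        ext p
        exact congrFun (Set.indicator_const_smul S c (fun q => v q)) p } 1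
    (fun v => by rw [one_mul]; exact norm_indFun_le S v)

theorem indOp_apply (S : Set X) (v : L2 X) (p : X) :
    indOp S v p = S.indicator (fun q => v q) p := rfl

theorem indOp_apply_mem {S : Set X} {p : X} (hp : p ∈ S) (v : L2 X) : indOp S v p = v p := by
  rw [indOp_apply, Set.indicator_of_mem hp]

theorem indOp_apply_notMem {S : Set X} {p : X} (hp : p ∉ S) (v : L2 X) : indOp S v p = 0 := by
  rw [indOp_apply, Set.indicator_of_notMem hp]

theorem star_indOp (S : Set X) : star (indOp S) = indOp S := by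
  rw [ContinuousLinearMap.star_eq_adjoint]
  symm
  rw [ContinuousLinearMap.eq_adjoint_iff]
  intro u v
  rw [lp.inner_eq_tsum, lp.inner_eq_tsum]
  refine tsum_congr fun p => ?_
  by_cases hp : p ∈ S
  · rw [indOp_apply_mem hp, indOp_apply_mem hp]
  · rw [indOp_apply_notMem hp, indOp_apply_notMem hp]; simp

/-- The standard Hilbert basis of `ℓ²(X)`. -/
noncomputable def stdB (X : Type) : HilbertBasis X ℂ (L2 X) :=
  HilbertBasis.ofRepr (LinearIsometryEquiv.refl ℂ _)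

theorem inner_stdB (p : X) (v : L2 X) : ⟪stdB X p, v⟫_ℂ = v p := by
  rw [← HilbertBasis.repr_apply_apply]
  rfl

theorem stdB_apply [DecidableEq X] (p q : X) : (stdB X p : L2 X) q = if q = p then 1 else 0 := by
  rw [← inner_stdB q, orthonormal_iff_ite.1 (stdB X).orthonormal]

theorem ext_coord {u v : L2 X} (h : ∀ p, u p = v p) : u = v := by
  ext p
  exact h p

theorem permOp_stdB (σ : Equiv.Perm X) (p : X) : permOp σ (stdB X p) = stdB X (σ p) := by
  classical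
  refine ext_coord fun q => ?_
  rw [permOp_apply, stdB_apply, stdB_apply]
  simp [Equiv.symm_apply_eq]

theorem indOp_stdB_mem {S : Set X} {p : X} (hp : p ∈ S) : indOp S (stdB X p) = stdB X p := by
  classical
  refine ext_coord fun q => ?_
  by_cases hq : q ∈ S
  · rw [indOp_apply_mem hq]
  · rw [indOp_apply_notMem hq, stdB_apply, if_neg]
    rintro rfl
    exact hq hp

theorem indOp_stdB_notMem {S : Set X} {p : X} (hp : p ∉ S) : indOp S (stdB X p) = 0 := by
  classical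
  refine ext_coord fun q => ?_
  by_cases hq : q ∈ S
  · rw [indOp_apply_mem hq, stdB_apply, if_neg]
    · rfl
    · rintro rfl
      exact hp hq
  · rw [indOp_apply_notMem hq]
    rfl

/-- Disjointness of translates gives square-function bounds. -/
theorem sum_norm_indOp_permOp_le {n : ℕ} (S : Set X) (σ : Fin n → Equiv.Perm X)
    (hdisj : ∀ k l p q, p ∈ S → q ∈ S → σ k p = σ l q → k = l) (v : L2 X) :
    ∑ k, ‖indOp S (permOp (σ k)⁻¹ v)‖ ^ 2 ≤ ‖v‖ ^ 2 := by
  have key : ENNReal.ofReal (∑ k, ‖indOp S (permOp (σ k)⁻¹ v)‖ ^ 2)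
      ≤ ENNReal.ofReal (‖v‖ ^ 2) := by
    rw [ENNReal.ofReal_sum_of_nonneg (fun _ _ => by positivity)]
    simp_rw [L2.ofReal_norm_sq]
    have h1 : ∀ k, ∑' i, ENNReal.ofReal (‖indOp S (permOp (σ k)⁻¹ v) i‖ ^ 2)
        = ∑' i : S, ENNReal.ofReal (‖v (σ k i)‖ ^ 2) := by
      intro k
      rw [← tsum_subtype_eq_of_support_subset (s := S)]
      · refine tsum_congr fun i => ?_
        rw [indOp_apply_mem i.2, permOp_apply]
        rfl
      · intro i hi
        by_contra hiS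
        apply hi
        change ENNReal.ofReal (‖indOp S (permOp (σ k)⁻¹ v) i‖ ^ 2) = 0
        rw [indOp_apply_notMem hiS]
        simp
    simp_rw [h1]
    rw [← tsum_fintype (L := SummationFilter.unconditional _)]
    rw [← ENNReal.tsum_prod (f := fun k (i : S) => ENNReal.ofReal (‖v (σ k i)‖ ^ 2))]
    refine ENNReal.tsum_comp_le_tsum_of_injective (f := fun x : Fin n × S => σ x.1 x.2)
      ?_ (fun q => ENNReal.ofReal (‖v q‖ ^ 2))
    rintro ⟨k, p, hp⟩ ⟨l, q, hq⟩ h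
    have hkl := hdisj k l p q hp hq h
    subst hkl
    have := (σ k).injective h
    simp only at this
    subst this
    rfl
  rwa [ENNReal.ofReal_le_ofReal_iff (by positivity)] at key

end L2

/-! ### The von Neumann algebra `B(ℓ²(ℕ)) ⊕ R(Γ)` on `ℓ²(Γ ⊕ ℕ)` -/

section VNA

variable (Γ : Type) [Group Γ]

/-- Left translation by `g` on the `Γ`-part of `Γ ⊕ ℕ`. -/
def lmul (g : Γ) : Equiv.Perm (Γ ⊕ ℕ) := Equiv.sumCongr (Equiv.mulLeft g) (Equiv.refl ℕ)

/-- Right translation by `g` on the `Γ`-part of `Γ ⊕ ℕ`. -/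
def rmul (g : Γ) : Equiv.Perm (Γ ⊕ ℕ) := Equiv.sumCongr (Equiv.mulRight g) (Equiv.refl ℕ)

/-- The generators of the commutant: left translations and the projection onto `ℓ²(ℕ)`. -/
def gens : Set (L2 (Γ ⊕ ℕ) →L[ℂ] L2 (Γ ⊕ ℕ)) :=
  Set.range (fun g : Γ => permOp (lmul Γ g)) ∪ {indOp (Set.range Sum.inr)}

/-- The von Neumann algebra of all operators on `ℓ²(Γ ⊕ ℕ)` that commute with the left
translations of `Γ` and with the projection onto `ℓ²(ℕ)`. -/
noncomputable def exVN : VonNeumannAlgebra (L2 (Γ ⊕ ℕ)) where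
  toStarSubalgebra := StarSubalgebra.centralizer ℂ (gens Γ)
  centralizer_centralizer' := by simp

theorem mem_exVN_iff {a : L2 (Γ ⊕ ℕ) →L[ℂ] L2 (Γ ⊕ ℕ)} :
    a ∈ (exVN Γ).toStarSubalgebra ↔
      (∀ g, permOp (lmul Γ g) * a = a * permOp (lmul Γ g)) ∧
        indOp (Set.range Sum.inr) * a = a * indOp (Set.range Sum.inr) := by
  change a ∈ StarSubalgebra.centralizer ℂ (gens Γ) ↔ _
  rw [StarSubalgebra.mem_centralizer_iff]
  constructor
  · intro h
    exact ⟨fun g => (h _ (Or.inl ⟨g, rfl⟩)).1, (h _ (Or.inr rfl)).1⟩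
  · rintro ⟨h1, h2⟩ _ (⟨g, rfl⟩ | h)
    · refine ⟨h1 g, ?_⟩
      simp only [star_permOp]
      have e : (lmul Γ g)⁻¹ = lmul Γ g⁻¹ := by
        ext p
        cases p <;> rfl
      rw [e]
      exact h1 g⁻¹
    · rw [Set.mem_singleton_iff] at h
      subst h
      rw [star_indOp]
      exact ⟨h2, h2⟩

theorem lmul_rmul (g h : Γ) : lmul Γ g * rmul Γ h = rmul Γ h * lmul Γ g := by
  ext p
  cases p with
  | inl x => simp [lmul, rmul, mul_assoc]
  | inr n => rfl

theorem indOp_permOp {X : Type} (S : Set X) (σ : Equiv.Perm X) (hσ : ∀ p, σ.symm p ∈ S ↔ p ∈ S) :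
    indOp S * permOp σ = permOp σ * indOp S := by
  ext1 v
  refine ext_coord fun p => ?_
  change indOp S (permOp σ v) p = permOp σ (indOp S v) p
  rw [permOp_apply]
  by_cases hp : p ∈ S
  · rw [indOp_apply_mem hp, indOp_apply_mem ((hσ p).2 hp), permOp_apply]
  · rw [indOp_apply_notMem hp, indOp_apply_notMem (fun h => hp ((hσ p).1 h))]

/-- Right translations belong to the algebra. -/
noncomputable def rElt (g : Γ) : Elt (exVN Γ) :=
  ⟨permOp (rmul Γ g), (mem_exVN_iff Γ).2 ⟨fun h => by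
    rw [← permOp_mul, ← permOp_mul, lmul_rmul],
    indOp_permOp _ _ fun p => by cases p <;> simp [rmul]⟩⟩

theorem star_rElt_mul (g : Γ) : star (rElt Γ g) * rElt Γ g = 1 := by
  refine Subtype.ext ?_
  change star (permOp (rmul Γ g)) * permOp (rmul Γ g) = 1
  rw [star_permOp, ← permOp_mul, inv_mul_cancel, permOp_one]

/-- The rank one operator `v ↦ ⟪δ_p, v⟫ δ_q`. -/
noncomputable def rankOp {X : Type} (p q : X) : L2 X →L[ℂ] L2 X :=
  ContinuousLinearMap.smulRight (innerSL ℂ (stdB X p)) (stdB X q)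

theorem rankOp_apply {X : Type} (p q : X) (v : L2 X) : rankOp p q v = v p • stdB X q := by
  change ⟪stdB X p, v⟫_ℂ • stdB X q = _
  rw [inner_stdB]

/-- Rank one operators on `ℓ²(ℕ)` belong to the algebra. -/
noncomputable def xElt (k : ℕ) : Elt (exVN Γ) :=
  ⟨rankOp (Sum.inr 0) (Sum.inr k), (mem_exVN_iff Γ).2 ⟨fun h => by
    ext1 v
    change permOp (lmul Γ h) (rankOp _ _ v) = rankOp _ _ (permOp (lmul Γ h) v)
    rw [rankOp_apply, rankOp_apply, map_smul, permOp_stdB, permOp_apply]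
    rfl, by
    ext1 v
    change indOp _ (rankOp _ _ v) = rankOp _ _ (indOp _ v)
    rw [rankOp_apply, rankOp_apply, map_smul, indOp_stdB_mem (S := Set.range Sum.inr)
      (p := Sum.inr k) ⟨k, rfl⟩, indOp_apply_mem (S := Set.range Sum.inr)
      (p := Sum.inr 0) ⟨0, rfl⟩]⟩⟩

theorem xElt_self (k : ℕ) :
    (xElt Γ k : L2 (Γ ⊕ ℕ) →L[ℂ] L2 (Γ ⊕ ℕ)) (stdB _ (Sum.inr 0)) = stdB _ (Sum.inr k) := by
  classical
  change rankOp _ _ _ = _
  rw [rankOp_apply, stdB_apply]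
  simp

theorem xElt_ne (k : ℕ) (p : Γ ⊕ ℕ) (hp : p ≠ Sum.inr 0) :
    (xElt Γ k : L2 (Γ ⊕ ℕ) →L[ℂ] L2 (Γ ⊕ ℕ)) (stdB _ p) = 0 := by
  classical
  change rankOp _ _ _ = _
  rw [rankOp_apply, stdB_apply, if_neg (Ne.symm hp), zero_smul]

/-- The trace vector. -/
noncomputable def tr : L2 (Γ ⊕ ℕ) := stdB _ (Sum.inl 1)

theorem inr_coord {a : L2 (Γ ⊕ ℕ) →L[ℂ] L2 (Γ ⊕ ℕ)} (ha : a ∈ (exVN Γ).toStarSubalgebra) (n : ℕ) :
    (a (tr Γ)) (Sum.inr n) = 0 := by
  have h := ((mem_exVN_iff Γ).1 ha).2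
  have h1 : indOp (Set.range Sum.inr) (a (tr Γ)) = a (indOp (Set.range Sum.inr) (tr Γ)) :=
    congrArg (fun T : L2 (Γ ⊕ ℕ) →L[ℂ] L2 (Γ ⊕ ℕ) => T (tr Γ)) h
  have h2 : indOp (Set.range (Sum.inr : ℕ → Γ ⊕ ℕ)) (tr Γ) = 0 :=
    indOp_stdB_notMem (by simp)
  rw [h2, map_zero] at h1
  rw [← indOp_apply_mem (S := Set.range (Sum.inr : ℕ → Γ ⊕ ℕ)) ⟨n, rfl⟩, h1]
  rfl

theorem star_coord {a : L2 (Γ ⊕ ℕ) →L[ℂ] L2 (Γ ⊕ ℕ)} (ha : a ∈ (exVN Γ).toStarSubalgebra)
    (g : Γ) : ‖(star a (tr Γ)) (Sum.inl g)‖ = ‖(a (tr Γ)) (Sum.inl g⁻¹)‖ := by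
  have h := ((mem_exVN_iff Γ).1 ha).1 g
  have h1 : stdB _ (Sum.inl g) = permOp (lmul Γ g) (tr Γ) := by
    rw [tr, permOp_stdB]; simp [lmul]
  have h2 : stdB _ (Sum.inl g⁻¹) = star (permOp (lmul Γ g)) (tr Γ) := by
    have e : (lmul Γ g)⁻¹ = lmul Γ g⁻¹ := by
      ext p
      cases p <;> rfl
    rw [star_permOp, e, tr, permOp_stdB]; simp [lmul]
  rw [← inner_stdB, ← inner_stdB, ContinuousLinearMap.star_eq_adjoint,
    ContinuousLinearMap.adjoint_inner_right, h1, h2, ContinuousLinearMap.star_eq_adjoint,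
    ContinuousLinearMap.adjoint_inner_left, norm_inner_symm]
  have h3 : permOp (lmul Γ g) (a (tr Γ)) = a (permOp (lmul Γ g) (tr Γ)) :=
    congrArg (fun T : L2 (Γ ⊕ ℕ) →L[ℂ] L2 (Γ ⊕ ℕ) => T (tr Γ)) h
  rw [h3]

theorem trace_le {a : L2 (Γ ⊕ ℕ) →L[ℂ] L2 (Γ ⊕ ℕ)} (ha : a ∈ (exVN Γ).toStarSubalgebra) :
    ‖star a (tr Γ)‖ ≤ ‖a (tr Γ)‖ := by
  set τ : Equiv.Perm (Γ ⊕ ℕ) := Equiv.sumCongr (Equiv.inv Γ) (Equiv.refl ℕ) with hτ
  have h1 := L2.hasSum_norm_sq (star a (tr Γ))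
  have h2 : HasSum (fun p => ‖(a (tr Γ)) (τ p)‖ ^ 2) (‖a (tr Γ)‖ ^ 2) :=
    (Equiv.hasSum_iff τ).2 (L2.hasSum_norm_sq (a (tr Γ)))
  have h3 : ‖star a (tr Γ)‖ ^ 2 ≤ ‖a (tr Γ)‖ ^ 2 := by
    refine hasSum_le (fun p => ?_) h1 h2
    cases p with
    | inl g =>
      rw [star_coord Γ ha g]
      rfl
    | inr n =>
      rw [inr_coord Γ (star_mem ha) n]
      simp
  exact (pow_le_pow_iff_left₀ (norm_nonneg _) (norm_nonneg _) two_ne_zero).1 h3

/-- A paradoxical decomposition of `Γ` gives an obstruction. -/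
noncomputable def obstruction (S : Bool → Set Γ) (hS : ∀ g, g ∈ S true ↔ g ∉ S false)
    (u : Bool → ℕ → Γ)
    (hu : ∀ ε k l g h, g ∈ S ε → h ∈ S ε → u ε k * g = u ε l * h → k = l) :
    Obstruction (stdB (Γ ⊕ ℕ)) (exVN Γ) where
  i₀ := Sum.inr 0
  η := tr Γ
  norm_η := (stdB (Γ ⊕ ℕ)).orthonormal.1 _
  trace := fun y => trace_le Γ y.2
  idx := Sum.inr
  idx_inj := Sum.inr_injective
  x := xElt Γ
  x_self := xElt_self Γ
  x_ne := xElt_ne Γ
  M := fun ε => indOp (Sum.inl '' S ε)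
  M_sum := fun a => by
    refine ext_coord fun p => ?_
    change indOp (Sum.inl '' S true) _ p + indOp (Sum.inl '' S false) _ p = _
    cases p with
    | inl g =>
      by_cases hg : g ∈ S true
      · have hg' : g ∉ S false := (hS g).1 hg
        rw [indOp_apply_mem (S := Sum.inl '' S true) (p := Sum.inl g) ⟨g, hg, rfl⟩,
          indOp_apply_notMem (by simpa using hg'), add_zero]
      · have hg' : g ∈ S false := by
          by_contra h
          exact hg ((hS g).2 h)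
        rw [indOp_apply_notMem (by simpa using hg),
          indOp_apply_mem (S := Sum.inl '' S false) (p := Sum.inl g) ⟨g, hg', rfl⟩, zero_add]
    | inr n =>
      rw [indOp_apply_notMem (by simp), indOp_apply_notMem (by simp), add_zero]
      exact (inr_coord Γ a.2 n).symm
  y := fun ε k => rElt Γ (u ε k)
  y_isom := fun ε k => star_rElt_mul Γ _
  R := fun ε k => permOp (lmul Γ (u ε k))⁻¹
  R_y := fun ε k a => by
    have h1 : (rElt Γ (u ε k) : L2 (Γ ⊕ ℕ) →L[ℂ] L2 (Γ ⊕ ℕ)) (tr Γ)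
        = permOp (lmul Γ (u ε k)) (tr Γ) := by
      change permOp (rmul Γ (u ε k)) (tr Γ) = _
      rw [tr, permOp_stdB, permOp_stdB]
      simp [lmul, rmul]
    have h2 : (a : L2 (Γ ⊕ ℕ) →L[ℂ] L2 (Γ ⊕ ℕ)) (permOp (lmul Γ (u ε k)) (tr Γ))
        = permOp (lmul Γ (u ε k)) ((a : L2 (Γ ⊕ ℕ) →L[ℂ] L2 (Γ ⊕ ℕ)) (tr Γ)) :=
      (congrArg (fun T : L2 (Γ ⊕ ℕ) →L[ℂ] L2 (Γ ⊕ ℕ) => T (tr Γ))
        (((mem_exVN_iff Γ).1 a.2).1 (u ε k))).symm
    rw [h1, h2]
    change (permOp (lmul Γ (u ε k))⁻¹ * permOp (lmul Γ (u ε k))) _ = _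
    rw [← permOp_mul, inv_mul_cancel, permOp_one]
    rfl
  disj := fun ε n v => sum_norm_indOp_permOp_le (Sum.inl '' S ε) (fun k : Fin n => lmul Γ (u ε k))
    (by
      rintro k l _ _ ⟨g, hg, rfl⟩ ⟨h, hh, rfl⟩ he
      refine Fin.ext (hu ε k l g h hg hh ?_)
      simpa [lmul] using he) v

end VNA

/-! ### The group `SL(2, ℤ)` -/

section SL2

open Matrix MatrixGroups

/-- upper triangular elements -/
def up (k : ℤ) : SL(2, ℤ) := ⟨!![1, 2 * k; 0, 1], by simp [Matrix.det_fin_two]⟩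

/-- lower triangular elements -/
def lo (k : ℤ) : SL(2, ℤ) := ⟨!![1, 0; 3 * k, 1], by simp [Matrix.det_fin_two]⟩

/-- The two halves of `SL(2, ℤ)`. -/
def half : Bool → Set SL(2, ℤ)
  | true => {g | |g 0 0| < |g 1 0|}
  | false => {g | |g 1 0| ≤ |g 0 0|}

/-- The translating elements. -/
def trans : Bool → ℕ → SL(2, ℤ)
  | true => fun k => up k
  | false => fun k => lo k

theorem half_compl (g : SL(2, ℤ)) : g ∈ half true ↔ g ∉ half false := by
  simp [half]

theorem up_mul_zero (k : ℤ) (g : SL(2, ℤ)) : (up k * g) 0 0 = g 0 0 + 2 * k * g 1 0 := by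
  rw [Matrix.SpecialLinearGroup.coe_mul, Matrix.mul_apply, Fin.sum_univ_two]
  simp [up]

theorem up_mul_one (k : ℤ) (g : SL(2, ℤ)) : (up k * g) 1 0 = g 1 0 := by
  rw [Matrix.SpecialLinearGroup.coe_mul, Matrix.mul_apply, Fin.sum_univ_two]
  simp [up]

theorem lo_mul_zero (k : ℤ) (g : SL(2, ℤ)) : (lo k * g) 0 0 = g 0 0 := by
  rw [Matrix.SpecialLinearGroup.coe_mul, Matrix.mul_apply, Fin.sum_univ_two]
  simp [lo]

theorem lo_mul_one (k : ℤ) (g : SL(2, ℤ)) : (lo k * g) 1 0 = 3 * k * g 0 0 + g 1 0 := by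
  rw [Matrix.SpecialLinearGroup.coe_mul, Matrix.mul_apply, Fin.sum_univ_two]
  simp [lo]

theorem trans_disj (ε : Bool) (k l : ℕ) (g h : SL(2, ℤ)) (hg : g ∈ half ε) (hh : h ∈ half ε)
    (he : trans ε k * g = trans ε l * h) : k = l := by
  cases ε with
  | true =>
    have e0 := congrArg (fun m : SL(2, ℤ) => m 0 0) he
    have e1 := congrArg (fun m : SL(2, ℤ) => m 1 0) he
    simp only [trans, up_mul_zero, up_mul_one] at e0 e1
    change |g 0 0| < |g 1 0| at hg
    change |h 0 0| < |h 1 0| at hh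
    rw [← e1] at hh e0
    by_contra hkl
    have h1 : (1 : ℤ) ≤ |(l : ℤ) - k| := Int.one_le_abs (by omega)
    have h2 : g 0 0 - h 0 0 = 2 * ((l : ℤ) - k) * g 1 0 := by linarith
    have h3 : |g 0 0 - h 0 0| = 2 * |(l : ℤ) - k| * |g 1 0| := by
      rw [h2, abs_mul, abs_mul]; simp
    have h4 : |g 0 0 - h 0 0| ≤ |g 0 0| + |h 0 0| := abs_sub _ _
    nlinarith [abs_nonneg (g 1 0)]
  | false =>
    have e0 := congrArg (fun m : SL(2, ℤ) => m 0 0) he
    have e1 := congrArg (fun m : SL(2, ℤ) => m 1 0) he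
    simp only [trans, lo_mul_zero, lo_mul_one] at e0 e1
    change |g 1 0| ≤ |g 0 0| at hg
    change |h 1 0| ≤ |h 0 0| at hh
    rw [← e0] at hh e1
    by_contra hkl
    have h1 : (1 : ℤ) ≤ |(l : ℤ) - k| := Int.one_le_abs (by omega)
    have h2 : g 1 0 - h 1 0 = 3 * ((l : ℤ) - k) * g 0 0 := by linarith
    have h3 : |g 1 0 - h 1 0| = 3 * |(l : ℤ) - k| * |g 0 0| := by
      rw [h2, abs_mul, abs_mul]; simp
    have h4 : |g 1 0 - h 1 0| ≤ |g 1 0| + |h 1 0| := abs_sub _ _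
    have h5 : |g 0 0| ≤ 0 := by nlinarith [abs_nonneg (g 0 0)]
    have h6 : g 0 0 = 0 := abs_nonpos_iff.1 h5
    have h7 : g 1 0 = 0 := abs_nonpos_iff.1 (hg.trans h5)
    have h8 := g.2
    rw [Matrix.det_fin_two] at h8
    change g 0 0 * g 1 1 - g 0 1 * g 1 0 = 1 at h8
    rw [h6, h7] at h8
    simp at h8

end SL2

end Pool.Agent.Lib_helper54
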