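import Pool.Agent.Lib_helper54.HaagerupDual

set_option autoImplicit false
set_option linter.unusedSectionVars false

/-!
Hilbert-Schmidt operators on a Hilbert space with a Hilbert basis, realised as the Hilbert
space of square-summable families, as a Banach bimodule over a von Neumann algebra.
-/

open scoped InnerProductSpace ENNReal

namespace Pool.Agent.Lib_helper54

variable {H : Type} [NormedAddCommGroup H] [InnerProductSpace ℂ H] [CompleteSpace H]
variable {ι : Type} (b : HilbertBasis ι ℂ H)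

theorem hasSum_parseval (x : H) : HasSum (fun i => ‖⟪b i, x⟫_ℂ‖ ^ 2) (‖x‖ ^ 2) := by
  have h := b.hasSum_inner_mul_inner x x
  have h2 := Complex.hasSum_re h
  have e : (⟪x, x⟫_ℂ).re = ‖x‖ ^ 2 := by
    rw [inner_self_eq_norm_sq_to_K]
    norm_cast
  rw [e] at h2
  refine h2.congr_fun ?_ |> fun h => h
  intro i
  rw [← inner_conj_symm x (b i), ← Complex.normSq_eq_conj_mul_self, Complex.ofReal_re,
    Complex.normSq_eq_norm_sq]

theorem parseval (x : H) :
    ENNReal.ofReal (‖x‖ ^ 2) = ∑' i, ENNReal.ofReal (‖⟪b i, x⟫_ℂ‖ ^ 2) := by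
  rw [← (hasSum_parseval b x).tsum_eq,
    ENNReal.ofReal_tsum_of_nonneg (fun _ => by positivity) (hasSum_parseval b x).summable]

/-- The squared Hilbert-Schmidt norm. -/
noncomputable def hs (T : H →L[ℂ] H) : ℝ≥0∞ := ∑' i, ENNReal.ofReal (‖T (b i)‖ ^ 2)

theorem hs_adjoint (T : H →L[ℂ] H) : hs b (ContinuousLinearMap.adjoint T) = hs b T := by
  unfold hs
  simp_rw [parseval b]
  rw [ENNReal.tsum_comm]
  refine tsum_congr fun i => tsum_congr fun j => ?_
  rw [ContinuousLinearMap.adjoint_inner_right, norm_inner_symm]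

theorem hs_comp_left (a T : H →L[ℂ] H) :
    hs b (a ∘L T) ≤ ENNReal.ofReal (‖a‖ ^ 2) * hs b T := by
  unfold hs
  rw [← ENNReal.tsum_mul_left]
  refine ENNReal.tsum_le_tsum fun i => ?_
  rw [← ENNReal.ofReal_mul (by positivity), ← mul_pow]
  refine ENNReal.ofReal_le_ofReal ?_
  gcongr
  exact a.le_opNorm _

theorem hs_comp_right (T c : H →L[ℂ] H) :
    hs b (T ∘L c) ≤ ENNReal.ofReal (‖c‖ ^ 2) * hs b T := by
  rw [← hs_adjoint b (T ∘L c), ContinuousLinearMap.adjoint_comp]
  refine (hs_comp_left b _ _).trans ?_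
  rw [hs_adjoint, LinearIsometryEquiv.norm_map]

/-- The Hilbert space of Hilbert-Schmidt operators, as square-summable families of vectors. -/
abbrev HSp (ι H : Type) [NormedAddCommGroup H] : Type := lp (fun _ : ι => H) 2

theorem HSp.hasSum_norm_sq (w : HSp ι H) : HasSum (fun i => ‖w i‖ ^ 2) (‖w‖ ^ 2) := by
  have h := lp.hasSum_norm (p := 2) (by norm_num) w
  simpa using h

theorem HSp.ofReal_norm_sq (w : HSp ι H) :
    ENNReal.ofReal (‖w‖ ^ 2) = ∑' i, ENNReal.ofReal (‖w i‖ ^ 2) := by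
  rw [← (HSp.hasSum_norm_sq w).tsum_eq,
    ENNReal.ofReal_tsum_of_nonneg (fun _ => by positivity) (HSp.hasSum_norm_sq w).summable]

theorem memℓp_of_summable {f : ι → H} (hf : Summable fun i => ‖f i‖ ^ 2) : Memℓp f 2 := by
  refine memℓp_gen ?_
  simpa using hf

theorem memℓp_of_tsum_ne_top {f : ι → H} (hf : ∑' i, ENNReal.ofReal (‖f i‖ ^ 2) ≠ ⊤) :
    Memℓp f 2 := by
  refine memℓp_of_summable ?_
  have h := ENNReal.summable_toReal hf
  refine h.congr fun i => ?_
  rw [ENNReal.toReal_ofReal (by positivity)]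

/-- Continuous linear maps agreeing on a Hilbert basis are equal. -/
theorem ext_basis {S T : H →L[ℂ] H} (h : ∀ i, S (b i) = T (b i)) : S = T := by
  ext x
  have h1 := (b.hasSum_repr x).mapL S
  have h2 := (b.hasSum_repr x).mapL T
  simp only [map_smul, h] at h1 h2
  exact h1.unique h2

theorem inner_sq_le (w : HSp ι H) (v : H) (i : ι) :
    ‖⟪w i, v⟫_ℂ‖ ^ 2 ≤ ‖w i‖ ^ 2 * ‖v‖ ^ 2 := by
  rw [← mul_pow]
  gcongr
  exact norm_inner_le_norm _ _

theorem summable_inner_sq (w : HSp ι H) (v : H) : Summable fun i => ‖⟪w i, v⟫_ℂ‖ ^ 2 :=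
  Summable.of_nonneg_of_le (fun _ => by positivity) (inner_sq_le w v)
    ((HSp.hasSum_norm_sq w).summable.mul_right (‖v‖ ^ 2))

/-- The square-summable family `(⟪w i, v⟫)ᵢ`. -/
noncomputable def coeffs (w : HSp ι H) (v : H) : lp (fun _ : ι => ℂ) 2 :=
  ⟨fun i => ⟪w i, v⟫_ℂ, memℓp_gen (by simpa using summable_inner_sq w v)⟩

theorem norm_coeffs_le (w : HSp ι H) (v : H) : ‖coeffs w v‖ ≤ ‖w‖ * ‖v‖ := by
  have h := lp.hasSum_norm (p := 2) (by norm_num) (coeffs w v)
  have h' : HasSum (fun i => ‖coeffs w v i‖ ^ 2) (‖coeffs w v‖ ^ 2) := by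
    simpa using h
  have h'' : HasSum (fun i => ‖⟪w i, v⟫_ℂ‖ ^ 2) (‖coeffs w v‖ ^ 2) := h'
  have h1 : ‖coeffs w v‖ ^ 2 ≤ (‖w‖ * ‖v‖) ^ 2 := by
    rw [mul_pow]
    exact hasSum_le (inner_sq_le w v) h'' ((HSp.hasSum_norm_sq w).mul_right (‖v‖ ^ 2))
  exact (pow_le_pow_iff_left₀ (norm_nonneg _) (by positivity) two_ne_zero).1 h1

/-- `v ↦ (⟪w i, v⟫)ᵢ`. -/
noncomputable def coeffMap (w : HSp ι H) : H →L[ℂ] lp (fun _ : ι => ℂ) 2 :=
  LinearMap.mkContinuous
    { toFun := coeffs w
      map_add' := fun v v' => by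
        ext i
        exact inner_add_right _ _ _
      map_smul' := fun c v => by
        ext i
        exact inner_smul_right _ _ _ }
    ‖w‖ (norm_coeffs_le w)

theorem coeffMap_apply (w : HSp ι H) (v : H) (i : ι) : coeffMap w v i = ⟪w i, v⟫_ℂ := rfl

/-- The Hilbert-Schmidt operator with `b i ↦ w i`. -/
noncomputable def op (w : HSp ι H) : H →L[ℂ] H :=
  (ContinuousLinearMap.adjoint (coeffMap w)) ∘L (b.repr : H →L[ℂ] lp (fun _ : ι => ℂ) 2)

theorem op_basis (w : HSp ι H) (i : ι) : op b w (b i) = w i := by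
  classical
  refine ext_inner_right ℂ fun v => ?_
  change ⟪ContinuousLinearMap.adjoint (coeffMap w) (b.repr (b i)), v⟫_ℂ = _
  rw [ContinuousLinearMap.adjoint_inner_left, HilbertBasis.repr_self, lp.inner_single_left,
    coeffMap_apply]
  simp

theorem op_add (w w' : HSp ι H) : op b (w + w') = op b w + op b w' :=
  ext_basis b fun i => by simp [op_basis]

theorem op_smul (c : ℂ) (w : HSp ι H) : op b (c • w) = c • op b w :=
  ext_basis b fun i => by simp [op_basis]

theorem hs_op (w : HSp ι H) : hs b (op b w) = ENNReal.ofReal (‖w‖ ^ 2) := by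
  rw [HSp.ofReal_norm_sq]
  simp [hs, op_basis]

/-- The family `(T (b i))ᵢ` of a Hilbert-Schmidt operator. -/
noncomputable def ofOp (T : H →L[ℂ] H) (hT : hs b T ≠ ⊤) : HSp ι H :=
  ⟨fun i => T (b i), memℓp_of_tsum_ne_top hT⟩

theorem ofOp_apply (T : H →L[ℂ] H) (hT : hs b T ≠ ⊤) (i : ι) : ofOp b T hT i = T (b i) := rfl

theorem op_ofOp (T : H →L[ℂ] H) (hT : hs b T ≠ ⊤) : op b (ofOp b T hT) = T :=
  ext_basis b fun i => by rw [op_basis, ofOp_apply]

theorem norm_ofOp_le (T : H →L[ℂ] H) (hT : hs b T ≠ ⊤) {c : ℝ} (hc : 0 ≤ c)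
    (h : hs b T ≤ ENNReal.ofReal (c ^ 2)) : ‖ofOp b T hT‖ ≤ c := by
  have h1 : ENNReal.ofReal (‖ofOp b T hT‖ ^ 2) ≤ ENNReal.ofReal (c ^ 2) := by
    rw [← hs_op b, op_ofOp]; exact h
  rw [ENNReal.ofReal_le_ofReal_iff (by positivity)] at h1
  exact (pow_le_pow_iff_left₀ (norm_nonneg _) hc two_ne_zero).1 h1

theorem hs_mul_op_le (a : H →L[ℂ] H) (w : HSp ι H) (c : H →L[ℂ] H) :
    hs b (a ∘L op b w ∘L c) ≤ ENNReal.ofReal ((‖a‖ * ‖w‖ * ‖c‖) ^ 2) := by
  refine (hs_comp_left b _ _).trans ?_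
  refine (mul_le_mul_right (hs_comp_right b _ _) _).trans ?_
  rw [hs_op, ← ENNReal.ofReal_mul (by positivity), ← ENNReal.ofReal_mul (by positivity)]
  refine ENNReal.ofReal_le_ofReal (le_of_eq (by ring))

theorem hs_mul_op_ne_top (a : H →L[ℂ] H) (w : HSp ι H) (c : H →L[ℂ] H) :
    hs b (a ∘L op b w ∘L c) ≠ ⊤ :=
  ne_top_of_le_ne_top ENNReal.ofReal_ne_top (hs_mul_op_le b a w c)

/-- `a · w · c`: the family of the operator `a ∘ w ∘ c`. -/
noncomputable def act (a : H →L[ℂ] H) (w : HSp ι H) (c : H →L[ℂ] H) : HSp ι H :=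
  ofOp b (a ∘L op b w ∘L c) (hs_mul_op_ne_top b a w c)

theorem op_act (a : H →L[ℂ] H) (w : HSp ι H) (c : H →L[ℂ] H) :
    op b (act b a w c) = a ∘L op b w ∘L c := op_ofOp b _ _

theorem norm_act_le (a : H →L[ℂ] H) (w : HSp ι H) (c : H →L[ℂ] H) :
    ‖act b a w c‖ ≤ ‖a‖ * ‖w‖ * ‖c‖ :=
  norm_ofOp_le b _ _ (by positivity) (hs_mul_op_le b a w c)

theorem op_injective {w w' : HSp ι H} (h : op b w = op b w') : w = w' := by
  ext i
  rw [← op_basis b w i, h, op_basis]

/-! ### The bimodule structure -/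

section Bimodule

theorem isBoundedAction_of_clm {A Y : Type*} [NormedRing A] [NormedAlgebra ℂ A]
    [NormedAddCommGroup Y] [NormedSpace ℂ Y] (L : A →L[ℂ] Y →L[ℂ] Y) :
    ∃ C, IsBoundedAction (fun a y => L a y) C :=
  ⟨‖L‖, fun a b y => by simp, fun c a y => by simp, fun a y z => by simp, fun c a y => by simp,
    fun a y => L.le_opNorm₂ a y⟩

variable (A : VonNeumannAlgebra H)

/-- The left action `(a, w) ↦ a · w`. -/
noncomputable def hsLeft : (Elt A) →ₗ[ℂ] HSp ι H →ₗ[ℂ] HSp ι H :=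
  LinearMap.mk₂ ℂ (fun a w => act b (a : H →L[ℂ] H) w 1)
    (fun a a' w => op_injective b (by
      rw [op_add, op_act, op_act, op_act]
      exact ContinuousLinearMap.add_comp _ _ _))
    (fun c a w => op_injective b (by
      rw [op_smul, op_act, op_act]
      exact ContinuousLinearMap.smul_comp _ _ _))
    (fun a w w' => op_injective b (by
      rw [op_add, op_act, op_act, op_act, op_add, ContinuousLinearMap.add_comp,
        ContinuousLinearMap.comp_add]))
    (fun c a w => op_injective b (by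
      rw [op_smul, op_act, op_act, op_smul, ContinuousLinearMap.smul_comp,
        ContinuousLinearMap.comp_smul]))

/-- The right action `(c, w) ↦ w · c`. -/
noncomputable def hsRight : (Elt A) →ₗ[ℂ] HSp ι H →ₗ[ℂ] HSp ι H :=
  LinearMap.mk₂ ℂ (fun c w => act b 1 w (c : H →L[ℂ] H))
    (fun c c' w => op_injective b (by
      rw [op_add, op_act, op_act, op_act]
      change (1 : H →L[ℂ] H) ∘L (op b w ∘L ((c : H →L[ℂ] H) + (c' : H →L[ℂ] H))) = _
      rw [ContinuousLinearMap.comp_add, ContinuousLinearMap.comp_add]))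
    (fun c a w => op_injective b (by
      rw [op_smul, op_act, op_act]
      change (1 : H →L[ℂ] H) ∘L (op b w ∘L (c • (a : H →L[ℂ] H))) = _
      rw [ContinuousLinearMap.comp_smul, ContinuousLinearMap.comp_smul]))
    (fun a w w' => op_injective b (by
      rw [op_add, op_act, op_act, op_act, op_add, ContinuousLinearMap.add_comp,
        ContinuousLinearMap.comp_add]))
    (fun c a w => op_injective b (by
      rw [op_smul, op_act, op_act, op_smul, ContinuousLinearMap.smul_comp,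
        ContinuousLinearMap.comp_smul]))

theorem norm_hsLeft_le (a : (Elt A)) (w : HSp ι H) :
    ‖hsLeft b A a w‖ ≤ ‖(1 : H →L[ℂ] H)‖ * ‖a‖ * ‖w‖ := by
  have h := norm_act_le b (a : H →L[ℂ] H) w 1
  rw [mul_comm, ← mul_assoc] at h
  exact h

theorem norm_hsRight_le (a : (Elt A)) (w : HSp ι H) :
    ‖hsRight b A a w‖ ≤ ‖(1 : H →L[ℂ] H)‖ * ‖a‖ * ‖w‖ := by
  have h := norm_act_le b 1 w (a : H →L[ℂ] H)
  rw [mul_assoc, mul_comm ‖w‖, ← mul_assoc] at h
  exact h

/-- The left action as a bounded map. -/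
noncomputable def hsLeftMap : (Elt A) →L[ℂ] HSp ι H →L[ℂ] HSp ι H :=
  LinearMap.mkContinuous₂ (hsLeft b A) ‖(1 : H →L[ℂ] H)‖ (norm_hsLeft_le b A)

/-- The right action as a bounded map. -/
noncomputable def hsRightMap : (Elt A) →L[ℂ] HSp ι H →L[ℂ] HSp ι H :=
  LinearMap.mkContinuous₂ (hsRight b A) ‖(1 : H →L[ℂ] H)‖ (norm_hsRight_le b A)

/-- Hilbert-Schmidt operators form a Banach bimodule. -/
@[reducible] noncomputable def hsBimodule : BanachBimodule (Elt A) (HSp ι H) where
  left := fun a w => hsLeftMap b A a w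
  right := fun a w => hsRightMap b A a w
  left_bdd := isBoundedAction_of_clm _
  right_bdd := isBoundedAction_of_clm _
  left_one w := op_injective b (by
    change op b (act b 1 w 1) = _
    rw [op_act]; rfl)
  right_one w := op_injective b (by
    change op b (act b 1 w 1) = _
    rw [op_act]; rfl)
  left_mul a c w := op_injective b (by
    change op b (act b ((a : H →L[ℂ] H) * (c : H →L[ℂ] H)) w 1)
      = op b (act b (a : H →L[ℂ] H) (act b (c : H →L[ℂ] H) w 1) 1)
    rw [op_act, op_act, op_act]; rfl)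
  right_mul a c w := op_injective b (by
    change op b (act b 1 w ((a : H →L[ℂ] H) * (c : H →L[ℂ] H)))
      = op b (act b 1 (act b 1 w (a : H →L[ℂ] H)) (c : H →L[ℂ] H))
    rw [op_act, op_act, op_act]; rfl)
  left_right a c w := op_injective b (by
    change op b (act b (a : H →L[ℂ] H) (act b 1 w (c : H →L[ℂ] H)) 1)
      = op b (act b 1 (act b (a : H →L[ℂ] H) w 1) (c : H →L[ℂ] H))
    rw [op_act, op_act, op_act, op_act]; rfl)

theorem hs_left_op (a : (Elt A)) (w : HSp ι H) :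
    op b ((hsBimodule b A).left a w) = (a : H →L[ℂ] H) ∘L op b w := by
  change op b (act b (a : H →L[ℂ] H) w 1) = _
  rw [op_act]; rfl

theorem hs_right_op (a : (Elt A)) (w : HSp ι H) :
    op b ((hsBimodule b A).right a w) = op b w ∘L (a : H →L[ℂ] H) := by
  change op b (act b 1 w (a : H →L[ℂ] H)) = _
  rw [op_act]; rfl

end Bimodule

/-! ### The bimodule of bounded maps `A → Y` -/

/-- For a Banach bimodule `Y`, the space of bounded linear maps `G : A → Y` is a Banach bimodule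
for `(c · G · d)(a) = G (a c) · d`. -/
@[reducible] noncomputable def mapBimodule (A Y : Type) [NormedRing A] [NormedAlgebra ℂ A]
    [NormedAddCommGroup Y] [NormedSpace ℂ Y] [BanachBimodule A Y] (R : A →L[ℂ] Y →L[ℂ] Y)
    (hR : ∀ a y, R a y = BanachBimodule.right a y) :
    BanachBimodule A (A →L[ℂ] Y) where
  left := fun c G => ((ContinuousLinearMap.compL ℂ A A Y).flip ∘L
    (ContinuousLinearMap.mul ℂ A).flip) c G
  right := fun c G => ((ContinuousLinearMap.compL ℂ A Y Y) ∘L R) c G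
  left_bdd := isBoundedAction_of_clm _
  right_bdd := isBoundedAction_of_clm _
  left_one G := by ext a; simp
  right_one G := by ext a; simp [BanachBimodule.right_one, hR]
  left_mul c d G := by ext a; simp [mul_assoc]
  right_mul c d G := by ext a; simp [BanachBimodule.right_mul, hR]
  left_right c d G := by ext a; simp

end Pool.Agent.Lib_helper54
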