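import Mathlib

set_option autoImplicit false

/-!
The Haagerup norm on `A ⊗ A`, its dual bimodule, the sub-bimodule of separately
weak*-continuous forms, and (relative) injectivity of Banach bimodules.
-/

open scoped TensorProduct InnerProductSpace

namespace Pool.Agent.Lib_helper54

/-! ### Banach bimodules -/

/-- `f : A → Y → Y` is bilinear and bounded by `C`. -/
structure IsBoundedAction {A Y : Type*} [NormedRing A] [NormedAlgebra ℂ A]
    [NormedAddCommGroup Y] [NormedSpace ℂ Y] (f : A → Y → Y) (C : ℝ) : Prop where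
  add_left : ∀ a b y, f (a + b) y = f a y + f b y
  smul_left : ∀ (c : ℂ) a y, f (c • a) y = c • f a y
  add_right : ∀ a y z, f a (y + z) = f a y + f a z
  smul_right : ∀ (c : ℂ) a y, f a (c • y) = c • f a y
  bound : ∀ a y, ‖f a y‖ ≤ C * ‖a‖ * ‖y‖

/-- A (unital) Banach `A`-bimodule structure on the normed space `Y`: two bounded bilinear,
unital, associative, commuting actions of `A`. -/
class BanachBimodule (A : Type*) [NormedRing A] [NormedAlgebra ℂ A]
    (Y : Type*) [NormedAddCommGroup Y] [NormedSpace ℂ Y] where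
  /-- the left action `a · y` -/
  left : A → Y → Y
  /-- the right action `y · a`, written `right a y` -/
  right : A → Y → Y
  left_bdd : ∃ C, IsBoundedAction left C
  right_bdd : ∃ C, IsBoundedAction right C
  left_one : ∀ y, left 1 y = y
  right_one : ∀ y, right 1 y = y
  left_mul : ∀ a b y, left (a * b) y = left a (left b y)
  right_mul : ∀ a b y, right (a * b) y = right b (right a y)
  left_right : ∀ a b y, left a (right b y) = right b (left a y)

section Bimodules

variable (A : Type*) [NormedRing A] [NormedAlgebra ℂ A]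

/-- `φ` is a morphism of Banach bimodules (`φ` is bounded and linear by its type). -/
def IsBimoduleHom {Y Z : Type*} [NormedAddCommGroup Y] [NormedSpace ℂ Y] [BanachBimodule A Y]
    [NormedAddCommGroup Z] [NormedSpace ℂ Z] [BanachBimodule A Z] (φ : Y →L[ℂ] Z) : Prop :=
  (∀ (a : A) (y : Y), φ (BanachBimodule.left a y) = BanachBimodule.left a (φ y)) ∧
    ∀ (a : A) (y : Y), φ (BanachBimodule.right a y) = BanachBimodule.right a (φ y)

/-- (Relative) injectivity of the bimodule `J`: morphisms into `J` extend along every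
morphism of Banach bimodules that has a bounded linear left inverse. -/
def InjectiveBimodule (J : Type) [NormedAddCommGroup J] [NormedSpace ℂ J]
    [BanachBimodule A J] : Prop :=
  ∀ (Y Z : Type) [NormedAddCommGroup Y] [NormedSpace ℂ Y] [CompleteSpace Y] [BanachBimodule A Y]
    [NormedAddCommGroup Z] [NormedSpace ℂ Z] [CompleteSpace Z] [BanachBimodule A Z]
    (σ : Y →L[ℂ] Z) (φ : Y →L[ℂ] J),
    IsBimoduleHom A σ → (∃ ρ : Z →L[ℂ] Y, ∀ y, ρ (σ y) = y) → IsBimoduleHom A φ →
      ∃ ψ : Z →L[ℂ] J, IsBimoduleHom A ψ ∧ ∀ y, ψ (σ y) = φ y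

end Bimodules

/-! ### The Haagerup norm -/

section Haagerup

set_option linter.unusedSectionVars false

variable {A : Type*} [NormedRing A] [StarRing A] [CStarRing A] [NormedAlgebra ℂ A] [StarModule ℂ A]

/-- The Haagerup norm on the algebraic tensor product `A ⊗ A`. -/
noncomputable def haagerupNorm (u : A ⊗[ℂ] A) : ℝ :=
  sInf {r : ℝ | ∃ (n : ℕ) (x y : Fin n → A), u = ∑ j, x j ⊗ₜ[ℂ] y j ∧
    r = √‖∑ j, x j * star (x j)‖ * √‖∑ j, star (y j) * y j‖}

theorem exists_rep (u : A ⊗[ℂ] A) : ∃ (n : ℕ) (x y : Fin n → A), u = ∑ j, x j ⊗ₜ[ℂ] y j := by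
  induction u using TensorProduct.induction_on with
  | zero => exact ⟨0, Fin.elim0, Fin.elim0, by simp⟩
  | tmul a b => exact ⟨1, fun _ => a, fun _ => b, by simp⟩
  | add u v hu hv =>
    obtain ⟨n, x, y, rfl⟩ := hu
    obtain ⟨m, x', y', rfl⟩ := hv
    exact ⟨n + m, Fin.append x x', Fin.append y y', by simp [Fin.sum_univ_add]⟩

theorem haagerupNorm_le {n : ℕ} (x y : Fin n → A) :
    haagerupNorm (∑ j, x j ⊗ₜ[ℂ] y j)
      ≤ √‖∑ j, x j * star (x j)‖ * √‖∑ j, star (y j) * y j‖ :=
  csInf_le ⟨0, by rintro r ⟨n, x, y, -, rfl⟩; positivity⟩ ⟨n, x, y, rfl, rfl⟩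

theorem haagerupNorm_nonneg (u : A ⊗[ℂ] A) : 0 ≤ haagerupNorm u :=
  Real.sInf_nonneg (by rintro r ⟨n, x, y, -, rfl⟩; positivity)

theorem exists_rep_lt (u : A ⊗[ℂ] A) {s : ℝ} (hs : haagerupNorm u < s) :
    ∃ (n : ℕ) (x y : Fin n → A), u = ∑ j, x j ⊗ₜ[ℂ] y j ∧
      √‖∑ j, x j * star (x j)‖ * √‖∑ j, star (y j) * y j‖ < s := by
  obtain ⟨n, x, y, h⟩ := exists_rep u
  have hne : Set.Nonempty {r : ℝ | ∃ (n : ℕ) (x y : Fin n → A), u = ∑ j, x j ⊗ₜ[ℂ] y j ∧
      r = √‖∑ j, x j * star (x j)‖ * √‖∑ j, star (y j) * y j‖} := ⟨_, n, x, y, h, rfl⟩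
  obtain ⟨r, ⟨m, x', y', h', rfl⟩, hr⟩ := exists_lt_of_csInf_lt hne hs
  exact ⟨m, x', y', h', hr⟩

/-- A representation can be rescaled so that both factors are below the product. -/
theorem exists_rep_lt' (u : A ⊗[ℂ] A) {s : ℝ} (hs : haagerupNorm u < s) :
    ∃ (n : ℕ) (x y : Fin n → A), u = ∑ j, x j ⊗ₜ[ℂ] y j ∧
      ‖∑ j, x j * star (x j)‖ ≤ s ∧ ‖∑ j, star (y j) * y j‖ ≤ s := by
  obtain ⟨n, x, y, h, hr⟩ := exists_rep_lt u hs
  set a := √‖∑ j, x j * star (x j)‖ with ha
  set b := √‖∑ j, star (y j) * y j‖ with hb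
  have ha0 : 0 ≤ a := Real.sqrt_nonneg _
  have hb0 : 0 ≤ b := Real.sqrt_nonneg _
  have ha2 : ‖∑ j, x j * star (x j)‖ = a * a := by rw [ha, Real.mul_self_sqrt (norm_nonneg _)]
  have hb2 : ‖∑ j, star (y j) * y j‖ = b * b := by rw [hb, Real.mul_self_sqrt (norm_nonneg _)]
  have hs0 : 0 < s := lt_of_le_of_lt (haagerupNorm_nonneg u) hs
  -- choose `δ` with `(a + δ) * (b + δ) ≤ s`
  obtain ⟨δ, hδ, hδs⟩ : ∃ δ : ℝ, 0 < δ ∧ (a + δ) * (b + δ) ≤ s := by
    have hcont : Filter.Tendsto (fun δ : ℝ => (a + δ) * (b + δ)) (nhdsWithin 0 (Set.Ioi 0))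
        (nhds ((a + 0) * (b + 0))) := by
      apply Filter.Tendsto.mono_left _ nhdsWithin_le_nhds
      exact (Continuous.tendsto (by fun_prop) 0)
    have hev := hcont.eventually (Iic_mem_nhds (show (a + 0) * (b + 0) < s by simpa using hr))
    obtain ⟨δ, h1, h2⟩ := (hev.and self_mem_nhdsWithin).exists
    exact ⟨δ, h2, h1⟩
  have haδ : 0 < a + δ := by linarith
  have hbδ : 0 < b + δ := by linarith
  -- the scaling factor
  set t : ℝ := √((b + δ) / (a + δ)) with ht
  have ht0 : 0 < t := Real.sqrt_pos.2 (div_pos hbδ haδ)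
  have ht2 : t * t = (b + δ) / (a + δ) := Real.mul_self_sqrt (div_pos hbδ haδ).le
  refine ⟨n, fun j => (t : ℂ) • x j, fun j => ((t : ℂ)⁻¹) • y j, ?_, ?_, ?_⟩
  · rw [h]
    refine Finset.sum_congr rfl fun j _ => ?_
    rw [TensorProduct.smul_tmul_smul, mul_inv_cancel₀ (by exact_mod_cast ht0.ne'), one_smul]
  · have : ∑ j, ((t : ℂ) • x j) * star ((t : ℂ) • x j)
        = ((t * t : ℝ) : ℂ) • ∑ j, x j * star (x j) := by
      rw [Finset.smul_sum]
      refine Finset.sum_congr rfl fun j _ => ?_
      rw [star_smul, smul_mul_smul_comm]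
      simp
    rw [this, norm_smul, ha2, ht2, Complex.norm_real, Real.norm_of_nonneg (by positivity)]
    calc (b + δ) / (a + δ) * (a * a) ≤ (b + δ) / (a + δ) * ((a + δ) * (a + δ)) := by
          gcongr <;> linarith
      _ = (a + δ) * (b + δ) := by field_simp
      _ ≤ s := hδs
  · have : ∑ j, star (((t : ℂ)⁻¹) • y j) * (((t : ℂ)⁻¹) • y j)
        = (((t * t)⁻¹ : ℝ) : ℂ) • ∑ j, star (y j) * y j := by
      rw [Finset.smul_sum]
      refine Finset.sum_congr rfl fun j _ => ?_
      rw [star_smul, smul_mul_smul_comm]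
      simp
    rw [this, norm_smul, hb2, ht2, Complex.norm_real, Real.norm_of_nonneg (by positivity)]
    calc ((b + δ) / (a + δ))⁻¹ * (b * b) ≤ ((b + δ) / (a + δ))⁻¹ * ((b + δ) * (b + δ)) := by
          gcongr <;> linarith
      _ = (a + δ) * (b + δ) := by field_simp
      _ ≤ s := hδs

theorem haagerupNorm_zero : haagerupNorm (0 : A ⊗[ℂ] A) = 0 := by
  refine le_antisymm ?_ (haagerupNorm_nonneg _)
  have := haagerupNorm_le (A := A) (n := 0) Fin.elim0 Fin.elim0
  simpa using this

theorem haagerupNorm_add (u v : A ⊗[ℂ] A) :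
    haagerupNorm (u + v) ≤ haagerupNorm u + haagerupNorm v := by
  refine le_of_forall_pos_le_add fun ε hε => ?_
  obtain ⟨n, x, y, rfl, hx, hy⟩ := exists_rep_lt' u
    (show haagerupNorm u < haagerupNorm u + ε / 2 by linarith)
  obtain ⟨m, x', y', rfl, hx', hy'⟩ := exists_rep_lt' v
    (show haagerupNorm v < haagerupNorm v + ε / 2 by linarith)
  set U := haagerupNorm (∑ j, x j ⊗ₜ[ℂ] y j)
  set V := haagerupNorm (∑ j, x' j ⊗ₜ[ℂ] y' j)
  have h := haagerupNorm_le (Fin.append x x') (Fin.append y y')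
  have e0 : ∑ j, (Fin.append x x') j ⊗ₜ[ℂ] (Fin.append y y') j
      = ∑ j, x j ⊗ₜ[ℂ] y j + ∑ j, x' j ⊗ₜ[ℂ] y' j := by simp [Fin.sum_univ_add]
  have e1 : ∑ j, (Fin.append x x') j * star ((Fin.append x x') j)
      = ∑ j, x j * star (x j) + ∑ j, x' j * star (x' j) := by simp [Fin.sum_univ_add]
  have e2 : ∑ j, star ((Fin.append y y') j) * (Fin.append y y') j
      = ∑ j, star (y j) * y j + ∑ j, star (y' j) * y' j := by simp [Fin.sum_univ_add]
  rw [e0, e1, e2] at h
  refine h.trans ?_
  have hU : 0 ≤ U := haagerupNorm_nonneg _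
  have hV : 0 ≤ V := haagerupNorm_nonneg _
  have h1 : √‖∑ j, x j * star (x j) + ∑ j, x' j * star (x' j)‖ ≤ √(U + V + ε) :=
    Real.sqrt_le_sqrt ((norm_add_le _ _).trans (by linarith))
  have h2 : √‖∑ j, star (y j) * y j + ∑ j, star (y' j) * y' j‖ ≤ √(U + V + ε) :=
    Real.sqrt_le_sqrt ((norm_add_le _ _).trans (by linarith))
  calc _ ≤ √(U + V + ε) * √(U + V + ε) := by gcongr
    _ = U + V + ε := Real.mul_self_sqrt (by linarith)

theorem haagerupNorm_smul_le (c : ℂ) (u : A ⊗[ℂ] A) :
    haagerupNorm (c • u) ≤ ‖c‖ * haagerupNorm u := by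
  refine le_of_forall_pos_le_add fun ε hε => ?_
  have hc : 0 < ‖c‖ + 1 := by positivity
  obtain ⟨n, x, y, rfl, hr⟩ := exists_rep_lt u
    (show haagerupNorm u < haagerupNorm u + ε / (‖c‖ + 1) by
      have := div_pos hε hc; linarith)
  set U := haagerupNorm (∑ j, x j ⊗ₜ[ℂ] y j)
  have h := haagerupNorm_le (fun j => c • x j) y
  have e0 : ∑ j, (c • x j) ⊗ₜ[ℂ] y j = c • ∑ j, x j ⊗ₜ[ℂ] y j := by
    rw [Finset.smul_sum]; rfl
  have e1 : ∑ j, (c • x j) * star (c • x j) = (c * star c) • ∑ j, x j * star (x j) := by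
    rw [Finset.smul_sum]
    refine Finset.sum_congr rfl fun j _ => ?_
    rw [star_smul, smul_mul_smul_comm]
  rw [e0, e1, norm_smul, norm_mul, norm_star, Real.sqrt_mul (by positivity),
    Real.sqrt_mul_self (norm_nonneg _)] at h
  refine h.trans ?_
  rw [mul_assoc]
  calc ‖c‖ * (√‖∑ j, x j * star (x j)‖ * √‖∑ j, star (y j) * y j‖)
      ≤ ‖c‖ * (U + ε / (‖c‖ + 1)) := by gcongr
    _ = ‖c‖ * U + ε * (‖c‖ / (‖c‖ + 1)) := by ring
    _ ≤ ‖c‖ * U + ε * 1 := by
        gcongr
        rw [div_le_one hc]; linarith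
    _ = ‖c‖ * U + ε := by ring

theorem haagerupNorm_neg (u : A ⊗[ℂ] A) : haagerupNorm (-u) = haagerupNorm u := by
  have h : ∀ v : A ⊗[ℂ] A, haagerupNorm (-v) ≤ haagerupNorm v := fun v => by
    have := haagerupNorm_smul_le (-1) v
    simpa using this
  refine le_antisymm (h u) ?_
  have := h (-u)
  rwa [neg_neg] at this

theorem haagerupNorm_map_le (b a : A) (u : A ⊗[ℂ] A) :
    haagerupNorm (TensorProduct.map (LinearMap.mulLeft ℂ b) (LinearMap.mulRight ℂ a) u)
      ≤ ‖b‖ * ‖a‖ * haagerupNorm u := by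
  refine le_of_forall_pos_le_add fun ε hε => ?_
  have hc : 0 < ‖b‖ * ‖a‖ + 1 := by positivity
  obtain ⟨n, x, y, rfl, hr⟩ := exists_rep_lt u
    (show haagerupNorm u < haagerupNorm u + ε / (‖b‖ * ‖a‖ + 1) by
      have := div_pos hε hc; linarith)
  set U := haagerupNorm (∑ j, x j ⊗ₜ[ℂ] y j)
  have h := haagerupNorm_le (fun j => b * x j) (fun j => y j * a)
  have e0 : ∑ j, (b * x j) ⊗ₜ[ℂ] (y j * a)
      = TensorProduct.map (LinearMap.mulLeft ℂ b) (LinearMap.mulRight ℂ a)
          (∑ j, x j ⊗ₜ[ℂ] y j) := by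
    rw [map_sum]; rfl
  have e1 : ∑ j, (b * x j) * star (b * x j) = b * (∑ j, x j * star (x j)) * star b := by
    rw [Finset.mul_sum, Finset.sum_mul]
    refine Finset.sum_congr rfl fun j _ => ?_
    rw [star_mul]; noncomm_ring
  have e2 : ∑ j, star (y j * a) * (y j * a) = star a * (∑ j, star (y j) * y j) * a := by
    rw [Finset.mul_sum, Finset.sum_mul]
    refine Finset.sum_congr rfl fun j _ => ?_
    rw [star_mul]; noncomm_ring
  rw [e0, e1, e2] at h
  refine h.trans ?_
  have h1 : √‖b * (∑ j, x j * star (x j)) * star b‖ ≤ ‖b‖ * √‖∑ j, x j * star (x j)‖ := by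
    rw [Real.sqrt_le_left (by positivity), mul_pow, Real.sq_sqrt (norm_nonneg _)]
    calc ‖b * (∑ j, x j * star (x j)) * star b‖ ≤ ‖b‖ * ‖∑ j, x j * star (x j)‖ * ‖star b‖ :=
          (norm_mul_le _ _).trans (by gcongr; exact norm_mul_le _ _)
      _ = ‖b‖ ^ 2 * ‖∑ j, x j * star (x j)‖ := by rw [norm_star]; ring
  have h2 : √‖star a * (∑ j, star (y j) * y j) * a‖ ≤ ‖a‖ * √‖∑ j, star (y j) * y j‖ := by
    rw [Real.sqrt_le_left (by positivity), mul_pow, Real.sq_sqrt (norm_nonneg _)]
    calc ‖star a * (∑ j, star (y j) * y j) * a‖ ≤ ‖star a‖ * ‖∑ j, star (y j) * y j‖ * ‖a‖ :=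
          (norm_mul_le _ _).trans (by gcongr; exact norm_mul_le _ _)
      _ = ‖a‖ ^ 2 * ‖∑ j, star (y j) * y j‖ := by rw [norm_star]; ring
  calc _ ≤ (‖b‖ * √‖∑ j, x j * star (x j)‖) * (‖a‖ * √‖∑ j, star (y j) * y j‖) := by gcongr
    _ = ‖b‖ * ‖a‖ * (√‖∑ j, x j * star (x j)‖ * √‖∑ j, star (y j) * y j‖) := by ring
    _ ≤ ‖b‖ * ‖a‖ * (U + ε / (‖b‖ * ‖a‖ + 1)) := by gcongr
    _ = ‖b‖ * ‖a‖ * U + ε * (‖b‖ * ‖a‖ / (‖b‖ * ‖a‖ + 1)) := by ring
    _ ≤ ‖b‖ * ‖a‖ * U + ε * 1 := by
        gcongr
        rw [div_le_one hc]; linarith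
    _ = ‖b‖ * ‖a‖ * U + ε := by ring

variable (A)

/-- `A ⊗ A` with the Haagerup norm. -/
def HaagerupTensor : Type _ := A ⊗[ℂ] A

noncomputable instance : AddCommGroup (HaagerupTensor A) := TensorProduct.addCommGroup

noncomputable instance : Module ℂ (HaagerupTensor A) := TensorProduct.instModule

/-- The Haagerup norm as a group seminorm. -/
noncomputable def haagerupGroupSeminorm : AddGroupSeminorm (HaagerupTensor A) where
  toFun u := haagerupNorm (A := A) u
  map_zero' := haagerupNorm_zero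
  add_le' := haagerupNorm_add
  neg' u := haagerupNorm_neg (A := A) u

noncomputable instance : SeminormedAddCommGroup (HaagerupTensor A) :=
  (haagerupGroupSeminorm A).toSeminormedAddCommGroup

noncomputable instance : NormedSpace ℂ (HaagerupTensor A) where
  norm_smul_le c u := haagerupNorm_smul_le c u

variable {A}

/-- The elementary tensor `x ⊗ y`. -/
noncomputable def tmulH (x y : A) : HaagerupTensor A := x ⊗ₜ[ℂ] y

theorem norm_sum_tmulH_le {n : ℕ} (x y : Fin n → A) :
    ‖∑ j, tmulH (x j) (y j)‖ ≤ √‖∑ j, x j * star (x j)‖ * √‖∑ j, star (y j) * y j‖ :=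
  haagerupNorm_le x y

/-- The map `u ↦ b · u · a` on `A ⊗ A`, i.e. `x ⊗ y ↦ b x ⊗ y a`. -/
noncomputable def outer (b a : A) : HaagerupTensor A →L[ℂ] HaagerupTensor A :=
  LinearMap.mkContinuous
    (TensorProduct.map (LinearMap.mulLeft ℂ b) (LinearMap.mulRight ℂ a) :
      A ⊗[ℂ] A →ₗ[ℂ] A ⊗[ℂ] A)
    (‖b‖ * ‖a‖) (haagerupNorm_map_le b a)

theorem outer_tmulH (b a x y : A) : outer b a (tmulH x y) = tmulH (b * x) (y * a) := rfl

theorem norm_outer_le (b a : A) : ‖outer b a‖ ≤ ‖b‖ * ‖a‖ :=
  LinearMap.mkContinuous_norm_le _ (by positivity) _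

/-- Two continuous functionals on `A ⊗ A` agreeing on elementary tensors are equal. -/
theorem dual_ext {f g : StrongDual ℂ (HaagerupTensor A)}
    (h : ∀ x y, f (tmulH x y) = g (tmulH x y)) : f = g := by
  ext u
  have : (f.toLinearMap : A ⊗[ℂ] A →ₗ[ℂ] ℂ) = (g.toLinearMap : A ⊗[ℂ] A →ₗ[ℂ] ℂ) :=
    TensorProduct.ext' fun x y => h x y
  exact congrArg (fun l : A ⊗[ℂ] A →ₗ[ℂ] ℂ => l u) this

/-- The dual norm (norm of functionals) is a norm. -/
noncomputable instance instNormedDual :
    NormedAddCommGroup (StrongDual ℂ (HaagerupTensor A)) :=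
  NormedAddCommGroup.ofSeparation fun f hf => by
    ext u
    have h := f.le_opNorm u
    rw [hf, zero_mul] at h
    exact norm_le_zero_iff.1 h

end Haagerup

/-! ### The normal part of the dual -/

/-- A topology on the algebra `A` for which the maps `x ↦ b x c` are continuous. (Below: the
weak* topology of a von Neumann algebra.) -/
class WeakStarTopology (A : Type*) [NormedRing A] where
  /-- the topology -/
  top : TopologicalSpace A
  continuous_mul : ∀ b c : A, @Continuous A A top top fun x => b * x * c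

section Normal

set_option linter.unusedSectionVars false

variable {A : Type*} [NormedRing A] [WeakStarTopology A]

/-- Weak*-continuity of a scalar function on `A`. -/
def WeakStarContinuous (g : A → ℂ) : Prop :=
  @Continuous A ℂ WeakStarTopology.top inferInstance g

theorem WeakStarContinuous.add {g h : A → ℂ}
    (hg : WeakStarContinuous g) (hh : WeakStarContinuous h) :
    WeakStarContinuous (fun a => g a + h a) := by
  let _ : TopologicalSpace A := WeakStarTopology.top
  exact Continuous.add hg hh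

theorem WeakStarContinuous.const_mul {g : A → ℂ}
    (c : ℂ) (hg : WeakStarContinuous g) : WeakStarContinuous (fun a => c * g a) := by
  let _ : TopologicalSpace A := WeakStarTopology.top
  exact Continuous.mul continuous_const hg

theorem weakStarContinuous_zero : WeakStarContinuous (fun _ : A => (0 : ℂ)) :=
  @continuous_const _ _ (_) _ _

theorem WeakStarContinuous.comp_mul {g : A → ℂ}
    (hg : WeakStarContinuous g) (b c : A) : WeakStarContinuous (fun a => g (b * a * c)) :=
  @Continuous.comp _ _ _ WeakStarTopology.top WeakStarTopology.top _ _ _ hg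
    (WeakStarTopology.continuous_mul b c)

variable [StarRing A] [CStarRing A] [NormedAlgebra ℂ A] [StarModule ℂ A]

variable (A)

/-- The separately weak*-continuous elements of the dual of `A ⊗ A`. -/
def sepContinuous : Set (StrongDual ℂ (HaagerupTensor A)) :=
  {f | (∀ x, WeakStarContinuous (fun y => f (tmulH x y))) ∧
    ∀ y, WeakStarContinuous (fun x => f (tmulH x y))}

variable {A}

theorem sepContinuous_add {f g : StrongDual ℂ (HaagerupTensor A)} (hf : f ∈ sepContinuous A)
    (hg : g ∈ sepContinuous A) : f + g ∈ sepContinuous A :=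
  ⟨fun x => (hf.1 x).add (hg.1 x), fun y => (hf.2 y).add (hg.2 y)⟩

theorem sepContinuous_zero : (0 : StrongDual ℂ (HaagerupTensor A)) ∈ sepContinuous A :=
  ⟨fun _ => weakStarContinuous_zero, fun _ => weakStarContinuous_zero⟩

theorem sepContinuous_smul (c : ℂ) {f : StrongDual ℂ (HaagerupTensor A)}
    (hf : f ∈ sepContinuous A) : c • f ∈ sepContinuous A :=
  ⟨fun x => (hf.1 x).const_mul c, fun y => (hf.2 y).const_mul c⟩

variable (A)

/-- `(A × A)^h_*`: the Haagerup-bounded bilinear forms on `A × A` (elements of the dual of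
`A ⊗ A` with the Haagerup norm) that are separately weak*-continuous. -/
noncomputable def normalHaagerupDual : Submodule ℂ (StrongDual ℂ (HaagerupTensor A)) where
  carrier := sepContinuous A
  add_mem' := sepContinuous_add
  zero_mem' := sepContinuous_zero
  smul_mem' := fun c _ hf => sepContinuous_smul c hf

/-- `(A × A)^h_*` as a type. -/
def NormalHaagerupDual : Type _ := normalHaagerupDual A

noncomputable instance : AddCommGroup (NormalHaagerupDual A) :=
  Submodule.addCommGroup (normalHaagerupDual A)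

noncomputable instance : Module ℂ (NormalHaagerupDual A) :=
  Submodule.module (normalHaagerupDual A)

variable {A}

/-- The underlying functional on `A ⊗ A`. -/
noncomputable def NormalHaagerupDual.toDual :
    NormalHaagerupDual A →ₗ[ℂ] StrongDual ℂ (HaagerupTensor A) :=
  (normalHaagerupDual A).subtype

theorem toDual_injective :
    Function.Injective (NormalHaagerupDual.toDual : NormalHaagerupDual A →ₗ[ℂ] _) :=
  Subtype.val_injective

variable (A)

/-- The norm of `(A × A)^h_*` is the norm of functionals on `A ⊗ A` with the Haagerup norm. -/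
noncomputable instance : NormedAddCommGroup (NormalHaagerupDual A) :=
  NormedAddCommGroup.induced _ _ NormalHaagerupDual.toDual toDual_injective

noncomputable instance : NormedSpace ℂ (NormalHaagerupDual A) :=
  NormedSpace.induced ℂ _ _ NormalHaagerupDual.toDual

variable {A}

theorem norm_toDual (f : NormalHaagerupDual A) : ‖f.toDual‖ = ‖f‖ := rfl

theorem toDual_mem (f : NormalHaagerupDual A) : f.toDual ∈ normalHaagerupDual A := f.2

theorem comp_outer_mem {f : StrongDual ℂ (HaagerupTensor A)} (hf : f ∈ normalHaagerupDual A)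
    (b a : A) : f.comp (outer b a) ∈ normalHaagerupDual A := by
  constructor
  · intro x
    have h := (hf.1 (b * x)).comp_mul 1 a
    simpa [outer_tmulH] using h
  · intro y
    have h := (hf.2 (y * a)).comp_mul b 1
    simpa [outer_tmulH] using h

theorem outer_add_right (b a a' : A) : outer b (a + a') = outer b a + outer b a' := by
  ext u
  change TensorProduct.map (LinearMap.mulLeft ℂ b) (LinearMap.mulRight ℂ (a + a')) u
    = TensorProduct.map (LinearMap.mulLeft ℂ b) (LinearMap.mulRight ℂ a) u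
      + TensorProduct.map (LinearMap.mulLeft ℂ b) (LinearMap.mulRight ℂ a') u
  have h : LinearMap.mulRight ℂ (a + a') = LinearMap.mulRight ℂ a + LinearMap.mulRight ℂ a' := by
    ext x; simp [mul_add]
  rw [h, TensorProduct.map_add_right]; rfl

theorem outer_smul_right (c : ℂ) (b a : A) : outer b (c • a) = c • outer b a := by
  ext u
  change TensorProduct.map (LinearMap.mulLeft ℂ b) (LinearMap.mulRight ℂ (c • a)) u
    = c • TensorProduct.map (LinearMap.mulLeft ℂ b) (LinearMap.mulRight ℂ a) u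
  have h : LinearMap.mulRight ℂ (c • a) = c • LinearMap.mulRight ℂ a := by
    ext x; simp
  rw [h, TensorProduct.map_smul_right]; rfl

theorem outer_add_left (b b' a : A) : outer (b + b') a = outer b a + outer b' a := by
  ext u
  change TensorProduct.map (LinearMap.mulLeft ℂ (b + b')) (LinearMap.mulRight ℂ a) u
    = TensorProduct.map (LinearMap.mulLeft ℂ b) (LinearMap.mulRight ℂ a) u
      + TensorProduct.map (LinearMap.mulLeft ℂ b') (LinearMap.mulRight ℂ a) u
  have h : LinearMap.mulLeft ℂ (b + b') = LinearMap.mulLeft ℂ b + LinearMap.mulLeft ℂ b' := by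
    ext x; simp [add_mul]
  rw [h, TensorProduct.map_add_left]; rfl

theorem outer_smul_left (c : ℂ) (b a : A) : outer (c • b) a = c • outer b a := by
  ext u
  change TensorProduct.map (LinearMap.mulLeft ℂ (c • b)) (LinearMap.mulRight ℂ a) u
    = c • TensorProduct.map (LinearMap.mulLeft ℂ b) (LinearMap.mulRight ℂ a) u
  have h : LinearMap.mulLeft ℂ (c • b) = c • LinearMap.mulLeft ℂ b := by
    ext x; simp
  rw [h, TensorProduct.map_smul_left]; rfl

theorem norm_comp_outer_le (f : StrongDual ℂ (HaagerupTensor A)) (b a : A) :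
    ‖f.comp (outer b a)‖ ≤ ‖f‖ * (‖b‖ * ‖a‖) :=
  (ContinuousLinearMap.opNorm_comp_le f (outer b a)).trans
    (mul_le_mul_of_nonneg_left (norm_outer_le b a) (norm_nonneg f))

/-- `b ⬝ f ⬝ a`-type action: `actOn b a f` is the form `u ↦ f (b · u · a)`. -/
noncomputable def actOn (b a : A) (f : NormalHaagerupDual A) : NormalHaagerupDual A :=
  ⟨f.toDual.comp (outer b a), comp_outer_mem f.2 b a⟩

theorem toDual_actOn (b a : A) (f : NormalHaagerupDual A) (u : HaagerupTensor A) :
    (actOn b a f).toDual u = f.toDual (outer b a u) := rfl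

theorem norm_actOn_le (b a : A) (f : NormalHaagerupDual A) :
    ‖actOn b a f‖ ≤ ‖f‖ * (‖b‖ * ‖a‖) := norm_comp_outer_le f.toDual b a

theorem actOn_add_right (b a a' : A) (f : NormalHaagerupDual A) :
    actOn b (a + a') f = actOn b a f + actOn b a' f := toDual_injective (by
  change f.toDual.comp (outer b (a + a')) = f.toDual.comp (outer b a) + f.toDual.comp (outer b a')
  rw [outer_add_right, ContinuousLinearMap.comp_add])

theorem actOn_add_left (b b' a : A) (f : NormalHaagerupDual A) :
    actOn (b + b') a f = actOn b a f + actOn b' a f := toDual_injective (by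
  change f.toDual.comp (outer (b + b') a) = f.toDual.comp (outer b a) + f.toDual.comp (outer b' a)
  rw [outer_add_left, ContinuousLinearMap.comp_add])

theorem actOn_smul_right (c : ℂ) (b a : A) (f : NormalHaagerupDual A) :
    actOn b (c • a) f = c • actOn b a f := toDual_injective (by
  change f.toDual.comp (outer b (c • a)) = c • f.toDual.comp (outer b a)
  rw [outer_smul_right, ContinuousLinearMap.comp_smul])

theorem actOn_smul_left (c : ℂ) (b a : A) (f : NormalHaagerupDual A) :
    actOn (c • b) a f = c • actOn b a f := toDual_injective (by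
  change f.toDual.comp (outer (c • b) a) = c • f.toDual.comp (outer b a)
  rw [outer_smul_left, ContinuousLinearMap.comp_smul])

theorem actOn_add (b a : A) (f g : NormalHaagerupDual A) :
    actOn b a (f + g) = actOn b a f + actOn b a g := rfl

theorem actOn_smul (c : ℂ) (b a : A) (f : NormalHaagerupDual A) :
    actOn b a (c • f) = c • actOn b a f := rfl

variable (A)

theorem ext_tmulH {f g : NormalHaagerupDual A}
    (h : ∀ x y, f.toDual (tmulH x y) = g.toDual (tmulH x y)) : f = g :=
  toDual_injective (dual_ext h)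

/-- The left action `(a · f)(u) = f (u · a)` of `A` on `(A × A)^h_*`. -/
noncomputable def leftAct (a : A) (f : NormalHaagerupDual A) : NormalHaagerupDual A := actOn 1 a f

/-- The right action `(f · b)(u) = f (b · u)` of `A` on `(A × A)^h_*`. -/
noncomputable def rightAct (b : A) (f : NormalHaagerupDual A) : NormalHaagerupDual A := actOn b 1 f

theorem leftAct_bdd : IsBoundedAction (leftAct A) ‖(1 : A)‖ where
  add_left a a' f := actOn_add_right 1 a a' f
  smul_left c a f := actOn_smul_right c 1 a f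
  add_right a f g := actOn_add 1 a f g
  smul_right c a f := actOn_smul c 1 a f
  bound a f := by
    have h := norm_actOn_le 1 a f
    rw [mul_comm] at h
    exact h

theorem rightAct_bdd : IsBoundedAction (rightAct A) ‖(1 : A)‖ where
  add_left b b' f := actOn_add_left b b' 1 f
  smul_left c b f := actOn_smul_left c b 1 f
  add_right b f g := actOn_add b 1 f g
  smul_right c b f := actOn_smul c b 1 f
  bound b f := by
    have h := norm_actOn_le b 1 f
    rw [mul_comm, mul_comm ‖b‖] at h
    exact h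

/-- The bimodule structure `(a · f · b)(u) = f (b · u · a)` of `(A × A)^h_*`. -/
noncomputable instance instBimoduleNormalHaagerupDual :
    BanachBimodule A (NormalHaagerupDual A) where
  left := leftAct A
  right := rightAct A
  left_bdd := ⟨_, leftAct_bdd A⟩
  right_bdd := ⟨_, rightAct_bdd A⟩
  left_one f := ext_tmulH A fun x y => by
    change f.toDual (tmulH (1 * x) (y * 1)) = f.toDual (tmulH x y)
    rw [one_mul, mul_one]
  right_one f := ext_tmulH A fun x y => by
    change f.toDual (tmulH (1 * x) (y * 1)) = f.toDual (tmulH x y)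
    rw [one_mul, mul_one]
  left_mul a b f := ext_tmulH A fun x y => by
    change f.toDual (tmulH (1 * x) (y * (a * b))) = f.toDual (tmulH (1 * (1 * x)) (y * a * b))
    rw [one_mul, one_mul, mul_assoc]
  right_mul a b f := ext_tmulH A fun x y => by
    change f.toDual (tmulH (a * b * x) (y * 1)) = f.toDual (tmulH (a * (b * x)) (y * 1 * 1))
    rw [mul_one, mul_one, mul_assoc]
  left_right a b f := ext_tmulH A fun x y => by
    change f.toDual (tmulH (b * (1 * x)) (y * a * 1)) = f.toDual (tmulH (1 * (b * x)) (y * 1 * a))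
    rw [one_mul, one_mul, mul_one, mul_one]

variable {A}

theorem left_apply (a : A) (f : NormalHaagerupDual A) (x y : A) :
    (BanachBimodule.left a f : NormalHaagerupDual A).toDual (tmulH x y)
      = f.toDual (tmulH x (y * a)) := by
  change f.toDual (tmulH (1 * x) (y * a)) = _
  rw [one_mul]

theorem right_apply (b : A) (f : NormalHaagerupDual A) (x y : A) :
    (BanachBimodule.right b f : NormalHaagerupDual A).toDual (tmulH x y)
      = f.toDual (tmulH (b * x) y) := by
  change f.toDual (tmulH (b * x) (y * 1)) = _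
  rw [mul_one]

end Normal

/-! ### The weak* topology of a von Neumann algebra -/

section VN

variable {H : Type} [NormedAddCommGroup H] [InnerProductSpace ℂ H] [CompleteSpace H]

/-- The elements of the von Neumann algebra `A`, as a type. -/
def Elt (A : VonNeumannAlgebra H) : Type := A.toStarSubalgebra

section Elt

variable (A : VonNeumannAlgebra H)

noncomputable instance : NormedRing (Elt A) := inferInstanceAs (NormedRing A.toStarSubalgebra)

noncomputable instance : StarRing (Elt A) := inferInstanceAs (StarRing A.toStarSubalgebra)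

noncomputable instance : NormedAlgebra ℂ (Elt A) :=
  inferInstanceAs (NormedAlgebra ℂ A.toStarSubalgebra)

instance : CStarRing (Elt A) := inferInstanceAs (CStarRing A.toStarSubalgebra)

instance : StarModule ℂ (Elt A) := inferInstanceAs (StarModule ℂ A.toStarSubalgebra)

variable {A}

/-- The operator on `H` given by an element of `A`. -/
def Elt.toOp (a : Elt A) : H →L[ℂ] H := Subtype.val (p := fun x => x ∈ A.toStarSubalgebra) a

instance : CoeOut (Elt A) (H →L[ℂ] H) := ⟨Elt.toOp⟩

@[simp] theorem Elt.coe_mul (a b : Elt A) :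
    ((a * b : Elt A) : H →L[ℂ] H) = (a : H →L[ℂ] H) * (b : H →L[ℂ] H) := rfl

@[simp] theorem Elt.coe_add (a b : Elt A) :
    ((a + b : Elt A) : H →L[ℂ] H) = (a : H →L[ℂ] H) + (b : H →L[ℂ] H) := rfl

@[simp] theorem Elt.coe_smul (c : ℂ) (a : Elt A) :
    ((c • a : Elt A) : H →L[ℂ] H) = c • (a : H →L[ℂ] H) := rfl

@[simp] theorem Elt.coe_star (a : Elt A) :
    ((star a : Elt A) : H →L[ℂ] H) = star (a : H →L[ℂ] H) := rfl

@[simp] theorem Elt.coe_one : ((1 : Elt A) : H →L[ℂ] H) = 1 := rfl

@[simp] theorem Elt.coe_zero : ((0 : Elt A) : H →L[ℂ] H) = 0 := rfl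

theorem Elt.norm_coe (a : Elt A) : ‖(a : H →L[ℂ] H)‖ = ‖a‖ := rfl

theorem Elt.coe_sum {κ : Type*} (s : Finset κ) (f : κ → Elt A) :
    ((∑ j ∈ s, f j : Elt A) : H →L[ℂ] H) = ∑ j ∈ s, (f j : H →L[ℂ] H) := by
  classical
  induction s using Finset.induction_on with
  | empty => simp
  | insert a s ha ih => rw [Finset.sum_insert ha, Finset.sum_insert ha, Elt.coe_add, ih]

end Elt

/-- The weak* (ultraweak) topology of a von Neumann algebra: the coarsest topology for which
`a ↦ ∑ ⟪η i, a (ξ i)⟫` is continuous for all square-summable sequences `ξ`, `η` of vectors. -/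
@[reducible] noncomputable def ultraweak (A : VonNeumannAlgebra H) : TopologicalSpace (Elt A) :=
  ⨅ p : {p : (ℕ → H) × (ℕ → H) //
      Summable (fun i => ‖p.1 i‖ ^ 2) ∧ Summable (fun i => ‖p.2 i‖ ^ 2)},
    TopologicalSpace.induced
      (fun a : Elt A => ∑' i, ⟪p.1.2 i, (a : H →L[ℂ] H) (p.1.1 i)⟫_ℂ) inferInstance

theorem continuous_seq (A : VonNeumannAlgebra H) (ξ η : ℕ → H)
    (hξ : Summable (fun i => ‖ξ i‖ ^ 2)) (hη : Summable (fun i => ‖η i‖ ^ 2)) :
    @Continuous (Elt A) ℂ (ultraweak A) inferInstance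
      (fun a => ∑' i, ⟪η i, (a : H →L[ℂ] H) (ξ i)⟫_ℂ) := by
  let _ := ultraweak A
  have h : (ultraweak A) ≤ TopologicalSpace.induced
      (fun a : Elt A => ∑' i, ⟪η i, (a : H →L[ℂ] H) (ξ i)⟫_ℂ) inferInstance :=
    iInf_le (fun p : {p : (ℕ → H) × (ℕ → H) //
      Summable (fun i => ‖p.1 i‖ ^ 2) ∧ Summable (fun i => ‖p.2 i‖ ^ 2)} =>
      TopologicalSpace.induced
        (fun a : Elt A => ∑' i, ⟪p.1.2 i, (a : H →L[ℂ] H) (p.1.1 i)⟫_ℂ) inferInstance)
      ⟨(ξ, η), hξ, hη⟩
  exact continuous_iff_le_induced.2 h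

theorem continuous_mul_mul (A : VonNeumannAlgebra H) (b c : Elt A) :
    @Continuous (Elt A) (Elt A) (ultraweak A) (ultraweak A) (fun a => b * a * c) := by
  refine continuous_iInf_rng.2 ?_
  rintro ⟨⟨ξ, η⟩, hξ, hη⟩
  rw [continuous_induced_rng]
  have h := continuous_seq A (fun i => (c : H →L[ℂ] H) (ξ i))
    (fun i => (ContinuousLinearMap.adjoint (b : H →L[ℂ] H)) (η i)) ?_ ?_
  · have e : (fun a : Elt A =>
        ∑' i, ⟪η i, ((b * a * c : Elt A) : H →L[ℂ] H) (ξ i)⟫_ℂ)
        = fun a : Elt A => ∑' i,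
          ⟪(ContinuousLinearMap.adjoint (b : H →L[ℂ] H)) (η i),
            (a : H →L[ℂ] H) ((c : H →L[ℂ] H) (ξ i))⟫_ℂ := by
      funext a
      congr 1
      funext i
      rw [ContinuousLinearMap.adjoint_inner_left]
      rfl
    change @Continuous (Elt A) ℂ (ultraweak A) inferInstance (fun a : Elt A =>
        ∑' i, ⟪η i, ((b * a * c : Elt A) : H →L[ℂ] H) (ξ i)⟫_ℂ)
    rw [e]
    exact h
  · refine Summable.of_nonneg_of_le (fun _ => by positivity) (fun i => ?_)
      (hξ.mul_left (‖(c : H →L[ℂ] H)‖ ^ 2))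
    rw [← mul_pow]
    gcongr
    exact (c : H →L[ℂ] H).le_opNorm _
  · refine Summable.of_nonneg_of_le (fun _ => by positivity) (fun i => ?_)
      (hη.mul_left (‖ContinuousLinearMap.adjoint (b : H →L[ℂ] H)‖ ^ 2))
    rw [← mul_pow]
    gcongr
    exact (ContinuousLinearMap.adjoint (b : H →L[ℂ] H)).le_opNorm _

/-- A von Neumann algebra is considered with its weak* topology. -/
noncomputable instance (A : VonNeumannAlgebra H) : WeakStarTopology (Elt A) where
  top := ultraweak A
  continuous_mul := continuous_mul_mul A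

theorem weakStarContinuous_vec (A : VonNeumannAlgebra H) (ξ η : H) :
    WeakStarContinuous (fun a : Elt A => ⟪η, (a : H →L[ℂ] H) ξ⟫_ℂ) := by
  have h := continuous_seq A (fun i => if i = 0 then ξ else 0)
    (fun i => if i = 0 then η else 0)
    (summable_of_ne_finset_zero (s := {0}) (by intro b hb; simp at hb; simp [hb]))
    (summable_of_ne_finset_zero (s := {0}) (by intro b hb; simp at hb; simp [hb]))
  have e : (fun a : Elt A => ⟪η, (a : H →L[ℂ] H) ξ⟫_ℂ) = fun a : Elt A =>
      ∑' i : ℕ, ⟪if i = 0 then η else 0, (a : H →L[ℂ] H) (if i = 0 then ξ else 0)⟫_ℂ := by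
    funext a
    rw [tsum_eq_single 0 (by intro i hi; simp [hi])]
    simp
  rw [e]
  exact h

end VN

end Pool.Agent.Lib_helper54
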