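import Mathlib

set_option autoImplicit false

/-!
The matroid of a finite family of vectors over a field, together with the few
facts about it that the counterexamples of this folder need.
-/

namespace Pool.Agent.Lib_helper54

open Set Submodule

variable {α K W : Type*} [Field K] [AddCommGroup W] [Module K W]

/-- The augmentation property for linearly independent subfamilies. -/
theorem linIndep_aug [Finite α] (v : α → W) ⦃I J : Set α⦄
    (hI : LinearIndepOn K v I) (hJ : LinearIndepOn K v J) (hlt : I.ncard < J.ncard) :
    ∃ e ∈ J, e ∉ I ∧ LinearIndepOn K v (insert e I) := by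
  by_contra hcon
  push Not at hcon
  have hsub : span K (v '' J) ≤ span K (v '' I) := by
    rw [span_le]
    rintro _ ⟨e, heJ, rfl⟩
    by_cases heI : e ∈ I
    · exact subset_span ⟨e, heI, rfl⟩
    · by_contra hns
      exact hcon e heJ heI (hI.insert hns)
  have h1 := toENat_rank_span_set (R := K) hI
  have h2 := toENat_rank_span_set (R := K) hJ
  have h3 : Module.rank K (span K (v '' J)) ≤ Module.rank K (span K (v '' I)) :=
    Submodule.rank_mono hsub
  have h4 : J.encard ≤ I.encard := by
    rw [← h1, ← h2]
    exact Cardinal.toENat.monotone' h3
  have h5 : J.ncard ≤ I.ncard := by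
    rw [Set.ncard_def, Set.ncard_def]
    exact ENat.toNat_le_toNat h4 (by simp [Set.encard_eq_top_iff, Set.toFinite])
  omega

/-- The matroid on `α` whose independent sets are the linearly independent subfamilies of `v`. -/
def linMatroid [Finite α] (K : Type*) {W : Type*} [Field K] [AddCommGroup W] [Module K W]
    (v : α → W) : Matroid α :=
  (IndepMatroid.ofFinite (Set.finite_univ (α := α)) (fun I => LinearIndepOn K v I)
    (linearIndepOn_empty K v)
    (fun _ _ hJ hIJ => hJ.mono hIJ)
    (linIndep_aug v)
    (fun _ _ => Set.subset_univ _)).matroid

@[simp] theorem linMatroid_E [Finite α] (v : α → W) : (linMatroid K v).E = Set.univ := rfl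

@[simp] theorem linMatroid_indep [Finite α] (v : α → W) (I : Set α) :
    (linMatroid K v).Indep I ↔ LinearIndepOn K v I := by
  simp [linMatroid]

end Pool.Agent.Lib_helper54
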