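import Pool.Agent.Lib_helper54.HSModule

set_option autoImplicit false
set_option linter.unusedSectionVars false

open scoped InnerProductSpace ENNReal TensorProduct

namespace Pool.Agent.Lib_helper54

variable {H : Type} [NormedAddCommGroup H] [InnerProductSpace ℂ H] [CompleteSpace H]
variable {ι : Type} (b : HilbertBasis ι ℂ H)

theorem sum_norm_sq_le {n : ℕ} (y : Fin n → H →L[ℂ] H) (v : H) :
    ∑ j, ‖y j v‖ ^ 2 ≤ ‖∑ j, star (y j) * y j‖ * ‖v‖ ^ 2 := by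
  have h1 : ((∑ j, ‖y j v‖ ^ 2 : ℝ) : ℂ) = ⟪v, (∑ j, star (y j) * y j) v⟫_ℂ := by
    rw [sum_apply, inner_sum]
    push_cast
    refine Finset.sum_congr rfl fun j _ => ?_
    change _ = ⟪v, star (y j) (y j v)⟫_ℂ
    rw [ContinuousLinearMap.star_eq_adjoint,
      ContinuousLinearMap.adjoint_inner_right, inner_self_eq_norm_sq_to_K]
    rfl
  have h2 : ‖((∑ j, ‖y j v‖ ^ 2 : ℝ) : ℂ)‖ ≤ ‖∑ j, star (y j) * y j‖ * ‖v‖ ^ 2 := by
    rw [h1]
    refine (norm_inner_le_norm _ _).trans ?_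
    calc ‖v‖ * ‖(∑ j, star (y j) * y j) v‖ ≤ ‖v‖ * (‖∑ j, star (y j) * y j‖ * ‖v‖) := by
          gcongr; exact ContinuousLinearMap.le_opNorm _ _
      _ = ‖∑ j, star (y j) * y j‖ * ‖v‖ ^ 2 := by ring
  rw [Complex.norm_real, Real.norm_of_nonneg (by positivity)] at h2
  exact h2

theorem sum_norm_star_sq_le {n : ℕ} (x : Fin n → H →L[ℂ] H) (v : H) :
    ∑ j, ‖star (x j) v‖ ^ 2 ≤ ‖∑ j, x j * star (x j)‖ * ‖v‖ ^ 2 := by
  have h := sum_norm_sq_le (fun j => star (x j)) v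
  simpa using h

theorem sum_norm_hs_le {n : ℕ} (x : Fin n → H →L[ℂ] H) (w : HSp ι H) (ξ : H) (hξ : ‖ξ‖ = 1) :
    ∑ j, ‖op b w (x j ξ)‖ ^ 2 ≤ ‖∑ j, x j * star (x j)‖ * ‖w‖ ^ 2 := by
  have key : ENNReal.ofReal (∑ j, ‖op b w (x j ξ)‖ ^ 2)
      ≤ ENNReal.ofReal (‖∑ j, x j * star (x j)‖ * ‖w‖ ^ 2) := by
    rw [ENNReal.ofReal_sum_of_nonneg (fun _ _ => by positivity)]
    simp_rw [parseval b (op b w _)]
    rw [← Summable.tsum_finsetSum (fun _ _ => ENNReal.summable)]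
    have h1 : ∀ i, ∑ j, ENNReal.ofReal (‖⟪b i, op b w (x j ξ)⟫_ℂ‖ ^ 2)
        ≤ ENNReal.ofReal ‖∑ j, x j * star (x j)‖
          * ENNReal.ofReal (‖ContinuousLinearMap.adjoint (op b w) (b i)‖ ^ 2) := by
      intro i
      rw [← ENNReal.ofReal_sum_of_nonneg (fun _ _ => by positivity),
        ← ENNReal.ofReal_mul (by positivity)]
      refine ENNReal.ofReal_le_ofReal ?_
      refine le_trans ?_ (sum_norm_star_sq_le x (ContinuousLinearMap.adjoint (op b w) (b i)))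
      refine Finset.sum_le_sum fun j _ => ?_
      gcongr
      rw [← ContinuousLinearMap.adjoint_inner_left, ContinuousLinearMap.star_eq_adjoint,
        ← ContinuousLinearMap.adjoint_inner_left]
      refine (norm_inner_le_norm _ _).trans ?_
      rw [hξ, mul_one]
    refine (ENNReal.tsum_le_tsum h1).trans ?_
    rw [ENNReal.tsum_mul_left]
    change ENNReal.ofReal ‖∑ j, x j * star (x j)‖ * hs b (ContinuousLinearMap.adjoint (op b w)) ≤ _
    rw [hs_adjoint, hs_op, ← ENNReal.ofReal_mul (by positivity)]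
  rwa [ENNReal.ofReal_le_ofReal_iff (by positivity)] at key

section Form

variable (A : VonNeumannAlgebra H)

/-- The bilinear form `(x, y) ↦ ⟪η, y T x ξ⟫`. -/
noncomputable def formLin (T : H →L[ℂ] H) (ξ η : H) :
    (Elt A) ⊗[ℂ] (Elt A) →ₗ[ℂ] ℂ :=
  TensorProduct.lift (LinearMap.mk₂ ℂ
    (fun x y : (Elt A) => ⟪η, (y : H →L[ℂ] H) (T ((x : H →L[ℂ] H) ξ))⟫_ℂ)
    (fun x x' y => by simp)
    (fun c x y => by simp)
    (fun x y y' => by simp)
    (fun c x y => by simp))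

theorem formLin_tmul (T : H →L[ℂ] H) (ξ η : H) (x y : (Elt A)) :
    formLin A T ξ η (x ⊗ₜ y) = ⟪η, (y : H →L[ℂ] H) (T ((x : H →L[ℂ] H) ξ))⟫_ℂ := rfl

theorem norm_sum_coe {n : ℕ} (x : Fin n → (Elt A)) :
    ‖∑ j, x j * star (x j)‖
      = ‖∑ j, (x j : H →L[ℂ] H) * star (x j : H →L[ℂ] H)‖ := by
  have : ((∑ j, x j * star (x j) : (Elt A)) : H →L[ℂ] H)
      = ∑ j, (x j : H →L[ℂ] H) * star (x j : H →L[ℂ] H) := by
    rw [Elt.coe_sum]; rfl
  rw [← this]; rfl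

theorem norm_sum_coe' {n : ℕ} (y : Fin n → (Elt A)) :
    ‖∑ j, star (y j) * y j‖
      = ‖∑ j, star (y j : H →L[ℂ] H) * (y j : H →L[ℂ] H)‖ := by
  have : ((∑ j, star (y j) * y j : (Elt A)) : H →L[ℂ] H)
      = ∑ j, star (y j : H →L[ℂ] H) * (y j : H →L[ℂ] H) := by
    rw [Elt.coe_sum]; rfl
  rw [← this]; rfl

theorem norm_formLin_le (w : HSp ι H) (ξ η : H) (hξ : ‖ξ‖ = 1) (hη : ‖η‖ = 1)
    (htr : ∀ y : (Elt A),
      ‖(star (y : H →L[ℂ] H)) η‖ ≤ ‖(y : H →L[ℂ] H) η‖)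
    (u : (Elt A) ⊗[ℂ] (Elt A)) :
    ‖formLin A (op b w) ξ η u‖ ≤ ‖w‖ * haagerupNorm u := by
  refine le_of_forall_pos_le_add fun ε hε => ?_
  have hc : 0 < ‖w‖ + 1 := by positivity
  obtain ⟨n, x, y, rfl, hr⟩ := exists_rep_lt u
    (show haagerupNorm u < haagerupNorm u + ε / (‖w‖ + 1) by
      have := div_pos hε hc; linarith)
  set U := haagerupNorm (∑ j, x j ⊗ₜ[ℂ] y j)
  have h1 : ‖formLin A (op b w) ξ η (∑ j, x j ⊗ₜ[ℂ] y j)‖
      ≤ ∑ j, ‖(star (y j : H →L[ℂ] H)) η‖ * ‖op b w ((x j : H →L[ℂ] H) ξ)‖ := by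
    rw [map_sum]
    refine (norm_sum_le _ _).trans (Finset.sum_le_sum fun j _ => ?_)
    rw [formLin_tmul, ← ContinuousLinearMap.adjoint_inner_left]
    exact norm_inner_le_norm _ _
  have h2 : ∑ j, ‖(star (y j : H →L[ℂ] H)) η‖ * ‖op b w ((x j : H →L[ℂ] H) ξ)‖
      ≤ √(∑ j, ‖(star (y j : H →L[ℂ] H)) η‖ ^ 2)
        * √(∑ j, ‖op b w ((x j : H →L[ℂ] H) ξ)‖ ^ 2) :=
    Real.sum_mul_le_sqrt_mul_sqrt _ _ _
  have h3 : √(∑ j, ‖(star (y j : H →L[ℂ] H)) η‖ ^ 2) ≤ √‖∑ j, star (y j) * y j‖ := by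
    refine Real.sqrt_le_sqrt ?_
    rw [norm_sum_coe' A y]
    calc ∑ j, ‖(star (y j : H →L[ℂ] H)) η‖ ^ 2 ≤ ∑ j, ‖(y j : H →L[ℂ] H) η‖ ^ 2 := by
          refine Finset.sum_le_sum fun j _ => ?_
          gcongr
          exact htr (y j)
      _ ≤ ‖∑ j, star (y j : H →L[ℂ] H) * (y j : H →L[ℂ] H)‖ * ‖η‖ ^ 2 := sum_norm_sq_le _ _
      _ = _ := by rw [hη]; ring
  have h4 : √(∑ j, ‖op b w ((x j : H →L[ℂ] H) ξ)‖ ^ 2)
      ≤ √‖∑ j, x j * star (x j)‖ * ‖w‖ := by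
    rw [Real.sqrt_le_left (by positivity), mul_pow, Real.sq_sqrt (norm_nonneg _),
      norm_sum_coe A x]
    exact sum_norm_hs_le b _ w ξ hξ
  calc _ ≤ _ := h1
    _ ≤ _ := h2
    _ ≤ √‖∑ j, star (y j) * y j‖ * (√‖∑ j, x j * star (x j)‖ * ‖w‖) := by gcongr
    _ = ‖w‖ * (√‖∑ j, x j * star (x j)‖ * √‖∑ j, star (y j) * y j‖) := by ring
    _ ≤ ‖w‖ * (U + ε / (‖w‖ + 1)) := by gcongr
    _ = ‖w‖ * U + ε * (‖w‖ / (‖w‖ + 1)) := by ring
    _ ≤ ‖w‖ * U + ε * 1 := by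
        gcongr
        rw [div_le_one hc]; linarith
    _ = ‖w‖ * U + ε := by ring

end Form

/-! ### The abstract non-injectivity criterion -/

/-- Data on a von Neumann algebra `A` acting on a Hilbert space with basis `b` that prevents
`(A × A)^h_*` from being injective. -/
structure Obstruction (A : VonNeumannAlgebra H) where
  /-- an index -/
  i₀ : ι
  /-- a unit vector with a trace property -/
  η : H
  norm_η : ‖η‖ = 1
  trace : ∀ y : (Elt A), ‖(star (y : H →L[ℂ] H)) η‖ ≤ ‖(y : H →L[ℂ] H) η‖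
  /-- further indices -/
  idx : ℕ → ι
  idx_inj : Function.Injective idx
  /-- rank one operators in `A` -/
  x : ℕ → (Elt A)
  x_self : ∀ k, (x k : H →L[ℂ] H) (b i₀) = b (idx k)
  x_ne : ∀ k p, p ≠ i₀ → (x k : H →L[ℂ] H) (b p) = 0
  /-- a two-term decomposition of the identity -/
  M : Bool → H →L[ℂ] H
  M_sum : ∀ a : (Elt A),
    M true ((a : H →L[ℂ] H) η) + M false ((a : H →L[ℂ] H) η) = (a : H →L[ℂ] H) η
  /-- isometries in `A` -/
  y : Bool → ℕ → (Elt A)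
  y_isom : ∀ ε k, star (y ε k) * y ε k = 1
  /-- operators commuting with `A` in a weak sense -/
  R : Bool → ℕ → H →L[ℂ] H
  R_y : ∀ ε k (a : (Elt A)),
    R ε k ((a : H →L[ℂ] H) ((y ε k : H →L[ℂ] H) η)) = (a : H →L[ℂ] H) η
  disj : ∀ ε (n : ℕ) v, ∑ k : Fin n, ‖M ε (R ε k v)‖ ^ 2 ≤ ‖v‖ ^ 2

section Main

variable {A : VonNeumannAlgebra H}

/-- The functional `x ⊗ y ↦ ⟪η, y T_w x ξ⟫` on `A ⊗ A` with the Haagerup norm. -/
noncomputable def formDual (ξ η : H) (hξ : ‖ξ‖ = 1) (hη : ‖η‖ = 1)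
    (htr : ∀ y : (Elt A),
      ‖(star (y : H →L[ℂ] H)) η‖ ≤ ‖(y : H →L[ℂ] H) η‖) (w : HSp ι H) :
    StrongDual ℂ (HaagerupTensor (Elt A)) :=
  LinearMap.mkContinuous (formLin A (op b w) ξ η : HaagerupTensor (Elt A) →ₗ[ℂ] ℂ) ‖w‖
    (norm_formLin_le b A w ξ η hξ hη htr)

theorem norm_formDual_le (ξ η : H) (hξ : ‖ξ‖ = 1) (hη : ‖η‖ = 1)
    (htr : ∀ y : (Elt A),
      ‖(star (y : H →L[ℂ] H)) η‖ ≤ ‖(y : H →L[ℂ] H) η‖) (w : HSp ι H) :
    ‖formDual b ξ η hξ hη htr w‖ ≤ ‖w‖ :=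
  LinearMap.mkContinuous_norm_le _ (norm_nonneg _) _

theorem formDual_mem (ξ η : H) (hξ : ‖ξ‖ = 1) (hη : ‖η‖ = 1)
    (htr : ∀ y : (Elt A),
      ‖(star (y : H →L[ℂ] H)) η‖ ≤ ‖(y : H →L[ℂ] H) η‖) (w : HSp ι H) :
    formDual b ξ η hξ hη htr w ∈ normalHaagerupDual (Elt A) := by
  constructor
  · intro x
    exact weakStarContinuous_vec A (op b w ((x : H →L[ℂ] H) ξ)) η
  · intro y
    have h := weakStarContinuous_vec A ξ
      (ContinuousLinearMap.adjoint (((y : H →L[ℂ] H)) ∘L op b w) η)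
    have e : (fun x : (Elt A) => (formDual b ξ η hξ hη htr w) (tmulH x y))
        = fun x : (Elt A) =>
          ⟪ContinuousLinearMap.adjoint (((y : H →L[ℂ] H)) ∘L op b w) η, (x : H →L[ℂ] H) ξ⟫_ℂ := by
      funext x
      rw [ContinuousLinearMap.adjoint_inner_left]
      rfl
    rw [e]
    exact h

/-- `w ↦ (x ⊗ y ↦ ⟪η, y T_w x ξ⟫)` as a linear map into `(A × A)^h_*`. -/
noncomputable def formMapLin (ξ η : H) (hξ : ‖ξ‖ = 1) (hη : ‖η‖ = 1)
    (htr : ∀ y : (Elt A),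
      ‖(star (y : H →L[ℂ] H)) η‖ ≤ ‖(y : H →L[ℂ] H) η‖) :
    HSp ι H →ₗ[ℂ] NormalHaagerupDual (Elt A) where
  toFun w := ⟨formDual b ξ η hξ hη htr w, formDual_mem b ξ η hξ hη htr w⟩
  map_add' := fun w w' => Subtype.ext (dual_ext fun x y => by
    change ⟪η, (y : H →L[ℂ] H) (op b (w + w') ((x : H →L[ℂ] H) ξ))⟫_ℂ
      = ⟪η, (y : H →L[ℂ] H) (op b w ((x : H →L[ℂ] H) ξ))⟫_ℂ
        + ⟪η, (y : H →L[ℂ] H) (op b w' ((x : H →L[ℂ] H) ξ))⟫_ℂ
    rw [op_add, add_apply, map_add, inner_add_right])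
  map_smul' := fun c w => Subtype.ext (dual_ext fun x y => by
    change ⟪η, (y : H →L[ℂ] H) (op b (c • w) ((x : H →L[ℂ] H) ξ))⟫_ℂ
      = c * ⟪η, (y : H →L[ℂ] H) (op b w ((x : H →L[ℂ] H) ξ))⟫_ℂ
    rw [op_smul, smul_apply, map_smul, inner_smul_right])

theorem norm_formMapLin_le (ξ η : H) (hξ : ‖ξ‖ = 1) (hη : ‖η‖ = 1)
    (htr : ∀ y : (Elt A),
      ‖(star (y : H →L[ℂ] H)) η‖ ≤ ‖(y : H →L[ℂ] H) η‖) (w : HSp ι H) :
    ‖formMapLin b ξ η hξ hη htr w‖ ≤ 1 * ‖w‖ := by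
  rw [one_mul]
  exact norm_formDual_le b ξ η hξ hη htr w

/-- `w ↦ (x ⊗ y ↦ ⟪η, y T_w x ξ⟫)` as a bounded linear map into `(A × A)^h_*`. -/
noncomputable def formMap (ξ η : H) (hξ : ‖ξ‖ = 1) (hη : ‖η‖ = 1)
    (htr : ∀ y : (Elt A),
      ‖(star (y : H →L[ℂ] H)) η‖ ≤ ‖(y : H →L[ℂ] H) η‖) :
    HSp ι H →L[ℂ] NormalHaagerupDual (Elt A) :=
  LinearMap.mkContinuous (formMapLin b ξ η hξ hη htr) 1 (norm_formMapLin_le b ξ η hξ hη htr)

theorem formMap_apply (ξ η : H) (hξ : ‖ξ‖ = 1) (hη : ‖η‖ = 1)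
    (htr : ∀ y : (Elt A),
      ‖(star (y : H →L[ℂ] H)) η‖ ≤ ‖(y : H →L[ℂ] H) η‖) (w : HSp ι H)
    (x y : (Elt A)) :
    (formMap b ξ η hξ hη htr w).toDual (tmulH x y)
      = ⟪η, (y : H →L[ℂ] H) (op b w ((x : H →L[ℂ] H) ξ))⟫_ℂ := rfl

theorem norm_sum_single_sq [DecidableEq ι] {n : ℕ} {g : Fin n → ι} (hg : Function.Injective g)
    (v : Fin n → H) :
    ‖∑ k, lp.single (E := fun _ : ι => H) 2 (g k) (v k)‖ ^ 2 = ∑ k, ‖v k‖ ^ 2 := by
  have h := lp.norm_sum_single (E := fun _ : ι => H) (p := 2) (by norm_num)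
    (Function.extend g v 0) (Finset.univ.map ⟨g, hg⟩)
  simp only [Finset.sum_map, Function.Embedding.coeFn_mk, hg.extend_apply] at h
  simpa using h

/-- `a ↦ a η`. -/
noncomputable def ev (A : VonNeumannAlgebra H) (η : H) : (Elt A) →L[ℂ] H :=
  LinearMap.mkContinuous
    { toFun := fun a => (a : H →L[ℂ] H) η
      map_add' := fun _ _ => rfl
      map_smul' := fun _ _ => rfl } ‖η‖
    (fun a => by
      rw [mul_comm]
      exact (a : H →L[ℂ] H).le_opNorm η)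

theorem ev_apply (η : H) (a : (Elt A)) : ev A η a = (a : H →L[ℂ] H) η := rfl

theorem norm_sum_star_mul_le {n : ℕ} (y : Fin n → (Elt A))
    (hy : ∀ k, star (y k) * y k = 1) : ‖∑ k, star (y k) * y k‖ ≤ n := by
  simp only [hy]
  refine (norm_sum_le _ _).trans ?_
  have h1 : ‖(1 : (Elt A))‖ ≤ 1 := by
    change ‖(1 : H →L[ℂ] H)‖ ≤ 1
    exact ContinuousLinearMap.norm_id_le
  calc ∑ _k : Fin n, ‖(1 : (Elt A))‖ ≤ ∑ _k : Fin n, (1 : ℝ) :=
        Finset.sum_le_sum fun _ _ => h1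
    _ = n := by simp

theorem star_rankOne (x : H →L[ℂ] H) (i₀ i : ι) (h1 : x (b i₀) = b i)
    (h2 : ∀ p, p ≠ i₀ → x (b p) = 0) (v : H) : star x v = ⟪b i, v⟫_ℂ • b i₀ := by
  classical
  have h : ∀ p, ⟪b p, star x v⟫_ℂ = ⟪b p, ⟪b i, v⟫_ℂ • b i₀⟫_ℂ := by
    intro p
    rw [ContinuousLinearMap.star_eq_adjoint, ContinuousLinearMap.adjoint_inner_right,
      inner_smul_right, orthonormal_iff_ite.1 b.orthonormal]
    by_cases hp : p = i₀
    · subst hp; rw [h1]; simp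
    · rw [h2 p hp]; simp [hp]
  have h3 : b.repr (star x v) = b.repr (⟪b i, v⟫_ℂ • b i₀) := by
    ext p
    rw [b.repr_apply_apply, b.repr_apply_apply, h p]
  exact b.repr.injective h3

theorem norm_sum_mul_star_le {n : ℕ} (x : Fin n → (Elt A)) (i₀ : ι) (g : Fin n → ι)
    (hg : Function.Injective g) (h1 : ∀ k, (x k : H →L[ℂ] H) (b i₀) = b (g k))
    (h2 : ∀ k p, p ≠ i₀ → (x k : H →L[ℂ] H) (b p) = 0) : ‖∑ k, x k * star (x k)‖ ≤ 1 := by
  rw [norm_sum_coe]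
  refine ContinuousLinearMap.opNorm_le_bound _ zero_le_one fun v => ?_
  set T := ∑ j, (x j : H →L[ℂ] H) * star (x j : H →L[ℂ] H) with hT
  have hTv : ∀ v, T v = ∑ k, ⟪b (g k), v⟫_ℂ • b (g k) := by
    intro v
    rw [hT, sum_apply]
    refine Finset.sum_congr rfl fun k _ => ?_
    change (x k : H →L[ℂ] H) (star (x k : H →L[ℂ] H) v) = _
    rw [star_rankOne b _ i₀ (g k) (h1 k) (h2 k), map_smul, h1 k]
  have hon : Orthonormal ℂ (fun k => b (g k)) := b.orthonormal.comp g hg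
  have h3 : ‖T v‖ ^ 2 ≤ (1 * ‖v‖) ^ 2 := by
    have e : ‖T v‖ ^ 2 = ∑ k, ‖⟪b (g k), v⟫_ℂ‖ ^ 2 := by
      rw [@InnerProductSpace.norm_sq_eq_re_inner ℂ H, hTv, hon.inner_sum, map_sum]
      refine Finset.sum_congr rfl fun k _ => ?_
      rw [RCLike.conj_mul]
      norm_cast
    rw [e, one_mul]
    exact hon.sum_inner_products_le v
  exact (pow_le_pow_iff_left₀ (norm_nonneg _) (by positivity) two_ne_zero).1 h3

/-- The family `a ↦ (M R_k (a η))_{idx k}`. -/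
noncomputable def famG [DecidableEq ι] (O : Obstruction b A) (ε : Bool) (n : ℕ) :
    (Elt A) →L[ℂ] HSp ι H :=
  ∑ k : Fin n, (lp.singleContinuousLinearMap ℂ (fun _ : ι => H) 2 (O.idx k)) ∘L
    (O.M ε ∘L O.R ε k) ∘L ev A O.η

/-- The element `a ↦ (M (a η))_{i₀}`. -/
noncomputable def famK [DecidableEq ι] (O : Obstruction b A) (ε : Bool) :
    (Elt A) →L[ℂ] HSp ι H :=
  (lp.singleContinuousLinearMap ℂ (fun _ : ι => H) 2 O.i₀) ∘L O.M ε ∘L ev A O.η

theorem famG_apply [DecidableEq ι] (O : Obstruction b A) (ε : Bool) (n : ℕ)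
    (a : (Elt A)) :
    famG b O ε n a = ∑ k : Fin n, lp.single (E := fun _ : ι => H) 2 (O.idx k)
      (O.M ε (O.R ε k ((a : H →L[ℂ] H) O.η))) := by
  unfold famG
  rw [sum_apply]
  rfl

theorem famK_apply [DecidableEq ι] (O : Obstruction b A) (ε : Bool) (a : (Elt A)) :
    famK b O ε a = lp.single (E := fun _ : ι => H) 2 O.i₀ (O.M ε ((a : H →L[ℂ] H) O.η)) := rfl

theorem norm_famG_le [DecidableEq ι] (O : Obstruction b A) (ε : Bool) (n : ℕ) :
    ‖famG b O ε n‖ ≤ 1 := by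
  refine ContinuousLinearMap.opNorm_le_bound _ zero_le_one fun a => ?_
  have h1 : ‖famG b O ε n a‖ ^ 2 ≤ (1 * ‖a‖) ^ 2 := by
    rw [famG_apply, norm_sum_single_sq (g := fun k : Fin n => O.idx k)
      (O.idx_inj.comp Fin.val_injective)]
    refine (O.disj ε n _).trans ?_
    rw [one_mul]
    gcongr
    have := (a : H →L[ℂ] H).le_opNorm O.η
    rwa [O.norm_η, mul_one] at this
  exact (pow_le_pow_iff_left₀ (norm_nonneg _) (by positivity) two_ne_zero).1 h1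

theorem famG_coord [DecidableEq ι] (O : Obstruction b A) (ε : Bool) (n : ℕ)
    (a : (Elt A)) (k : Fin n) :
    famG b O ε n a (O.idx k) = O.M ε (O.R ε k ((a : H →L[ℂ] H) O.η)) := by
  rw [famG_apply, lp.coeFn_sum, Finset.sum_apply, Finset.sum_eq_single k]
  · rw [lp.single_apply_self]
  · intro l _ hl
    rw [lp.single_apply_ne]
    intro h
    exact hl (Fin.ext (O.idx_inj h)).symm
  · intro h
    exact absurd (Finset.mem_univ k) h

theorem formMap_left (ξ η : H) (hξ : ‖ξ‖ = 1) (hη : ‖η‖ = 1)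
    (htr : ∀ y : (Elt A),
      ‖(star (y : H →L[ℂ] H)) η‖ ≤ ‖(y : H →L[ℂ] H) η‖) (c : (Elt A)) (w : HSp ι H) :
    formMap b ξ η hξ hη htr ((hsBimodule b A).left c w)
      = BanachBimodule.left c (formMap b ξ η hξ hη htr w) := by
  refine Subtype.ext (dual_ext fun x y => ?_)
  refine (formMap_apply b ξ η hξ hη htr _ x y).trans ?_
  rw [hs_left_op]
  refine Eq.trans ?_ (left_apply c (formMap b ξ η hξ hη htr w) x y).symm
  exact (formMap_apply b ξ η hξ hη htr w x (y * c)).symm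

theorem formMap_right (ξ η : H) (hξ : ‖ξ‖ = 1) (hη : ‖η‖ = 1)
    (htr : ∀ y : (Elt A),
      ‖(star (y : H →L[ℂ] H)) η‖ ≤ ‖(y : H →L[ℂ] H) η‖) (c : (Elt A)) (w : HSp ι H) :
    formMap b ξ η hξ hη htr ((hsBimodule b A).right c w)
      = BanachBimodule.right c (formMap b ξ η hξ hη htr w) := by
  refine Subtype.ext (dual_ext fun x y => ?_)
  refine (formMap_apply b ξ η hξ hη htr _ x y).trans ?_
  rw [hs_right_op]
  refine Eq.trans ?_ (right_apply c (formMap b ξ η hξ hη htr w) x y).symm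
  exact (formMap_apply b ξ η hξ hη htr w (c * x) y).symm

/-- The two families are related by the bimodule actions. -/
theorem fam_rel [DecidableEq ι] (O : Obstruction b A) (ε : Bool) (n : ℕ) (k : Fin n)
    (a : (Elt A)) :
    (hsBimodule b A).right (O.x k) (famG b O ε n (a * O.y ε k)) = famK b O ε a := by
  refine op_injective b (ext_basis b fun p => ?_)
  rw [hs_right_op, op_basis, famK_apply]
  change op b (famG b O ε n (a * O.y ε k)) ((O.x k : H →L[ℂ] H) (b p)) = _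
  by_cases hp : p = O.i₀
  · subst hp
    rw [O.x_self, op_basis, famG_coord, lp.single_apply_self]
    have := O.R_y ε k a
    congr 1
  · rw [O.x_ne k p hp, map_zero, lp.single_apply_ne _ _ _ hp]

theorem fam_sum [DecidableEq ι] (O : Obstruction b A) (a : (Elt A)) :
    famK b O true a + famK b O false a
      = (hsBimodule b A).left a (lp.single (E := fun _ : ι => H) 2 O.i₀ O.η) := by
  refine op_injective b (ext_basis b fun p => ?_)
  rw [hs_left_op, op_basis, famK_apply, famK_apply, ← lp.single_add, O.M_sum]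
  change _ = (a : H →L[ℂ] H) (op b (lp.single (E := fun _ : ι => H) 2 O.i₀ O.η) (b p))
  rw [op_basis]
  by_cases hp : p = O.i₀
  · subst hp
    rw [lp.single_apply_self, lp.single_apply_self]
  · rw [lp.single_apply_ne _ _ _ hp, lp.single_apply_ne _ _ _ hp, map_zero]

/-- The canonical embedding `w ↦ (a ↦ a · w)`. -/
noncomputable def canon (A : VonNeumannAlgebra H) :
    HSp ι H →L[ℂ] ((Elt A) →L[ℂ] HSp ι H) :=
  (hsLeftMap b A).flip

/-- The bimodule of bounded maps from `A` to the Hilbert-Schmidt operators. -/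
@[reducible] noncomputable def hsMapBimodule (A : VonNeumannAlgebra H) :
    BanachBimodule (Elt A) (Elt A →L[ℂ] HSp ι H) :=
  @mapBimodule (Elt A) (HSp ι H) _ _ _ _ (hsBimodule b A) (hsRightMap b A) (fun _ _ => rfl)

theorem canon_hom (A : VonNeumannAlgebra H) :
    @IsBimoduleHom (Elt A) _ _ (HSp ι H) ((Elt A) →L[ℂ] HSp ι H) _ _
      (hsBimodule b A) _ _
      (hsMapBimodule b A) (canon b A) := by
  constructor
  · intro c w
    ext1 a
    change (hsBimodule b A).left a ((hsBimodule b A).left c w) = (hsBimodule b A).left (a * c) w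
    rw [(hsBimodule b A).left_mul]
  · intro c w
    ext1 a
    change (hsBimodule b A).left a ((hsBimodule b A).right c w)
      = (hsBimodule b A).right c ((hsBimodule b A).left a w)
    rw [(hsBimodule b A).left_right]

theorem final_bound {Z : Type} [NormedAddCommGroup Z] [NormedSpace ℂ Z]
    (ψ : Z →L[ℂ] NormalHaagerupDual (Elt A)) (G : ℕ → Z) (K : Z) (hG : ∀ n, ‖G n‖ ≤ 1)
    (x y : ℕ → (Elt A))
    (hx : ∀ n, ‖∑ k : Fin n, x k * star (x k)‖ ≤ 1)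
    (hy : ∀ n : ℕ, ‖∑ k : Fin n, star (y k) * y k‖ ≤ n)
    (heval : ∀ n (k : Fin n), (ψ (G n)).toDual (tmulH (x k) (y k)) = (ψ K).toDual (tmulH 1 1))
    (n : ℕ) :
    n * ‖(ψ K).toDual (tmulH 1 1)‖ ≤ ‖ψ‖ * √n := by
  have h1 : (n : ℂ) * (ψ K).toDual (tmulH 1 1)
      = (ψ (G n)).toDual (∑ k : Fin n, tmulH (x k) (y k)) := by
    rw [map_sum, Finset.sum_congr rfl fun k _ => heval n k]
    simp
  have h2 : ‖(n : ℂ) * (ψ K).toDual (tmulH 1 1)‖
      = n * ‖(ψ K).toDual (tmulH 1 1)‖ := by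
    rw [norm_mul, Complex.norm_natCast]
  rw [← h2, h1]
  have h3 := (ψ (G n)).toDual.le_opNorm (∑ k : Fin n, tmulH (x k) (y k))
  have h4 : ‖(ψ (G n)).toDual‖ ≤ ‖ψ‖ := by
    have h5 : ‖ψ (G n)‖ ≤ ‖ψ‖ * ‖G n‖ := ψ.le_opNorm _
    have h6 := hG n
    calc ‖(ψ (G n)).toDual‖ ≤ ‖ψ‖ * ‖G n‖ := h5
      _ ≤ ‖ψ‖ * 1 := by gcongr
      _ = ‖ψ‖ := mul_one _
  have h7 : ‖∑ k : Fin n, tmulH (x k) (y k)‖ ≤ √n := by
    refine (norm_sum_tmulH_le (fun k : Fin n => x k) (fun k : Fin n => y k)).trans ?_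
    have h8 : √‖∑ k : Fin n, x k * star (x k)‖ ≤ 1 :=
      (Real.sqrt_le_sqrt (hx n)).trans_eq Real.sqrt_one
    have h9 : √‖∑ k : Fin n, star (y k) * y k‖ ≤ √n :=
      Real.sqrt_le_sqrt (hy n)
    calc _ ≤ 1 * √(n : ℝ) := by gcongr
      _ = √n := one_mul _
  calc _ ≤ _ := h3
    _ ≤ ‖ψ‖ * √n := by gcongr

theorem eq_zero_of_bound {t c : ℝ} (ht : 0 ≤ t) (hc : 0 ≤ c)
    (h : ∀ n : ℕ, n * t ≤ c * √n) : t = 0 := by
  by_contra hne
  have hpos : 0 < t := lt_of_le_of_ne ht (Ne.symm hne)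
  obtain ⟨m, hm⟩ := exists_nat_gt (c / t)
  have hm0 : (0 : ℝ) < m := lt_of_le_of_lt (by positivity) hm
  have h' := h (m * m)
  push_cast at h'
  rw [Real.sqrt_mul_self hm0.le] at h'
  rw [div_lt_iff₀ hpos] at hm
  have h2 : (m : ℝ) * (m * t) ≤ m * c := by
    calc _ = (m : ℝ) * m * t := by ring
      _ ≤ c * m := h'
      _ = m * c := mul_comm _ _
  have := le_of_mul_le_mul_left h2 hm0
  linarith

/-- The abstract non-injectivity criterion. -/
theorem not_injective (O : Obstruction b A) :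
    ¬ InjectiveBimodule (Elt A) (NormalHaagerupDual (Elt A)) := by
  classical
  intro hinj
  have hξ : ‖b O.i₀‖ = 1 := b.orthonormal.1 _
  obtain ⟨ψ, hψhom, hψ⟩ := @hinj (HSp ι H) ((Elt A) →L[ℂ] HSp ι H) _ _ _
    (hsBimodule b A) _ _ _
    (hsMapBimodule b A) (canon b A)
    (formMap b (b O.i₀) O.η hξ O.norm_η O.trace) (canon_hom b A)
    ⟨ContinuousLinearMap.apply ℂ _ 1, fun w => (hsBimodule b A).left_one w⟩
    ⟨formMap_left b (b O.i₀) O.η hξ O.norm_η O.trace,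
      formMap_right b (b O.i₀) O.η hξ O.norm_η O.trace⟩
  -- evaluation of `ψ (G)` on `x k ⊗ y k`
  have heval : ∀ ε n (k : Fin n),
      (ψ (famG b O ε n)).toDual (tmulH (O.x k) (O.y ε k)) = (ψ (famK b O ε)).toDual (tmulH 1 1) := by
    intro ε n k
    have hrel : (hsMapBimodule b A).left (O.y ε k)
        ((hsMapBimodule b A).right (O.x k)
          (famG b O ε n)) = famK b O ε := by
      ext1 a
      exact fam_rel b O ε n k a
    have h1 := hψhom.1 (O.y ε k)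
      ((hsMapBimodule b A).right (O.x k)
          (famG b O ε n))
    have h2 := hψhom.2 (O.x k) (famG b O ε n)
    rw [hrel, h2] at h1
    rw [h1, left_apply, right_apply, mul_one, one_mul]
  have hzero : ∀ ε, (ψ (famK b O ε)).toDual (tmulH 1 1) = 0 := by
    intro ε
    have h := eq_zero_of_bound (norm_nonneg _) (norm_nonneg ψ)
      (final_bound ψ (famG b O ε) (famK b O ε) (norm_famG_le b O ε) O.x (O.y ε)
        (fun n => norm_sum_mul_star_le b (fun k : Fin n => O.x k) O.i₀ (fun k => O.idx k)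
          (O.idx_inj.comp Fin.val_injective) (fun k => O.x_self k) (fun k => O.x_ne k))
        (fun n => norm_sum_star_mul_le (fun k : Fin n => O.y ε k) (fun k => O.y_isom ε k))
        (heval ε))
    exact norm_eq_zero.1 h
  -- the contradiction
  have hsum : famK b O true + famK b O false
      = canon b A (lp.single (E := fun _ : ι => H) 2 O.i₀ O.η) := by
    ext1 a
    exact fam_sum b O a
  have h1 : (ψ (famK b O true + famK b O false)).toDual (tmulH 1 1) = 0 := by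
    rw [map_add]
    change (ψ (famK b O true)).toDual (tmulH 1 1) + (ψ (famK b O false)).toDual (tmulH 1 1) = 0
    rw [hzero, hzero, add_zero]
  rw [hsum, hψ, formMap_apply] at h1
  change ⟪O.η, op b (lp.single (E := fun _ : ι => H) 2 O.i₀ O.η) (b O.i₀)⟫_ℂ = 0 at h1
  rw [op_basis, lp.single_apply_self, inner_self_eq_norm_sq_to_K, O.norm_η] at h1
  norm_num at h1

end Main

end Pool.Agent.Lib_helper54
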