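import Pool.Agent.Lib_helper16.RA.P27

/-!
MP_20f8ce_gt : the Euler characteristic of the 27-sided polytope.
-/

open Finset

namespace Pool.Agent.RA

section chiOn
variable {ι : Type} [Fintype ι] [DecidableEq ι] (G : ι → ι → ℝ)

open Classical in
/-- alternating sum over the cliques inside `V` -/
noncomputable def chiOn (V : Finset ι) : ℝ :=
  ∑ s ∈ (cliques G).filter (fun s => s ⊆ V), (-1 / 2 : ℝ) ^ s.card

lemma chiOn_univ : chiOn G univ = chi G := by
  simp [chiOn, chi]

lemma chiOn_empty : chiOn G ∅ = 1 := by
  classical
  have h : (cliques G).filter (fun s => s ⊆ ∅) = {∅} := by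
    ext s
    simp only [mem_filter, subset_empty, mem_singleton]
    constructor
    · exact fun h => h.2
    · rintro rfl
      refine ⟨?_, rfl⟩
      simp [cliques, IsCl]
  rw [chiOn, h, sum_singleton, card_empty, pow_zero]

open Classical in
lemma chiOn_insert (hsymm : ∀ i j, G i j = G j i) {v : ι} {V : Finset ι} (hv : v ∉ V) :
    chiOn G (insert v V) = chiOn G V - 1 / 2 * chiOn G (V.filter (fun j => G v j = 0)) := by
  rw [chiOn, ← sum_filter_add_sum_filter_not _ (fun s => v ∈ s), add_comm, sub_eq_add_neg]
  congr 1
  · rw [chiOn]
    congr 1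
    ext s
    simp only [mem_filter]
    constructor
    · rintro ⟨⟨h1, h2⟩, h3⟩
      exact ⟨h1, (subset_insert_iff_of_notMem h3).1 h2⟩
    · rintro ⟨h1, h2⟩
      exact ⟨⟨h1, h2.trans (subset_insert _ _)⟩, fun h => hv (h2 h)⟩
  · have h1 : ((cliques G).filter (fun s => s ⊆ insert v V)).filter (fun s => v ∈ s)
        = ((cliques G).filter (fun s => s ⊆ V.filter (fun j => G v j = 0))).image
          (fun s => insert v s) := by
      ext s
      simp only [mem_filter, mem_image, cliques, mem_univ, true_and]
      constructor
      · rintro ⟨⟨h1, h2⟩, h3⟩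
        refine ⟨s.erase v, ⟨?_, ?_⟩, insert_erase h3⟩
        · exact fun i hi j hj hij => h1 i (mem_of_mem_erase hi) j (mem_of_mem_erase hj) hij
        · intro j hj
          rw [mem_filter]
          have hjv : j ≠ v := ne_of_mem_erase hj
          have hjs : j ∈ s := mem_of_mem_erase hj
          refine ⟨?_, h1 v h3 j hjs hjv.symm⟩
          rcases mem_insert.1 (h2 hjs) with h | h
          · exact absurd h hjv
          · exact h
      · rintro ⟨t, ⟨h1, h2⟩, rfl⟩
        have h3 : ∀ j ∈ t, j ∈ V ∧ G v j = 0 := fun j hj => mem_filter.1 (h2 hj)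
        refine ⟨⟨?_, ?_⟩, mem_insert_self _ _⟩
        · intro i hi j hj hij
          rw [mem_insert] at hi hj
          rcases hi with rfl | hi
          · rcases hj with rfl | hj
            · exact absurd rfl hij
            · exact (h3 j hj).2
          · rcases hj with rfl | hj
            · rw [hsymm]; exact (h3 i hi).2
            · exact h1 i hi j hj hij
        · exact insert_subset_insert _ (fun j hj => (h3 j hj).1)
    have hmem : ∀ t ∈ (cliques G).filter (fun s => s ⊆ V.filter (fun j => G v j = 0)), v ∉ t := by
      intro t ht hvt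
      rw [mem_filter] at ht
      exact hv (mem_filter.1 (ht.2 hvt)).1
    rw [h1, sum_image, chiOn, ← neg_mul, mul_sum]
    · refine sum_congr rfl fun t ht => ?_
      rw [card_insert_of_notMem (hmem t ht), pow_succ]
      ring
    · intro a ha b hb hab
      have h2 : (insert v a).erase v = (insert v b).erase v := by
        have : insert v a = insert v b := hab
        rw [this]
      rwa [erase_insert (hmem a ha), erase_insert (hmem b hb)] at h2

end chiOn

/-- neighbourhoods in the orthogonality graph, as bit masks -/
def nb27L : List ℕ := [4192318, 6260669, 10254203, 18050807, 34266607, 67484639, 125861820,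
  121868154, 114071286, 97854958, 64635870, 119795961, 111995253, 95771245, 62536797, 107944371,
  91663019, 58313883, 83473191, 49730839, 32466447, 132118529, 129992578, 125597508, 116616904,
  99278288, 65387488]

/-- neighbourhood of the `i`-th side -/
def nb27 (i : ℕ) : ℕ := nb27L.getD i 0

/-- `2 ^ i` times the alternating clique sum of the sides `< i` in the mask `m` -/
def F27 : ℕ → ℕ → ℤ
  | 0, _ => 1
  | i + 1, m => 2 * F27 i m - cond (m.testBit i) (F27 i (m &&& nb27 i)) 0

lemma F27_val : F27 27 134217727 = -16777216 := by decide +kernel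

lemma nb27_spec : ∀ i j : Fin 27, g27 i j = 0 ↔ (nb27 i.val).testBit j.val = true := by
  decide +kernel

lemma full_testBit : ∀ j : Fin 27, (134217727 : ℕ).testBit j.val = true := by decide +kernel

/-- the sides `< i` in the mask `m` -/
def S27 (i m : ℕ) : Finset (Fin 27) := univ.filter (fun j => j.val < i ∧ m.testBit j.val = true)

lemma g27_symm (i j : Fin 27) : g27 i j = g27 j i := by
  simp only [g27, mul_comm]

lemma F27_spec (i : ℕ) (hi : i ≤ 27) : ∀ m : ℕ,
    2 ^ i * chiOn (fun i j : Fin 27 => (g27 i j : ℝ)) (S27 i m) = (F27 i m : ℝ) := by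
  classical
  induction i with
  | zero =>
    intro m
    have h : S27 0 m = ∅ := by
      ext j
      simp [S27]
    rw [h, chiOn_empty]
    simp [F27]
  | succ i ih =>
    intro m
    have ih' := ih (by omega)
    have hi' : i < 27 := by omega
    by_cases hb : m.testBit i = true
    · have h1 : S27 (i + 1) m = insert ⟨i, hi'⟩ (S27 i m) := by
        ext j
        simp only [S27, mem_filter, mem_univ, true_and, mem_insert, Fin.ext_iff]
        constructor
        · rintro ⟨h1, h2⟩
          rcases Nat.lt_succ_iff_lt_or_eq.1 h1 with h | h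
          · exact Or.inr ⟨h, h2⟩
          · exact Or.inl h
        · rintro (h | ⟨h1, h2⟩)
          · exact ⟨by omega, by rw [h]; exact hb⟩
          · exact ⟨by omega, h2⟩
      have h2 : (⟨i, hi'⟩ : Fin 27) ∉ S27 i m := by simp [S27]
      have h3 : (S27 i m).filter (fun j => (g27 ⟨i, hi'⟩ j : ℝ) = 0) = S27 i (m &&& nb27 i) := by
        ext j
        simp only [S27, mem_filter, mem_univ, true_and, Nat.testBit_land, Bool.and_eq_true,
          Int.cast_eq_zero]
        rw [nb27_spec]
        tauto
      rw [h1, chiOn_insert _ (fun i j => by simp only [g27_symm i j]) h2, h3]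
      have h4 := ih' m
      have h5 := ih' (m &&& nb27 i)
      simp only [F27, hb, cond_true]
      push_cast
      rw [← h4, ← h5]
      ring
    · have h1 : S27 (i + 1) m = S27 i m := by
        ext j
        simp only [S27, mem_filter, mem_univ, true_and]
        constructor
        · rintro ⟨h1, h2⟩
          rcases Nat.lt_succ_iff_lt_or_eq.1 h1 with h | h
          · exact ⟨h, h2⟩
          · rw [h] at h2; exact absurd h2 hb
        · rintro ⟨h1, h2⟩
          exact ⟨by omega, h2⟩
      have hb' : m.testBit i = false := by simpa using hb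
      rw [h1]
      have h4 := ih' m
      simp only [F27, hb', cond_false]
      push_cast
      rw [← h4]
      ring

theorem chi27 : chi (fun i j : Fin 27 => (g27 i j : ℝ)) = -1 / 8 := by
  have h1 := F27_spec 27 le_rfl 134217727
  have h2 : S27 27 134217727 = univ := by
    ext j
    simp [S27, full_testBit j]
  rw [h2, chiOn_univ, F27_val] at h1
  norm_num at h1
  linarith

end Pool.Agent.RA
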