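import Pool.Agent.Lib_helper54.RAOrthant
import Pool.Agent.Lib_helper61.RACone
import Pool.Agent.Lib_helper85.RACusp3

/-!
MP_20f8ce_gt : the Gauss-Bonnet formula for right-angled polytopes of even dimension.
-/

open MeasureTheory Finset Filter Topology

namespace Pool.Agent.RA

namespace GaussBonnet
variable {n : ℕ}

attribute [local instance] Orthant.isAddHaar

/-- the regularised oscillating Gaussian -/
noncomputable def F (δ : ℝ) (x : M n) : ℂ :=
  Complex.exp (Complex.I * (B x x : ℝ) - (δ * E2 x : ℝ))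

lemma continuous_F (δ : ℝ) : Continuous (F (n := n) δ) := by
  unfold F
  have := continuous_E2 (n := n)
  have := continuous_Q (n := n)
  fun_prop

lemma norm_F (δ : ℝ) (x : M n) : ‖F δ x‖ = Real.exp (-(δ * E2 x)) := by
  rw [F, Complex.norm_exp]
  congr 1
  simp

lemma integrable_F (δ : ℝ) (hδ : 0 < δ) : Integrable (F (n := n) δ) := by
  refine (Orthant.integrable_gauss (n := n) δ hδ).mono' (continuous_F δ).aestronglyMeasurable ?_
  exact ae_of_all _ fun x => (norm_F δ x).le

lemma F_neg (δ : ℝ) (x : M n) : F δ (-x) = F δ x := by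
  have h1 : E2 (-x) = E2 x := by
    have := E2_smul (-1) x
    simpa using this
  rw [F, F, h1, B_neg_left, B_neg_right, neg_neg]

end GaussBonnet

open GaussBonnet in
attribute [local instance] Orthant.isAddHaar in
theorem gauss_bonnet_of {n : ℕ} {ι : Type} [Fintype ι] [DecidableEq ι] (R : RASys n ι)
    (hn : 2 ≤ n) (hev : Even n)
    (hframe : ∀ f : M n, f ≠ 0 → B f f = 0 → f ∈ R.K →
      ∃ (E E' : Fin (n - 1) → ι) (a : Fin (n - 1) → ℝ),
        (∀ k, 0 < a k) ∧ (∀ k, R.e (E' k) = a k • f - R.e (E k)) ∧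
        (∀ k, B f (R.e (E k)) = 0) ∧ (∀ k l, k ≠ l → B (R.e (E k)) (R.e (E l)) = 0) ∧
        (∀ i, B f (R.e i) = 0 ↔ ∃ k, i = E k ∨ i = E' k))
    (hiv : ∀ v ∈ iv R.G, ∃ f : M n, f ≠ 0 ∧ B f f = 0 ∧ f ∈ R.K ∧ ∀ i, i ∈ v ↔ B f (R.e i) = 0)
    (heg : ∀ x : M n, (∀ i, B x (R.e i) ≠ 0) →
      (-1 : ℤ) ^ n * ∑ s ∈ (cliques R.G).filter (fun s => Disjoint s (R.pos x)),
          (-1 : ℤ) ^ s.card
        + ((iv R.G).filter (fun v => Disjoint v (R.pos x))).card
      = (if R.pos x = ∅ then 1 else 0) + (-1 : ℤ) ^ n * (if R.pos x = univ then 1 else 0))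
    (hint : IntegrableOn (fun x => Real.exp (B x x)) R.K) :
    2 * ∫ x in R.K, Real.exp (B x x)
      = (-1) ^ (n / 2) * Real.pi ^ (((n : ℝ) + 1) / 2) * chi R.G := by
  classical
  set T : Finset ι → Set (M n) := fun s => {x | ∀ i ∈ s, B x (R.e i) ≤ 0} with hT
  have hTm : ∀ s, MeasurableSet (T s) := by
    intro s
    have : T s = ⋂ i ∈ s, {x : M n | B x (R.e i) ≤ 0} := by ext x; simp [hT]
    rw [this]
    exact MeasurableSet.biInter s.countable_toSet fun i _ =>
      (isClosed_le (continuous_B_left _) continuous_const).measurableSet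
  have hTpos : ∀ s x, x ∈ T s ↔ Disjoint s (R.pos x) := by
    intro s x
    simp only [hT, Set.mem_ofPred_eq, disjoint_left, RASys.pos, mem_filter, mem_univ, true_and,
      not_lt]
  have hKpos : ∀ x, x ∈ R.K ↔ R.pos x = ∅ := by
    intro x
    simp only [RASys.K, Set.mem_ofPred_eq, RASys.pos, filter_eq_empty_iff, mem_univ,
      forall_true_left, not_lt]
  have hKneg : ∀ x, (∀ i, B x (R.e i) ≠ 0) → (-x ∈ R.K ↔ R.pos x = univ) := by
    intro x hx
    simp only [RASys.K, Set.mem_ofPred_eq, RASys.pos, filter_eq_self, mem_univ,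
      forall_true_left, B_neg_left, Left.neg_nonpos_iff]
    exact forall_congr' fun i => ⟨fun h => lt_of_le_of_ne h (Ne.symm (hx i)), fun h => h.le⟩
  have hae : ∀ᵐ x : M n, ∀ i, B x (R.e i) ≠ 0 := by
    rw [ae_all_iff]
    intro i
    have h1 := Orthant.volume_hyperplane (R.e i) (by rw [R.unit]; norm_num)
    rw [ae_iff]
    simpa using h1
  have hnegm : MeasurableSet {x : M n | -x ∈ R.K} := by
    exact R.measurableSet_K.preimage measurable_neg
  -- the integrated identity
  have key : ∀ δ : ℝ, 0 < δ →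
      (∑ s ∈ cliques R.G, (-1 : ℂ) ^ s.card * ∫ x in T s, F δ x) + ∑ v ∈ iv R.G, ∫ x in T v, F δ x
        = 2 * ∫ x in R.K, F δ x := by
    intro δ hδ
    have hF := integrable_F (n := n) δ hδ
    have h1 : (∫ x, ((∑ s ∈ cliques R.G, (-1 : ℂ) ^ s.card * (T s).indicator (F δ) x)
        + ∑ v ∈ iv R.G, (T v).indicator (F δ) x))
        = ∫ x, ((R.K).indicator (F δ) x + ({x : M n | -x ∈ R.K}).indicator (F δ) x) := by
      refine integral_congr_ae ?_
      filter_upwards [hae] with x hx
      have h2 := heg x hx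
      rw [hev.neg_one_pow, one_mul, one_mul] at h2
      have h3 : ((∑ s ∈ (cliques R.G).filter (fun s => Disjoint s (R.pos x)), (-1 : ℂ) ^ s.card)
        + ((iv R.G).filter (fun v => Disjoint v (R.pos x))).card : ℂ)
        = (if R.pos x = ∅ then 1 else 0) + (if R.pos x = univ then 1 else 0) := by
        exact_mod_cast congrArg (fun t : ℤ => (t : ℂ)) h2
      have h4 : (∑ s ∈ cliques R.G, (-1 : ℂ) ^ s.card * (T s).indicator (F δ) x)
          = (∑ s ∈ (cliques R.G).filter (fun s => Disjoint s (R.pos x)), (-1 : ℂ) ^ s.card)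
            * F δ x := by
        rw [sum_mul, sum_filter]
        refine sum_congr rfl fun s _ => ?_
        by_cases hs : Disjoint s (R.pos x)
        · rw [if_pos hs, Set.indicator_of_mem ((hTpos s x).2 hs)]
        · rw [if_neg hs, Set.indicator_of_notMem (fun h => hs ((hTpos s x).1 h)), mul_zero]
      have h5 : (∑ v ∈ iv R.G, (T v).indicator (F δ) x)
          = (((iv R.G).filter (fun v => Disjoint v (R.pos x))).card : ℂ) * F δ x := by
        rw [card_filter]
        push_cast
        rw [sum_mul]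
        refine sum_congr rfl fun v _ => ?_
        by_cases hv : Disjoint v (R.pos x)
        · rw [if_pos hv, Set.indicator_of_mem ((hTpos v x).2 hv), one_mul]
        · rw [if_neg hv, Set.indicator_of_notMem (fun h => hv ((hTpos v x).1 h)), zero_mul]
      have h6 : (R.K).indicator (F δ) x = (if R.pos x = ∅ then 1 else 0) * F δ x := by
        by_cases h : R.pos x = ∅
        · rw [if_pos h, Set.indicator_of_mem ((hKpos x).2 h), one_mul]
        · rw [if_neg h, Set.indicator_of_notMem (fun h' => h ((hKpos x).1 h')), zero_mul]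
      have h7 : ({x : M n | -x ∈ R.K}).indicator (F δ) x
          = (if R.pos x = univ then 1 else 0) * F δ x := by
        by_cases h : R.pos x = univ
        · rw [if_pos h, Set.indicator_of_mem (show x ∈ {x : M n | -x ∈ R.K} from
            (hKneg x hx).2 h), one_mul]
        · rw [if_neg h, Set.indicator_of_notMem (show x ∉ {x : M n | -x ∈ R.K} from
            fun h' => h ((hKneg x hx).1 h')), zero_mul]
      rw [h4, h5, h6, h7, ← add_mul, ← add_mul, h3]
    have hneg : ∫ x, ({x : M n | -x ∈ R.K}).indicator (F δ) x = ∫ x in R.K, F δ x := by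
      rw [← integral_indicator R.measurableSet_K,
        ← integral_neg_eq_self (fun x => (R.K).indicator (F δ) x)]
      congr 1
      funext x
      by_cases hx : -x ∈ R.K
      · rw [Set.indicator_of_mem hx, Set.indicator_of_mem (show x ∈ {x : M n | -x ∈ R.K} from hx),
          F_neg]
      · rw [Set.indicator_of_notMem hx,
          Set.indicator_of_notMem (show x ∉ {x : M n | -x ∈ R.K} from hx)]
    rw [integral_add, integral_add, hneg, integral_indicator R.measurableSet_K, ← two_mul] at h1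
    · rw [integral_finsetSum, integral_finsetSum] at h1
      · rw [← h1]
        congr 1
        · refine sum_congr rfl fun s _ => ?_
          rw [integral_const_mul, integral_indicator (hTm s)]
        · refine sum_congr rfl fun v _ => ?_
          rw [integral_indicator (hTm v)]
      · exact fun v _ => hF.indicator (hTm v)
      · exact fun s _ => (hF.indicator (hTm s)).const_mul _
    · exact hF.indicator R.measurableSet_K
    · exact hF.indicator hnegm
    · exact integrable_finsetSum _ fun s _ => (hF.indicator (hTm s)).const_mul _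
    · exact integrable_finsetSum _ fun v _ => hF.indicator (hTm v)
  -- limits
  have hlimT : ∀ s ∈ cliques R.G, Tendsto (fun δ : ℝ => ∫ x in T s, F δ x) (𝓝[>] 0)
      (𝓝 (Complex.exp (Complex.I * (Real.pi * ((n : ℝ) - 1) / 4 : ℝ)) *
        ((Real.pi ^ (((n : ℝ) + 1) / 2) * (1 / 2) ^ s.card : ℝ) : ℂ))) := by
    intro s hs
    have hs' : IsCl R.G s := by simpa [cliques] using hs
    -- a timelike vector orthogonal to the clique
    set y : M n := R.p - ∑ i ∈ s, B R.p (R.e i) • R.e i with hy
    have hye : ∀ j ∈ s, B y (R.e j) = 0 := by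
      intro j hj
      rw [hy, B_sub_left, B_sum_left, sum_eq_single_of_mem j hj]
      · rw [B_smul_left, R.unit, mul_one, sub_self]
      · intro i hi hij
        rw [B_smul_left, show B (R.e i) (R.e j) = 0 from hs' i hi j hj hij, mul_zero]
    have hyy : B y y < 0 := by
      have h0 : ∀ z, B y z = B R.p z - ∑ i ∈ s, B R.p (R.e i) * B (R.e i) z := by
        intro z
        rw [hy, B_sub_left, B_sum_left]
        simp only [B_smul_left]
      have h1 : B y y = B R.p y := by
        rw [h0, sum_eq_zero, sub_zero]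
        intro i hi
        rw [B_comm (R.e i), hye i hi, mul_zero]
      rw [h1, hy, B_sub_right, B_sum_right]
      have h2 : 0 ≤ ∑ i ∈ s, B R.p (B R.p (R.e i) • R.e i) := by
        refine sum_nonneg fun i _ => ?_
        rw [B_smul_right]
        exact mul_self_nonneg _
      have := R.ptime
      linarith
    set r : ℝ := Real.sqrt (-B y y) with hr
    have hr0 : 0 < r := Real.sqrt_pos.2 (by linarith)
    have hr2 : r ^ 2 = -B y y := Real.sq_sqrt (by linarith)
    refine tendsto_orthant s R.e (r⁻¹ • y) (fun i _ => R.unit i) (fun i hi j hj hij => hs' i hi j hj hij)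
      ?_ ?_
    · rw [B_smul_left, B_smul_right]
      have : B y y = -r ^ 2 := by linarith
      rw [this]
      field_simp
    · intro i hi
      rw [B_smul_left, hye i hi, mul_zero]
  have hlimV : ∀ v ∈ iv R.G, Tendsto (fun δ : ℝ => ∫ x in T v, F δ x) (𝓝[>] 0) (𝓝 0) := by
    intro v hv
    obtain ⟨f, hf0, hff, hfK, hfv⟩ := hiv v hv
    obtain ⟨E, E', a, ha, hE', hfE, horth, hall⟩ := hframe f hf0 hff hfK
    have h1 := tendsto_cusp hn f hf0 hff (fun k => R.e (E k)) a ha (fun k => R.unit _) horth hfE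
    have h2 : T v = {x : M n | ∀ k, B x (R.e (E k)) ≤ 0 ∧ B x (a k • f - R.e (E k)) ≤ 0} := by
      ext x
      simp only [hT, Set.mem_ofPred_eq]
      constructor
      · intro h k
        rw [← hE']
        refine ⟨h _ ?_, h _ ?_⟩
        · rw [hfv, hall]; exact ⟨k, Or.inl rfl⟩
        · rw [hfv, hall]; exact ⟨k, Or.inr rfl⟩
      · intro h i hi
        rw [hfv, hall] at hi
        obtain ⟨k, rfl | rfl⟩ := hi
        · exact (h k).1
        · rw [hE']; exact (h k).2
    rw [h2]
    exact h1
  have hlimK : Tendsto (fun δ : ℝ => ∫ x in R.K, F δ x) (𝓝[>] 0)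
      (𝓝 (Complex.exp (-(Complex.I * (Real.pi * ((n : ℝ) + 1) / 4 : ℝ))) *
        ((∫ x in R.K, Real.exp (B x x) : ℝ) : ℂ))) := by
    refine tendsto_cone R.K R.measurableSet_K ?_ ?_ hint
    · intro x hx t ht i
      rw [B_smul_left]
      exact mul_nonpos_of_nonneg_of_nonpos ht.le (hx i)
    · exact fun x hx => R.cone x hx
  have hL := (tendsto_finsetSum (cliques R.G)
    (fun s hs => (hlimT s hs).const_mul ((-1 : ℂ) ^ s.card))).add
    (tendsto_finsetSum (iv R.G) (fun v hv => hlimV v hv))
  have hR := hlimK.const_mul 2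
  have hL' := hR.congr' (f₂ := fun δ => (∑ s ∈ cliques R.G, (-1 : ℂ) ^ s.card * ∫ x in T s, F δ x)
      + ∑ v ∈ iv R.G, ∫ x in T v, F δ x) (by
    filter_upwards [self_mem_nhdsWithin] with δ hδ
    exact (key δ hδ).symm)
  have huniq := tendsto_nhds_unique hL hL'
  set V : ℝ := ∫ x in R.K, Real.exp (B x x) with hV
  have h1 : (∑ s ∈ cliques R.G, (-1 : ℂ) ^ s.card *
      (Complex.exp (Complex.I * (Real.pi * ((n : ℝ) - 1) / 4 : ℝ)) *
        ((Real.pi ^ (((n : ℝ) + 1) / 2) * (1 / 2) ^ s.card : ℝ) : ℂ)))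
      = Complex.exp (Complex.I * (Real.pi * ((n : ℝ) - 1) / 4 : ℝ)) *
        ((Real.pi ^ (((n : ℝ) + 1) / 2) * chi R.G : ℝ) : ℂ) := by
    rw [chi]
    push_cast
    rw [mul_sum, mul_sum]
    refine sum_congr rfl fun s _ => ?_
    rw [show (-1 / 2 : ℂ) = (-1) * (1 / 2) by ring, mul_pow]
    ring
  rw [h1, sum_const_zero, add_zero] at huniq
  obtain ⟨m, hm⟩ := hev
  have hm2 : n / 2 = m := by omega
  have h2 : Complex.exp (Complex.I * (Real.pi * ((n : ℝ) - 1) / 4 : ℝ))
      = Complex.exp (-(Complex.I * (Real.pi * ((n : ℝ) + 1) / 4 : ℝ))) * (-1) ^ m := by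
    have h3 : ((-1 : ℂ)) ^ m = Complex.exp (m * (Real.pi * Complex.I)) := by
      rw [Complex.exp_nat_mul, Complex.exp_pi_mul_I]
    rw [h3, ← Complex.exp_add]
    congr 1
    rw [hm]
    push_cast
    ring
  have hne : Complex.exp (-(Complex.I * (Real.pi * ((n : ℝ) + 1) / 4 : ℝ))) ≠ 0 :=
    Complex.exp_ne_zero _
  rw [h2] at huniq
  have h3 : (((-1) ^ m * (Real.pi ^ (((n : ℝ) + 1) / 2) * chi R.G) : ℝ) : ℂ)
      = ((2 * V : ℝ) : ℂ) := by
    apply mul_left_cancel₀ hne
    push_cast
    push_cast at huniq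
    linear_combination huniq
  have h4 := Complex.ofReal_injective h3
  rw [hm2, ← h4]
  ring

end Pool.Agent.RA
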