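import Pool.Agent.Lib_helper16.RA.P27

/-!
MP_20f8ce_gt : roots of the congruence subgroup are integral, intersections of half-spaces with
integral unit normals are right-angled, and no mirror cuts the 27-sided polytope.
-/

open MeasureTheory Finset

namespace Pool.Agent.RA

/-! ### roots are multiples of integer unit vectors -/

/-- the seven coordinates -/
def co (x : M 6) : Fin 7 → ℝ := Fin.snoc (α := fun _ => ℝ) x.1 x.2

lemma co_castSucc (x : M 6) (j : Fin 6) : co x j.castSucc = x.1 j := by simp [co]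

lemma co_last (x : M 6) : co x 6 = x.2 := by
  show Fin.snoc (α := fun _ => ℝ) x.1 x.2 (Fin.last 6) = x.2
  rw [Fin.snoc_last]

lemma B_co (x y : M 6) : B x y = (∑ j : Fin 6, co x j.castSucc * co y j.castSucc)
    - co x 6 * co y 6 := by
  simp only [co_castSucc, co_last, B]

lemma ext_co {x y : M 6} (h : ∀ j, co x j = co y j) : x = y := by
  ext i
  · simpa [co_castSucc] using h i.castSucc
  · simpa [co_last] using h 6

lemma co_smul (c : ℝ) (x : M 6) (j : Fin 7) : co (c • x) j = c * co x j := by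
  refine Fin.lastCases ?_ (fun i => ?_) j
  · simp [co_last]
  · simp [co_castSucc]

lemma co_add (x y : M 6) (j : Fin 7) : co (x + y) j = co x j + co y j := by
  refine Fin.lastCases ?_ (fun i => ?_) j
  · simp [co_last]
  · simp [co_castSucc]

lemma isInt_iff (x : M 6) : IsInt x ↔ ∀ j, ∃ k : ℤ, co x j = k := by
  constructor
  · rintro ⟨h1, h2⟩ j
    refine Fin.lastCases ?_ (fun i => ?_) j
    · simpa [co_last] using h2
    · simpa [co_castSucc] using h1 i
  · intro h
    refine ⟨fun i => ?_, ?_⟩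
    · simpa [co_castSucc] using h i.castSucc
    · simpa [co_last] using h 6

/-- integer vector -/
def ofZ (w : Fin 7 → ℤ) : M 6 := (fun j => (w j.castSucc : ℝ), (w 6 : ℝ))

lemma co_ofZ (w : Fin 7 → ℤ) (j : Fin 7) : co (ofZ w) j = w j := by
  refine Fin.lastCases ?_ (fun i => ?_) j
  · simp [co_last, ofZ]
  · simp [co_castSucc, ofZ]

/-- integer Lorentzian form -/
def BZ (u w : Fin 7 → ℤ) : ℤ :=
  (∑ j : Fin 6, u j.castSucc * w j.castSucc) - u 6 * w 6

lemma B_ofZ (u w : Fin 7 → ℤ) : B (ofZ u) (ofZ w) = BZ u w := by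
  simp [B_co, co_ofZ, BZ]

lemma isInt_ofZ (w : Fin 7 → ℤ) : IsInt (ofZ w) := (isInt_iff _).2 fun j => ⟨w j, co_ofZ w j⟩

lemma exists_ofZ {x : M 6} (hx : IsInt x) : ∃ w, x = ofZ w := by
  rw [isInt_iff] at hx
  choose w hw using hx
  exact ⟨w, ext_co fun j => by rw [hw, co_ofZ]⟩

lemma castSucc_ne_six (i : Fin 6) : i.castSucc ≠ (6 : Fin 7) := Fin.castSucc_ne_last i

lemma exists_B_pick (v : M 6) (j : Fin 7) : ∃ u, B (ofZ u) v = co v j ∨ B (ofZ u) v = -co v j := by
  refine Fin.lastCases ?_ (fun i => ?_) j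
  · refine ⟨Pi.single 6 1, Or.inr ?_⟩
    simp [B_co, co_ofZ, castSucc_ne_six]
  · refine ⟨Pi.single i.castSucc 1, Or.inl ?_⟩
    simp [B_co, co_ofZ, Pi.single_apply, (castSucc_ne_six i).symm]

theorem root_int (v : M 6) (hv : IsRoot v) :
    ∃ (w : M 6) (c : ℝ), IsInt w ∧ B w w = 1 ∧ c ≠ 0 ∧ v = c • w := by
  obtain ⟨hq, -, -, hmod⟩ := hv
  set q : ℝ := B v v with hqdef
  -- integrality of `v_j v_k / q`
  have hA : ∀ j k, ∃ m : ℤ, co v j * co v k / q = m := by
    intro j k
    obtain ⟨u, hu⟩ := exists_B_pick v j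
    obtain ⟨z, hz, hz2⟩ := hmod (ofZ u) (isInt_ofZ u)
    rw [isInt_iff] at hz
    obtain ⟨m, hm⟩ := hz k
    have h1 : co (refl v (ofZ u)) k = co (ofZ u) k + 2 * co z k := by
      rw [hz2, co_add, co_smul]
    have h2 : co (refl v (ofZ u)) k = co (ofZ u) k - 2 * B (ofZ u) v / q * co v k := by
      rw [refl_apply, sub_eq_add_neg, ← neg_smul, co_add, co_smul]
      ring
    rw [h2, hm] at h1
    have h3 : B (ofZ u) v / q * co v k = -m := by linear_combination (-1 / 2) * h1
    rcases hu with hu | hu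
    · refine ⟨-m, ?_⟩
      push_cast
      rw [← h3, hu]
      ring
    · refine ⟨m, ?_⟩
      rw [← neg_neg (m : ℝ), ← h3, hu]
      ring
  choose A hA using hA
  have hv0 : ∃ j, co v j ≠ 0 := by
    by_contra hcon
    push Not at hcon
    rw [hqdef, B_co] at hq
    simp [hcon] at hq
  obtain ⟨j0, hj0⟩ := hv0
  obtain ⟨w, hw1, hw2⟩ := Finset.extract_gcd (s := (univ : Finset (Fin 7))) (A j0) ⟨0, mem_univ _⟩
  set g : ℤ := (univ : Finset (Fin 7)).gcd (A j0) with hg
  have hg0 : g ≠ 0 := by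
    intro h0
    have h1 := hw1 j0 (mem_univ _)
    rw [h0, zero_mul] at h1
    have h2 := hA j0 j0
    rw [h1] at h2
    have h3 : co v j0 * co v j0 / q ≠ 0 := div_ne_zero (mul_ne_zero hj0 hj0) hq.ne'
    apply h3
    rw [h2]
    simp
  set lam : ℝ := g * q / co v j0 with hlam
  have hlam0 : lam ≠ 0 := by
    rw [hlam]
    have : (g : ℝ) ≠ 0 := by exact_mod_cast hg0
    positivity
  have hvw : ∀ k, co v k = lam * w k := by
    intro k
    have h1 := hA j0 k
    rw [hw1 k (mem_univ _)] at h1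
    push_cast at h1
    rw [hlam]
    field_simp
    rw [div_eq_iff hq.ne'] at h1
    linear_combination h1
  have hvw' : v = lam • ofZ w := ext_co fun k => by rw [co_smul, co_ofZ, hvw]
  have hqN : q = lam ^ 2 * (BZ w w : ℝ) := by
    rw [hqdef, hvw', B_smul_left, B_smul_right, B_ofZ]
    ring
  have hN0 : 0 < BZ w w := by
    have h1 : 0 < lam ^ 2 * (BZ w w : ℝ) := by rw [← hqN]; exact hq
    have h2 : 0 < (BZ w w : ℝ) := pos_of_mul_pos_right h1 (sq_nonneg lam) |> fun h => h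
    exact_mod_cast h2
  have hdiv : ∀ j k, BZ w w ∣ w j * w k := by
    intro j k
    refine ⟨A j k, ?_⟩
    have h1 := hA j k
    rw [hvw j, hvw k, hqN] at h1
    have hNr : (BZ w w : ℝ) ≠ 0 := by exact_mod_cast hN0.ne'
    have h2 : (w j : ℝ) * w k = BZ w w * A j k := by
      rw [← h1]
      field_simp
    exact_mod_cast h2
  have hdiv1 : ∀ j, BZ w w ∣ w j := by
    intro j
    have h1 : BZ w w ∣ (univ : Finset (Fin 7)).gcd (fun k => w j * w k) :=
      Finset.dvd_gcd fun k _ => hdiv j k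
    rw [Finset.gcd_mul_left, hw2, mul_one] at h1
    exact (dvd_normalize_iff).1 h1
  have hdiv2 : BZ w w ∣ 1 := by
    rw [← hw2]
    exact Finset.dvd_gcd fun k _ => hdiv1 k
  have hN1 : BZ w w = 1 := by
    have := Int.le_of_dvd one_pos hdiv2
    omega
  refine ⟨ofZ w, lam, isInt_ofZ w, ?_, hlam0, hvw'⟩
  rw [B_ofZ, hN1]
  simp

lemma IsInt.B_int {x y : M 6} (hx : IsInt x) (hy : IsInt y) : ∃ k : ℤ, B x y = k := by
  obtain ⟨u, rfl⟩ := exists_ofZ hx
  obtain ⟨w, rfl⟩ := exists_ofZ hy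
  exact ⟨_, B_ofZ u w⟩

/-! ### integral systems of half-spaces are right-angled -/

/-- An intersection of finitely many half-spaces with integral unit normals is right-angled. -/
theorem isRAP_of_int {k : ℕ} (e : Fin k → M 6) (hint : ∀ i, IsInt (e i))
    (hunit : ∀ i, B (e i) (e i) = 1) (x1 : M 6) (hx1 : x1 ∈ Hyp) (hx1e : ∀ i, B x1 (e i) < 0)
    (hfin : hvol {x | x ∈ Hyp ∧ ∀ i, B x (e i) ≤ 0} < ⊤) :
    IsRAP {x | x ∈ Hyp ∧ ∀ i, B x (e i) ≤ 0} := by
  classical
  set P : Set (M 6) := {x | x ∈ Hyp ∧ ∀ i, B x (e i) ≤ 0} with hP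
  set good : Finset (Finset (Fin k)) :=
    univ.filter (fun s => {x | x ∈ Hyp ∧ ∀ i ∈ s, B x (e i) ≤ 0} = P) with hgood
  have hne : good.Nonempty := ⟨univ, by simp [hgood, hP]⟩
  obtain ⟨s, hs, hmin⟩ := exists_min_image good card hne
  have hsP : {x | x ∈ Hyp ∧ ∀ i ∈ s, B x (e i) ≤ 0} = P := by
    simpa [hgood] using hs
  have hirr : ∀ i ∈ s, ∃ x ∈ Hyp, 0 < B x (e i) ∧ ∀ j ∈ s, j ≠ i → B x (e j) ≤ 0 := by
    intro i hi
    by_contra hcon
    push Not at hcon
    have h1 : s.erase i ∈ good := by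
      simp only [hgood, mem_filter, mem_univ, true_and]
      rw [← hsP]
      ext x
      simp only [Set.mem_ofPred_eq]
      constructor
      · rintro ⟨hx, hxe⟩
        refine ⟨hx, fun j hj => ?_⟩
        by_cases hji : j = i
        · subst hji
          by_contra hcon2
          rw [not_le] at hcon2
          obtain ⟨l, hl, hli, hl2⟩ := hcon x hx hcon2
          have := hxe l (mem_erase.2 ⟨hli, hl⟩)
          linarith
        · exact hxe j (mem_erase.2 ⟨hji, hj⟩)
      · rintro ⟨hx, hxe⟩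
        exact ⟨hx, fun j hj => hxe j (mem_of_mem_erase hj)⟩
    have h2 := hmin _ h1
    have h3 := card_erase_lt_of_mem hi
    omega
  set m := s.card with hm
  set φ : Fin m ↪o Fin k := s.orderEmbOfFin hm.symm with hφ
  have hφs : ∀ a, φ a ∈ s := fun a => orderEmbOfFin_mem s hm.symm a
  have hφr : ∀ i ∈ s, ∃ a, φ a = i := by
    intro i hi
    have h1 := range_orderEmbOfFin s hm.symm
    have h2 : i ∈ Set.range (s.orderEmbOfFin hm.symm) := by rw [h1]; exact hi
    exact h2
  refine ⟨m, fun a => e (φ a), fun a => hunit _, ?_, ⟨x1, hx1, fun a => hx1e _⟩, ?_, ?_, hfin⟩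
  · rw [← hsP]
    ext x
    simp only [Set.mem_ofPred_eq]
    constructor
    · rintro ⟨hx, hxe⟩
      exact ⟨hx, fun a => hxe _ (hφs a)⟩
    · rintro ⟨hx, hxe⟩
      refine ⟨hx, fun i hi => ?_⟩
      obtain ⟨a, rfl⟩ := hφr i hi
      exact hxe a
  · intro a
    obtain ⟨x, hx, hx1, hx2⟩ := hirr (φ a) (hφs a)
    exact ⟨x, hx, hx1, fun b hb => hx2 _ (hφs b) (fun h => hb (φ.injective h))⟩
  · rintro a b hab ⟨x, hx, hxa, hxb⟩
    obtain ⟨z, hz⟩ := (hint (φ a)).B_int (hint (φ b))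
    by_contra hcon
    rw [hz] at hcon
    have hz0 : z ≠ 0 := by
      intro h
      apply hcon
      rw [h]
      simp
    have hz1 : (1 : ℝ) ≤ (z : ℝ) ^ 2 := by
      have h1 : 1 ≤ z ^ 2 := by
        have := sq_nonneg z
        have h2 : z ^ 2 ≠ 0 := pow_ne_zero 2 hz0
        omega
      exact_mod_cast h1
    have hy0 : e (φ a) - (z : ℝ) • e (φ b) = 0 := by
      apply causal_perp_timelike (p := x)
      · rw [hx.1]; norm_num
      · rw [B_sub_left, B_smul_left, B_comm _ x, B_comm _ x, hxa, hxb]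
        simp
      · rw [B_sub_left, B_sub_right, B_sub_right, B_smul_left, B_smul_left, B_smul_right,
          B_smul_right, hunit, hunit, B_comm (e (φ b)), hz]
        linarith
    have heq : e (φ a) = (z : ℝ) • e (φ b) := sub_eq_zero.1 hy0
    have hzz : (z : ℝ) ^ 2 = 1 := by
      have h1 := hunit (φ a)
      rw [heq, B_smul_left, B_smul_right, hunit] at h1
      linarith
    have hcases : (z : ℝ) = 1 ∨ (z : ℝ) = -1 := by
      have h0 : ((z : ℝ) - 1) * ((z : ℝ) + 1) = 0 := by linarith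
      rcases mul_eq_zero.1 h0 with h | h
      · exact Or.inl (by linarith)
      · exact Or.inr (by linarith)
    rcases hcases with h | h
    · obtain ⟨y, hy, hy1, hy2⟩ := hirr (φ a) (hφs a)
      have h3 := hy2 (φ b) (hφs b) (fun h' => hab (φ.injective h').symm)
      rw [heq, h, one_smul] at hy1
      linarith
    · have h3 := hx1e (φ a)
      have h4 := hx1e (φ b)
      rw [heq, h, B_smul_right] at h3
      linarith

/-! ### strict monotonicity of the volume -/

/-- the point of the hyperboloid above `u` -/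
noncomputable def lift6 (u : Fin 6 → ℝ) : M 6 := (u, Real.sqrt (1 + ∑ i, u i ^ 2))

lemma continuous_lift6 : Continuous lift6 := by
  unfold lift6
  fun_prop

lemma lift6_fst {x : M 6} (hx : x ∈ Hyp) : lift6 x.1 = x := by
  obtain ⟨h1, h2⟩ := hx
  rw [B_self] at h1
  have h3 : Real.sqrt (1 + ∑ i, x.1 i ^ 2) = x.2 := by
    rw [show 1 + ∑ i, x.1 i ^ 2 = x.2 ^ 2 by linarith]
    exact Real.sqrt_sq h2.le
  rw [lift6, h3]

lemma lift6_mem (u : Fin 6 → ℝ) : lift6 u ∈ Hyp := by
  have hp : 0 < 1 + ∑ i, u i ^ 2 := by positivity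
  refine ⟨?_, Real.sqrt_pos.2 hp⟩
  rw [B_self, lift6]
  simp only
  rw [Real.sq_sqrt hp.le]
  ring

/-- the volume increases strictly if a nonempty open part is added -/
theorem hvol_lt {A C : Set (M 6)} (hAC : A ⊆ C) (hfin : hvol A < ⊤) (O : Set (M 6)) (hO : IsOpen O)
    (hOC : O ∩ Hyp ⊆ C) (hOA : Disjoint O A) (x : M 6) (hx : x ∈ Hyp) (hxO : x ∈ O) :
    hvol A < hvol C := by
  set ρ : (Fin 6 → ℝ) → ENNReal := fun u => ENNReal.ofReal (1 / Real.sqrt (1 + ∑ i, u i ^ 2))
    with hρ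
  set U : Set (Fin 6 → ℝ) := lift6 ⁻¹' O with hU
  have hUo : IsOpen U := hO.preimage continuous_lift6
  have hUne : U.Nonempty := ⟨x.1, by rw [hU, Set.mem_preimage, lift6_fst hx]; exact hxO⟩
  have hpos : 0 < ∫⁻ u in U, ρ u := by
    rw [setLIntegral_pos_iff]
    · have h1 : Function.support ρ = Set.univ := by
        ext u
        simp only [Function.mem_support, hρ, Set.mem_univ, iff_true, ne_eq,
          ENNReal.ofReal_eq_zero, not_le]
        have hp : 0 < 1 + ∑ i, u i ^ 2 := by positivity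
        exact one_div_pos.2 (Real.sqrt_pos.2 hp)
      rw [h1, Set.univ_inter]
      exact hUo.measure_pos volume hUne
    · rw [hρ]
      have : Measurable (fun u : Fin 6 → ℝ => 1 / Real.sqrt (1 + ∑ i, u i ^ 2)) := by fun_prop
      exact this.ennreal_ofReal
  have hsub : Prod.fst '' (A ∩ Hyp) ∪ U ⊆ Prod.fst '' (C ∩ Hyp) := by
    rintro u (⟨y, ⟨hyA, hyH⟩, rfl⟩ | hu)
    · exact ⟨y, ⟨hAC hyA, hyH⟩, rfl⟩
    · exact ⟨lift6 u, ⟨hOC ⟨hu, lift6_mem u⟩, lift6_mem u⟩, rfl⟩
  have hdisj : Disjoint (Prod.fst '' (A ∩ Hyp)) U := by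
    rw [Set.disjoint_left]
    rintro u ⟨y, ⟨hyA, hyH⟩, rfl⟩ hu
    have h1 : y ∈ O := by
      rw [hU, Set.mem_preimage, lift6_fst hyH] at hu
      exact hu
    exact Set.disjoint_left.1 hOA h1 hyA
  have h1 : hvol A + ∫⁻ u in U, ρ u ≤ hvol C := by
    calc hvol A + ∫⁻ u in U, ρ u = ∫⁻ u in Prod.fst '' (A ∩ Hyp) ∪ U, ρ u := by
          rw [lintegral_union hUo.measurableSet hdisj]
          rfl
      _ ≤ _ := lintegral_mono_set hsub
  calc hvol A < hvol A + ∫⁻ u in U, ρ u := ENNReal.lt_add_right hfin.ne hpos.ne'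
    _ ≤ hvol C := h1

/-- No mirror of `Γ^6_2` meets the interior of the 27-sided polytope. -/
theorem nocut
    (hmain : ∀ P : Set (M 6), IsRAP P → ENNReal.ofReal (Real.pi ^ 3 / 15) ≤ hvol P)
    (hP6 : hvol {x | x ∈ Hyp ∧ ∀ i, B x (e27 i) ≤ 0} = ENNReal.ofReal (Real.pi ^ 3 / 15))
    (v : M 6) (hv : IsRoot v) (x : M 6) (hx : x ∈ Hyp) (hxe : ∀ i, B x (e27 i) < 0) :
    B x v ≠ 0 := by
  intro hxv
  obtain ⟨w, c, hwi, hww, hc, rfl⟩ := root_int v hv
  have hxw : B x w = 0 := by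
    rw [B_smul_right] at hxv
    rcases mul_eq_zero.1 hxv with h | h
    · exact absurd h hc
    · exact h
  have hxx : B x x = -1 := hx.1
  have hx2 : 0 < x.2 := hx.2
  -- the geodesic through `x` in the direction `w`
  set γ : ℝ → M 6 := fun t => (Real.sqrt (1 - t ^ 2))⁻¹ • (x + t • w) with hγ
  have hγc : ContinuousAt γ 0 := by
    rw [hγ]
    have h1 : ContinuousAt (fun t : ℝ => (Real.sqrt (1 - t ^ 2))⁻¹) 0 := by
      apply ContinuousAt.inv₀
      · exact (Real.continuous_sqrt.comp (by fun_prop)).continuousAt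
      · simp
    exact h1.smul (by fun_prop)
  have hγ0 : γ 0 = x := by simp [hγ]
  have hγH : ∀ t : ℝ, |t| < 1 → 0 < (x + t • w).2 → γ t ∈ Hyp := by
    intro t ht ht2
    have h1 : 0 < 1 - t ^ 2 := by
      have := sq_lt_one_iff_abs_lt_one t |>.2 ht
      linarith
    have hs : 0 < Real.sqrt (1 - t ^ 2) := Real.sqrt_pos.2 h1
    refine ⟨?_, ?_⟩
    · rw [hγ]
      simp only
      rw [B_smul_left, B_smul_right, B_add_left, B_add_right, B_add_right, B_smul_left,
        B_smul_left, B_smul_right, B_smul_right, hww, hxx, B_comm w x, hxw]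
      have h2 : Real.sqrt (1 - t ^ 2) ^ 2 = 1 - t ^ 2 := Real.sq_sqrt h1.le
      field_simp
      rw [h2]
      ring
    · show 0 < (γ t).2
      rw [hγ]
      simp only [Prod.smul_snd, smul_eq_mul]
      exact mul_pos (inv_pos.2 hs) ht2
  have hγw : ∀ t : ℝ, B (γ t) w = (Real.sqrt (1 - t ^ 2))⁻¹ * t := by
    intro t
    rw [hγ]
    simp only
    rw [B_smul_left, B_add_left, B_smul_left, hww, hxw]
    ring
  -- nearby parameters
  have hev : ∀ᶠ t in nhds (0 : ℝ), (∀ i, B (γ t) (e27 i) < 0) ∧ γ t ∈ Hyp ∧ |t| < 1 := by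
    have h1 : ∀ i, ∀ᶠ t in nhds (0 : ℝ), B (γ t) (e27 i) < 0 := by
      intro i
      have h2 : ContinuousAt (fun t => B (γ t) (e27 i)) 0 :=
        ((continuous_B_left (e27 i)).continuousAt).comp hγc
      have h3 : B (γ 0) (e27 i) < 0 := by rw [hγ0]; exact hxe i
      exact h2.eventually_lt continuousAt_const h3
    have h4 : ∀ᶠ t in nhds (0 : ℝ), 0 < (x + t • w).2 := by
      have h5 : Continuous (fun t : ℝ => (x + t • w).2) := by fun_prop
      have h6 : (0 : ℝ) < (x + (0 : ℝ) • w).2 := by simpa using hx2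
      exact continuousAt_const.eventually_lt h5.continuousAt h6
    have h7 : ∀ᶠ t in nhds (0 : ℝ), |t| < 1 := by
      have h8 : Continuous (fun t : ℝ => |t|) := continuous_abs
      exact h8.continuousAt.eventually_lt continuousAt_const (by simp)
    filter_upwards [Filter.eventually_all.2 h1, h4, h7] with t a b c
    exact ⟨a, hγH t c b, c⟩
  obtain ⟨r, hr, hrb⟩ := Metric.eventually_nhds_iff.1 hev
  have hplus := hrb (y := r / 2) (by rw [Real.dist_eq]; rw [abs_of_pos] <;> linarith)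
  have hminus := hrb (y := -(r / 2)) (by rw [Real.dist_eq]; rw [abs_of_neg] <;> linarith)
  -- the truncated polytope
  set e : Fin 28 → M 6 := Fin.snoc (α := fun _ => M 6) e27 w with he
  have hecs : ∀ i : Fin 27, e i.castSucc = e27 i := by intro i; rw [he, Fin.snoc_castSucc]
  have hel : e (Fin.last 27) = w := by rw [he, Fin.snoc_last]
  set C : Set (M 6) := {y | y ∈ Hyp ∧ ∀ i, B y (e i) ≤ 0} with hC
  set P6 : Set (M 6) := {y | y ∈ Hyp ∧ ∀ i, B y (e27 i) ≤ 0} with hP6d
  have hCP : C ⊆ P6 := by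
    rintro y ⟨hy, hye⟩
    refine ⟨hy, fun i => ?_⟩
    rw [← hecs]
    exact hye _
  have hCfin : hvol C < ⊤ := by
    have h1 : hvol C ≤ hvol P6 :=
      lintegral_mono_set (Set.image_mono (Set.inter_subset_inter_left _ hCP))
    rw [hP6] at h1
    exact lt_of_le_of_lt h1 ENNReal.ofReal_lt_top
  have hRAP : IsRAP C := by
    refine isRAP_of_int e ?_ ?_ (γ (-(r / 2))) hminus.2.1 ?_ hCfin
    · intro i
      refine Fin.lastCases ?_ (fun j => ?_) i
      · rw [hel]; exact hwi
      · rw [hecs]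
        exact ⟨fun k => ⟨_, rfl⟩, ⟨_, rfl⟩⟩
    · intro i
      refine Fin.lastCases ?_ (fun j => ?_) i
      · rw [hel]; exact hww
      · rw [hecs, B_e27, g27_diag]
        simp
    · intro i
      refine Fin.lastCases ?_ (fun j => ?_) i
      · rw [hel, hγw]
        have h1 : 0 < 1 - (-(r / 2)) ^ 2 := by
          have := sq_lt_one_iff_abs_lt_one (-(r / 2)) |>.2 hminus.2.2
          linarith
        have hs : 0 < (Real.sqrt (1 - (-(r / 2)) ^ 2))⁻¹ := inv_pos.2 (Real.sqrt_pos.2 h1)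
        nlinarith
      · rw [hecs]
        exact hminus.1 j
  have hlt : hvol C < hvol P6 := by
    refine hvol_lt hCP hCfin {y | (∀ i, B y (e27 i) < 0) ∧ 0 < B y w} ?_ ?_ ?_ (γ (r / 2))
      hplus.2.1 ⟨hplus.1, ?_⟩
    · have h1 : {y : M 6 | (∀ i, B y (e27 i) < 0) ∧ 0 < B y w}
          = (⋂ i, {y : M 6 | B y (e27 i) < 0}) ∩ {y | 0 < B y w} := by
        ext y
        simp
      rw [h1]
      exact (isOpen_iInter_of_finite fun i =>
        isOpen_lt (continuous_B_left _) continuous_const).inter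
        (isOpen_lt continuous_const (continuous_B_left _))
    · rintro y ⟨⟨h1, -⟩, hy⟩
      exact ⟨hy, fun i => (h1 i).le⟩
    · rw [Set.disjoint_left]
      rintro y ⟨-, h1⟩ ⟨-, h2⟩
      have h3 := h2 (Fin.last 27)
      rw [hel] at h3
      linarith
    · rw [hγw]
      have h1 : 0 < 1 - (r / 2) ^ 2 := by
        have := sq_lt_one_iff_abs_lt_one (r / 2) |>.2 hplus.2.2
        linarith
      have hs : 0 < (Real.sqrt (1 - (r / 2) ^ 2))⁻¹ := inv_pos.2 (Real.sqrt_pos.2 h1)
      positivity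
  have h1 := hmain C hRAP
  rw [hP6] at hlt
  exact absurd hlt (not_lt.2 h1)

end Pool.Agent.RA
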