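import Pool.Agent.Lib_helper16.RA.Basics

/-!
MP_20f8ce_gt, Block S1 : Gaussian integrals over orthants.
-/

open MeasureTheory Finset Filter Topology

namespace Pool.Agent.RA

namespace Orthant
variable {n : ℕ}

theorem isAddHaar : (volume : Measure (M n)).IsAddHaarMeasure := by
  rw [Measure.volume_eq_prod]
  infer_instance

attribute [local instance] isAddHaar

lemma exp_neg_mul_E2 (c : ℝ) (x : M n) :
    Real.exp (-(c * E2 x)) = (∏ i, Real.exp (-c * x.1 i ^ 2)) * Real.exp (-c * x.2 ^ 2) := by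
  rw [← Real.exp_sum, ← Real.exp_add, ← mul_sum, E2]
  congr 1
  ring

lemma integrable_gauss (c : ℝ) (hc : 0 < c) :
    Integrable (fun x : M n => Real.exp (-(c * E2 x))) := by
  have h1 : Integrable (fun y : Fin n → ℝ => ∏ i, Real.exp (-c * y i ^ 2)) :=
    Integrable.fintype_prod (fun i => integrable_exp_neg_mul_sq hc)
  have h2 : Integrable (fun t : ℝ => Real.exp (-c * t ^ 2)) := integrable_exp_neg_mul_sq hc
  have h3 := h1.mul_prod h2
  simp only [exp_neg_mul_E2]
  exact h3

lemma integrable_E2_gauss (c : ℝ) (hc : 0 < c) :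
    Integrable (fun x : M n => E2 x * Real.exp (-(c * E2 x))) := by
  refine ((integrable_gauss (n := n) (c / 2) (by positivity)).const_mul (2 / c)).mono' ?_ ?_
  · exact (continuous_E2.mul (Real.continuous_exp.comp
      ((continuous_const.mul continuous_E2).neg))).aestronglyMeasurable
  · refine ae_of_all _ fun x => ?_
    rw [Real.norm_eq_abs, abs_of_nonneg (mul_nonneg (E2_nonneg x) (Real.exp_pos _).le)]
    have h1 : -(c * E2 x) = -(c / 2 * E2 x) + -(c / 2 * E2 x) := by ring
    rw [h1, Real.exp_add, ← mul_assoc]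
    refine mul_le_mul_of_nonneg_right ?_ (Real.exp_pos _).le
    have h2 : c / 2 * E2 x ≤ Real.exp (c / 2 * E2 x) := by
      linarith [Real.add_one_le_exp (c / 2 * E2 x)]
    have h3 : c / 2 * E2 x * Real.exp (-(c / 2 * E2 x)) ≤ 1 := by
      rw [Real.exp_neg, ← div_eq_mul_inv, div_le_one (Real.exp_pos _)]
      exact h2
    have h4 : E2 x * Real.exp (-(c / 2 * E2 x))
        = 2 / c * (c / 2 * E2 x * Real.exp (-(c / 2 * E2 x))) := by
      field_simp
    rw [h4]
    have : 0 < 2 / c := by positivity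
    nlinarith

lemma integral_gauss : ∫ x : M n, Real.exp (-E2 x) = Real.pi ^ (((n : ℝ) + 1) / 2) := by
  have h0 : ∀ x : M n, Real.exp (-E2 x)
      = (∏ i, Real.exp (-1 * x.1 i ^ 2)) * Real.exp (-1 * x.2 ^ 2) := by
    intro x
    rw [← exp_neg_mul_E2, one_mul]
  simp only [h0]
  rw [Measure.volume_eq_prod, integral_prod_mul (fun y : Fin n → ℝ => ∏ i, Real.exp (-1 * y i ^ 2))
    (fun t : ℝ => Real.exp (-1 * t ^ 2)), volume_pi,
    integral_fintype_prod_eq_prod (fun (_ : Fin n) (t : ℝ) => Real.exp (-1 * t ^ 2))]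
  simp only [integral_gaussian, div_one, prod_const, card_univ, Fintype.card_fin]
  rw [Real.sqrt_eq_rpow, ← Real.rpow_natCast, ← Real.rpow_mul Real.pi_pos.le,
    ← Real.rpow_add Real.pi_pos]
  congr 1
  ring

/-- differentiation under the integral sign -/
lemma exists_hasDerivAt (T : Set (M n)) (α β γ : M n → ℂ)
    (hα : Continuous α) (hβ : Continuous β) (hγ : Continuous γ) (K : ℝ)
    (hαK : ∀ x, ‖α x‖ ≤ K * E2 x) (hγK : ∀ x, ‖γ x‖ ≤ K * E2 x)
    (w₀ : ℂ) (hw₀ : w₀ ≠ 0) (c : ℝ) (hc : 0 < c)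
    (hre : ∀ x, (w₀ * α x + β x + w₀⁻¹ * γ x).re ≤ -(c * E2 x)) :
    ∃ d, HasDerivAt (fun w => ∫ x in T, Complex.exp (w * α x + β x + w⁻¹ * γ x)) d w₀ := by
  have hs : {w : ℂ | w ≠ 0 ∧ ‖w - w₀‖ * K + ‖w⁻¹ - w₀⁻¹‖ * K < c / 2 ∧ ‖w⁻¹‖ < ‖w₀⁻¹‖ + 1}
      ∈ 𝓝 w₀ := by
    have h1 : ∀ᶠ w in 𝓝 w₀, w ≠ 0 := isOpen_ne.eventually_mem hw₀
    have h2 : Tendsto (fun w : ℂ => ‖w - w₀‖ * K + ‖w⁻¹ - w₀⁻¹‖ * K) (𝓝 w₀) (𝓝 0) := by
      have h3 : ContinuousAt (fun w : ℂ => ‖w - w₀‖ * K + ‖w⁻¹ - w₀⁻¹‖ * K) w₀ := by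
        have := continuousAt_inv₀ hw₀
        fun_prop
      have h4 := h3.tendsto
      simpa using h4
    have h5 : Tendsto (fun w : ℂ => ‖w⁻¹‖) (𝓝 w₀) (𝓝 ‖w₀⁻¹‖) :=
      ((continuousAt_inv₀ hw₀).norm).tendsto
    filter_upwards [h1, h2.eventually (gt_mem_nhds (show (0 : ℝ) < c / 2 by positivity)),
      h5.eventually (gt_mem_nhds (show ‖w₀⁻¹‖ < ‖w₀⁻¹‖ + 1 by linarith))] with w a b d
    exact ⟨a, b, d⟩
  have hcont : ∀ w : ℂ, Continuous (fun x => Complex.exp (w * α x + β x + w⁻¹ * γ x)) := by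
    intro w
    fun_prop
  have hmeas : ∀ w : ℂ, AEStronglyMeasurable
      (fun x => Complex.exp (w * α x + β x + w⁻¹ * γ x)) (volume.restrict T) :=
    fun w => (hcont w).aestronglyMeasurable
  have hbd : ∀ w : ℂ, w ≠ 0 ∧ ‖w - w₀‖ * K + ‖w⁻¹ - w₀⁻¹‖ * K < c / 2 ∧ ‖w⁻¹‖ < ‖w₀⁻¹‖ + 1 →
      ∀ x, (w * α x + β x + w⁻¹ * γ x).re ≤ -(c / 2 * E2 x) := by
    intro w hw x
    have h1 : w * α x + β x + w⁻¹ * γ x
        = (w₀ * α x + β x + w₀⁻¹ * γ x) + ((w - w₀) * α x + (w⁻¹ - w₀⁻¹) * γ x) := by ring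
    rw [h1, Complex.add_re]
    have h2 : ((w - w₀) * α x + (w⁻¹ - w₀⁻¹) * γ x).re ≤ (c / 2) * E2 x := by
      refine (Complex.re_le_norm _).trans ((norm_add_le _ _).trans ?_)
      rw [norm_mul, norm_mul]
      have h3 := mul_le_mul_of_nonneg_left (hαK x) (norm_nonneg (w - w₀))
      have h4 := mul_le_mul_of_nonneg_left (hγK x) (norm_nonneg (w⁻¹ - w₀⁻¹))
      have h5 := mul_le_mul_of_nonneg_right hw.2.1.le (E2_nonneg x)
      nlinarith
    have := hre x
    linarith
  have hK : 0 ≤ K ∨ ∀ x : M n, E2 x = 0 := by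
    by_cases h : ∃ x : M n, E2 x ≠ 0
    · obtain ⟨x, hx⟩ := h
      left
      have h1 : 0 < E2 x := lt_of_le_of_ne (E2_nonneg x) (Ne.symm hx)
      have h2 := (norm_nonneg _).trans (hαK x)
      exact nonneg_of_mul_nonneg_left h2 h1
    · right
      push Not at h
      exact h
  have key := hasDerivAt_integral_of_dominated_loc_of_deriv_le (μ := volume.restrict T) hs
    (F := fun w x => Complex.exp (w * α x + β x + w⁻¹ * γ x))
    (F' := fun w x => Complex.exp (w * α x + β x + w⁻¹ * γ x) * (α x - (w ^ 2)⁻¹ * γ x))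
    (bound := fun x => (|K| + (‖w₀⁻¹‖ + 1) ^ 2 * |K|) * (E2 x * Real.exp (-(c / 2 * E2 x))))
    (Eventually.of_forall hmeas) ?_ ?_ ?_ ?_ ?_
  · exact ⟨_, key.2⟩
  · refine Integrable.mono' (integrable_gauss (n := n) c hc).integrableOn (hmeas w₀) ?_
    refine ae_of_all _ fun x => ?_
    rw [Complex.norm_exp, Real.exp_le_exp]
    exact hre x
  · exact ((hcont w₀).mul (hα.sub (continuous_const.mul hγ))).aestronglyMeasurable
  · refine ae_of_all _ fun x w hw => ?_
    rw [norm_mul, Complex.norm_exp]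
    have h1 := hbd w hw x
    have h2 : Real.exp (w * α x + β x + w⁻¹ * γ x).re ≤ Real.exp (-(c / 2 * E2 x)) :=
      Real.exp_le_exp.2 h1
    have h3 : ‖α x - (w ^ 2)⁻¹ * γ x‖ ≤ (|K| + (‖w₀⁻¹‖ + 1) ^ 2 * |K|) * E2 x := by
      refine (norm_sub_le _ _).trans ?_
      rw [norm_mul, add_mul]
      have h4 : ‖α x‖ ≤ |K| * E2 x :=
        (hαK x).trans (mul_le_mul_of_nonneg_right (le_abs_self K) (E2_nonneg x))
      have h5 : ‖γ x‖ ≤ |K| * E2 x :=
        (hγK x).trans (mul_le_mul_of_nonneg_right (le_abs_self K) (E2_nonneg x))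
      have h6 : ‖(w ^ 2)⁻¹‖ ≤ (‖w₀⁻¹‖ + 1) ^ 2 := by
        rw [← inv_pow, norm_pow]
        exact pow_le_pow_left₀ (norm_nonneg _) hw.2.2.le 2
      have h7 := mul_le_mul h6 h5 (norm_nonneg _) (by positivity)
      rw [← mul_assoc] at h7
      exact add_le_add h4 h7
    calc Real.exp (w * α x + β x + w⁻¹ * γ x).re * ‖α x - (w ^ 2)⁻¹ * γ x‖
        ≤ Real.exp (-(c / 2 * E2 x)) * ((|K| + (‖w₀⁻¹‖ + 1) ^ 2 * |K|) * E2 x) :=
          mul_le_mul h2 h3 (norm_nonneg _) (Real.exp_pos _).le
      _ = _ := by ring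
  · exact ((integrable_E2_gauss (n := n) (c / 2) (by positivity)).const_mul _).integrableOn
  · refine ae_of_all _ fun x w hw => ?_
    have h1 : HasDerivAt (fun w : ℂ => w * α x + β x + w⁻¹ * γ x)
        (1 * α x + (-(w ^ 2)⁻¹) * γ x) w :=
      (((hasDerivAt_id w).mul_const (α x)).add_const (β x)).add
        ((hasDerivAt_inv hw.1).mul_const (γ x))
    have h2 := h1.cexp
    have h3 : Complex.exp (w * α x + β x + w⁻¹ * γ x) * (1 * α x + (-(w ^ 2)⁻¹) * γ x)
        = Complex.exp (w * α x + β x + w⁻¹ * γ x) * (α x - (w ^ 2)⁻¹ * γ x) := by ring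
    rw [h3] at h2
    exact h2

/-- `T` is the product of a cone with the time axis -/
def IsCyl (T : Set (M n)) : Prop := ∀ x : M n, ∀ a b : ℝ, 0 < a → ((a • x.1, b • x.2) ∈ T ↔ x ∈ T)

/-- hyperbolic scaling -/
lemma integral_scale (T : Set (M n)) (hT : MeasurableSet T) (hTs : IsCyl T)
    (f : M n → ℂ) (hf : Continuous f) (t : ℝ) :
    ∫ x in T, f (Real.exp t • x.1, Real.exp (-t) • x.2)
      = (Real.exp (-((n : ℝ) - 1) * t) : ℂ) * ∫ x in T, f x := by
  set D : M n → M n := Prod.map (fun y : Fin n → ℝ => Real.exp t • y)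
    (fun τ : ℝ => Real.exp (-t) • τ) with hD
  have hDc : Continuous D := by
    rw [hD]
    exact Continuous.prodMap (continuous_const_smul _) (continuous_const_smul _)
  have hmap : Measure.map D (volume : Measure (M n))
      = ENNReal.ofReal (Real.exp (-((n : ℝ) - 1) * t)) • volume := by
    rw [hD, Measure.volume_eq_prod, ← Measure.map_prod_map _ _ (by fun_prop) (by fun_prop),
      Measure.map_addHaar_smul _ (Real.exp_pos t).ne',
      Measure.map_addHaar_smul _ (Real.exp_pos (-t)).ne',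
      Measure.prod_smul_left, Measure.prod_smul_right, smul_smul,
      ← ENNReal.ofReal_mul (abs_nonneg _)]
    congr 2
    rw [Module.finrank_fin_fun, Module.finrank_self, pow_one, ← Real.exp_nat_mul, ← Real.exp_neg,
      ← Real.exp_neg, abs_of_pos (Real.exp_pos _), abs_of_pos (Real.exp_pos _), ← Real.exp_add]
    congr 1
    ring
  rw [← integral_indicator hT, ← integral_indicator hT]
  have h1 : (T.indicator fun x => f (Real.exp t • x.1, Real.exp (-t) • x.2))
      = fun x => (T.indicator f) (D x) := by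
    funext x
    by_cases hx : x ∈ T
    · have hx' : D x ∈ T := (hTs x _ _ (Real.exp_pos t)).2 hx
      rw [Set.indicator_of_mem hx, Set.indicator_of_mem hx']
      rfl
    · have hx' : D x ∉ T := fun h => hx ((hTs x _ _ (Real.exp_pos t)).1 h)
      rw [Set.indicator_of_notMem hx, Set.indicator_of_notMem hx']
  rw [h1, ← integral_map hDc.aemeasurable, hmap, integral_smul_measure,
    ENNReal.toReal_ofReal (Real.exp_pos _).le, Complex.real_smul]
  rw [hmap]
  exact (hf.aestronglyMeasurable.indicator hT)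

/-- rotation of the contour -/
lemma rotate (T : Set (M n)) (hT : MeasurableSet T) (hTs : IsCyl T) (α β γ : M n → ℂ)
    (hα : Continuous α) (hβ : Continuous β) (hγ : Continuous γ) (K : ℝ)
    (hαK : ∀ x, ‖α x‖ ≤ K * E2 x) (hγK : ∀ x, ‖γ x‖ ≤ K * E2 x)
    (hαs : ∀ x : M n, ∀ a : ℝ, α (Real.exp a • x.1, Real.exp (-a) • x.2)
      = (Real.exp (2 * a) : ℂ) * α x)
    (hβs : ∀ x : M n, ∀ a : ℝ, β (Real.exp a • x.1, Real.exp (-a) • x.2) = β x)
    (hγs : ∀ x : M n, ∀ a : ℝ, γ (Real.exp a • x.1, Real.exp (-a) • x.2)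
      = (Real.exp (-(2 * a)) : ℂ) * γ x)
    (c : ℝ) (hc : 0 < c)
    (hre : ∀ θ ∈ Set.Icc (0 : ℝ) (Real.pi / 2), ∀ x,
      (Complex.exp (θ * Complex.I) * α x + β x + (Complex.exp (θ * Complex.I))⁻¹ * γ x).re
        ≤ -(c * E2 x)) :
    ∫ x in T, Complex.exp (α x + β x + γ x)
      = Complex.exp (Complex.I * (Real.pi * ((n : ℝ) - 1) / 4 : ℝ)) *
        ∫ x in T, Complex.exp (Complex.I * α x + β x - Complex.I * γ x) := by
  set h : ℂ → ℂ := fun w => ∫ x in T, Complex.exp (w * α x + β x + w⁻¹ * γ x) with hh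
  set F : ℝ → ℂ := fun θ => Complex.exp ((((n : ℝ) - 1) / 2 * θ : ℝ) * Complex.I) *
    h (Complex.exp (θ * Complex.I)) with hF
  have hscale : ∀ (w : ℂ) (t : ℝ), h ((Real.exp (2 * t) : ℂ) * w)
      = (Real.exp (-((n : ℝ) - 1) * t) : ℂ) * h w := by
    intro w t
    rw [hh]
    simp only
    rw [← integral_scale T hT hTs (fun x => Complex.exp (w * α x + β x + w⁻¹ * γ x))
      (by fun_prop) t]
    congr 1
    funext x
    rw [hαs, hβs, hγs]
    congr 1
    rw [mul_inv, Real.exp_neg]
    push_cast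
    ring
  have hder : ∀ θ ∈ Set.Icc (0 : ℝ) (Real.pi / 2), HasDerivAt F 0 θ := by
    intro θ hθ
    set w : ℂ := Complex.exp (θ * Complex.I) with hw
    obtain ⟨d, hd⟩ := exists_hasDerivAt T α β γ hα hβ hγ K hαK hγK w (Complex.exp_ne_zero _) c hc
      (fun x => hre θ hθ x)
    have hd' : HasDerivAt h d w := hd
    -- Euler identity
    have e1 : HasDerivAt (fun t : ℝ => h ((Real.exp (2 * t) : ℂ) * w)) ((2 * w) * d) 0 := by
      have h1 : HasDerivAt (fun t : ℝ => (Real.exp (2 * t) : ℂ) * w) (2 * w) 0 := by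
        have h2 : HasDerivAt (fun t : ℝ => Real.exp (2 * t)) 2 0 := by
          have := ((hasDerivAt_id (0 : ℝ)).const_mul 2).exp
          simpa using this
        have h3 := h2.ofReal_comp.mul_const w
        simpa using h3
      have h4 : HasDerivAt h d ((Real.exp (2 * (0 : ℝ)) : ℂ) * w) := by
        simpa using hd'
      have h5 := HasDerivAt.scomp (0 : ℝ) h4 h1
      simpa [smul_eq_mul, Function.comp_def] using h5
    have e2 : HasDerivAt (fun t : ℝ => h ((Real.exp (2 * t) : ℂ) * w))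
        (-((n : ℝ) - 1 : ℝ) * h w) 0 := by
      have h1 : HasDerivAt (fun t : ℝ => Real.exp (-((n : ℝ) - 1) * t)) (-((n : ℝ) - 1)) 0 := by
        have := ((hasDerivAt_id (0 : ℝ)).const_mul (-((n : ℝ) - 1))).exp
        simpa using this
      have h2 := h1.ofReal_comp.mul_const (h w)
      have h3 : (fun t : ℝ => h ((Real.exp (2 * t) : ℂ) * w))
          = fun t : ℝ => (Real.exp (-((n : ℝ) - 1) * t) : ℂ) * h w := by
        funext t
        exact hscale w t
      rw [h3]
      simpa using h2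
    have e3 : 2 * w * d = -((n : ℝ) - 1 : ℝ) * h w := e1.unique e2
    have g1 : HasDerivAt (fun θ : ℝ => Complex.exp (θ * Complex.I)) (w * Complex.I) θ := by
      have h1 : HasDerivAt (fun θ : ℝ => (θ : ℂ) * Complex.I) (1 * Complex.I) θ :=
        (Complex.ofRealCLM.hasDerivAt (x := θ)).mul_const Complex.I
      simpa using h1.cexp
    have g2 : HasDerivAt (fun θ : ℝ => h (Complex.exp (θ * Complex.I))) ((w * Complex.I) * d) θ := by
      have h5 := HasDerivAt.scomp θ hd' g1
      simpa [smul_eq_mul, Function.comp_def] using h5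
    have g3 : HasDerivAt (fun θ : ℝ => Complex.exp ((((n : ℝ) - 1) / 2 * θ : ℝ) * Complex.I))
        (Complex.exp ((((n : ℝ) - 1) / 2 * θ : ℝ) * Complex.I) *
          ((((n : ℝ) - 1) / 2 : ℝ) * Complex.I)) θ := by
      have h1 : HasDerivAt (fun θ : ℝ => ((n : ℝ) - 1) / 2 * θ) (((n : ℝ) - 1) / 2) θ := by
        simpa using (hasDerivAt_id θ).const_mul (((n : ℝ) - 1) / 2)
      exact (h1.ofReal_comp.mul_const Complex.I).cexp
    have g4 := g3.mul g2
    have g5 : Complex.exp ((((n : ℝ) - 1) / 2 * θ : ℝ) * Complex.I) *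
          ((((n : ℝ) - 1) / 2 : ℝ) * Complex.I) * h (Complex.exp (θ * Complex.I)) +
          Complex.exp ((((n : ℝ) - 1) / 2 * θ : ℝ) * Complex.I) * (w * Complex.I * d) = 0 := by
      have h6 : w * Complex.I * d = Complex.I / 2 * (2 * w * d) := by ring
      rw [h6, e3, ← hw]
      push_cast
      ring
    rw [g5] at g4
    exact g4
  have hconst := constant_of_has_deriv_right_zero (f := F) (a := 0) (b := Real.pi / 2)
    (fun θ hθ => (hder θ hθ).continuousAt.continuousWithinAt)
    (fun θ hθ => (hder θ ⟨hθ.1, hθ.2.le⟩).hasDerivWithinAt)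
    (Real.pi / 2) ⟨by positivity, le_rfl⟩
  have hI : Complex.exp ((Real.pi / 2 : ℝ) * Complex.I) = Complex.I := by
    have := Complex.exp_pi_div_two_mul_I
    push_cast
    exact this
  have hF0 : F 0 = ∫ x in T, Complex.exp (α x + β x + γ x) := by
    rw [hF]
    simp [hh]
  have hF1 : F (Real.pi / 2) = Complex.exp (Complex.I * (Real.pi * ((n : ℝ) - 1) / 4 : ℝ)) *
        ∫ x in T, Complex.exp (Complex.I * α x + β x - Complex.I * γ x) := by
    rw [hF]
    simp only
    rw [hI, hh]
    simp only [Complex.inv_I]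
    congr 1
    · congr 1
      push_cast
      ring
    · congr 1
      funext x
      congr 1
      ring
  rw [← hF0, ← hF1, hconst]

/-! ### reflections -/

/-- Lorentzian reflection -/
noncomputable def refl (v : M n) : M n →ₗ[ℝ] M n where
  toFun x := x - (2 * B x v / B v v) • v
  map_add' x y := by
    rw [B_add_left, mul_add, add_div, add_smul]
    abel
  map_smul' c x := by
    rw [B_smul_left, RingHom.id_apply, smul_sub, smul_smul]
    congr 2
    ring

lemma refl_apply (v x : M n) : refl v x = x - (2 * B x v / B v v) • v := rfl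

lemma B_refl (v : M n) (hv : B v v ≠ 0) (x y : M n) : B (refl v x) (refl v y) = B x y := by
  simp only [refl_apply, B_sub_left, B_sub_right, B_smul_left, B_smul_right, B_comm v]
  field_simp
  ring

lemma refl_refl (v : M n) (hv : B v v ≠ 0) (x : M n) : refl v (refl v x) = x := by
  simp only [refl_apply, B_sub_left, B_smul_left]
  rw [sub_sub, ← add_smul]
  have : 2 * B x v / B v v + 2 * (B x v - 2 * B x v / B v v * B v v) / B v v = 0 := by
    field_simp
    ring
  rw [this, zero_smul, sub_zero]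

lemma measurePreserving_of_invol (g : M n →ₗ[ℝ] M n) (hg : ∀ x, g (g x) = x) :
    MeasurePreserving g volume volume := by
  have h1 : LinearMap.det g * LinearMap.det g = 1 := by
    rw [← LinearMap.det_comp]
    have : g ∘ₗ g = LinearMap.id := LinearMap.ext hg
    rw [this, LinearMap.det_id]
  have h2 : LinearMap.det g ≠ 0 := by
    intro h
    rw [h] at h1
    norm_num at h1
  have h3 : |(LinearMap.det g)⁻¹| = 1 := by
    have h4 : |LinearMap.det g| * |LinearMap.det g| = 1 := by
      rw [← abs_mul, h1, abs_one]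
    have h5 : |LinearMap.det g| = 1 := by
      nlinarith [abs_nonneg (LinearMap.det g)]
    rw [abs_inv, h5, inv_one]
  refine ⟨(LinearMap.continuous_of_finiteDimensional g).measurable, ?_⟩
  rw [Measure.map_linearMap_addHaar_eq_smul_addHaar _ h2, h3, ENNReal.ofReal_one, one_smul]

lemma measurableEmbedding_of_invol (g : M n →ₗ[ℝ] M n) (hg : ∀ x, g (g x) = x) :
    MeasurableEmbedding g := by
  have h1 : ⇑g = ⇑((LinearEquiv.ofInvolutive g hg).toContinuousLinearEquiv.toHomeomorph) := by
    funext x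
    rfl
  rw [h1]
  exact Homeomorph.measurableEmbedding _

lemma volume_hyperplane (v : M n) (hv : B v v ≠ 0) : volume {x : M n | B x v = 0} = 0 := by
  have h1 : {x : M n | B x v = 0} = (LinearMap.ker (Bl.flip v) : Set (M n)) := by
    ext x
    simp
  rw [h1]
  refine Measure.addHaar_submodule _ _ ?_
  intro h
  have h2 : v ∈ LinearMap.ker (Bl.flip v) := by rw [h]; trivial
  rw [LinearMap.mem_ker] at h2
  exact hv h2

lemma E2_eq (x : M n) : E2 x = B x x + 2 * x.2 ^ 2 := by
  rw [B_self, E2]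
  ring

/-- The Gaussian measure of an orthant. -/
lemma integral_orthant {ι : Type} (s : Finset ι) (e : ι → M n)
    (hunit : ∀ i ∈ s, B (e i) (e i) = 1)
    (horth : ∀ i ∈ s, ∀ j ∈ s, i ≠ j → B (e i) (e j) = 0)
    (he : ∀ i ∈ s, (e i).2 = 0) :
    ∫ x in {x : M n | ∀ i ∈ s, B x (e i) ≤ 0}, Real.exp (-E2 x)
      = Real.pi ^ (((n : ℝ) + 1) / 2) * (1 / 2) ^ s.card := by
  classical
  induction s using Finset.induction_on with
  | empty => simpa using integral_gauss
  | insert a s ha ih =>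
    have ih' := ih (fun i hi => hunit i (mem_insert_of_mem hi))
      (fun i hi j hj => horth i (mem_insert_of_mem hi) j (mem_insert_of_mem hj))
      (fun i hi => he i (mem_insert_of_mem hi))
    have hva : B (e a) (e a) = 1 := hunit a (mem_insert_self a s)
    have hva' : B (e a) (e a) ≠ 0 := by rw [hva]; norm_num
    set S : Set (M n) := {x : M n | ∀ i ∈ s, B x (e i) ≤ 0} with hS
    have hSm : MeasurableSet S := by
      have : S = ⋂ i ∈ s, {x : M n | B x (e i) ≤ 0} := by ext x; simp [hS]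
      rw [this]
      exact MeasurableSet.biInter s.countable_toSet fun i _ =>
        (isClosed_le (continuous_B_left _) continuous_const).measurableSet
    set P : Set (M n) := {x : M n | 0 ≤ B x (e a)} with hP
    set Nn : Set (M n) := {x : M n | B x (e a) ≤ 0} with hNn
    have hPm : MeasurableSet P := (isClosed_le continuous_const (continuous_B_left _)).measurableSet
    have hNm : MeasurableSet Nn := (isClosed_le (continuous_B_left _) continuous_const).measurableSet
    have hint : Integrable (fun x : M n => Real.exp (-E2 x)) := by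
      simpa using integrable_gauss (n := n) 1 one_pos
    have e0 : {x : M n | ∀ i ∈ insert a s, B x (e i) ≤ 0} = S ∩ Nn := by
      ext x
      simp only [Set.mem_inter_iff, hS, hNn, Set.mem_ofPred_eq, mem_insert, forall_eq_or_imp]
      tauto
    have e1 : ∫ x in S ∩ Nn, Real.exp (-E2 x) = ∫ x in S ∩ P, Real.exp (-E2 x) := by
      have h1 := (measurePreserving_of_invol (refl (e a)) (refl_refl _ hva')).setIntegral_preimage_emb
        (measurableEmbedding_of_invol (refl (e a)) (refl_refl _ hva'))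
        (fun x => Real.exp (-E2 x)) (S ∩ P)
      rw [← h1]
      have h2 : (refl (e a)) ⁻¹' (S ∩ P) = S ∩ Nn := by
        ext x
        simp only [Set.mem_preimage, Set.mem_inter_iff, hS, hP, hNn, Set.mem_ofPred_eq, refl_apply,
          B_sub_left, B_smul_left, hva, div_one, mul_one]
        constructor
        · rintro ⟨h3, h4⟩
          refine ⟨fun i hi => ?_, by linarith⟩
          have h5 := h3 i hi
          rw [horth a (mem_insert_self a s) i (mem_insert_of_mem hi)
            (by rintro rfl; exact ha hi), mul_zero, sub_zero] at h5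
          exact h5
        · rintro ⟨h3, h4⟩
          refine ⟨fun i hi => ?_, by linarith⟩
          rw [horth a (mem_insert_self a s) i (mem_insert_of_mem hi)
            (by rintro rfl; exact ha hi), mul_zero, sub_zero]
          exact h3 i hi
      rw [h2]
      refine setIntegral_congr_fun (hSm.inter hNm) fun x _ => ?_
      have h3 : (refl (e a) x).2 = x.2 := by
        rw [refl_apply]
        simp [he a (mem_insert_self a s)]
      have h4 : E2 (refl (e a) x) = E2 x := by
        rw [E2_eq, E2_eq, h3, B_refl _ hva']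
      exact (congrArg (fun t => Real.exp (-t)) h4).symm
    have e2 : ∫ x in S, Real.exp (-E2 x)
        = (∫ x in S ∩ Nn, Real.exp (-E2 x)) + ∫ x in S ∩ P, Real.exp (-E2 x) := by
      have h1 : S = (S ∩ Nn) ∪ (S ∩ P) := by
        ext x
        simp only [Set.mem_union, Set.mem_inter_iff, hNn, hP, Set.mem_ofPred_eq]
        rcases le_total (B x (e a)) 0 with h | h <;> tauto
      have h2 : AEDisjoint volume (S ∩ Nn) (S ∩ P) := by
        refine measure_mono_null ?_ (volume_hyperplane (e a) hva')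
        rintro x ⟨⟨-, h3⟩, ⟨-, h4⟩⟩
        exact le_antisymm h3 h4
      conv_lhs => rw [h1]
      exact setIntegral_union₀ h2 (hSm.inter hPm).nullMeasurableSet hint.integrableOn
        hint.integrableOn
    rw [e0, card_insert_of_notMem ha, pow_succ]
    rw [ih', ← e1] at e2
    linarith

/-- Euclidean inner product -/
def I2 (x y : M n) : ℝ := (∑ i, x.1 i * y.1 i) + x.2 * y.2

lemma E2_add (x y : M n) : E2 (x + y) = E2 x + E2 y + 2 * I2 x y := by
  simp only [E2, I2, Prod.fst_add, Prod.snd_add, Pi.add_apply]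
  have : ∀ i, (x.1 i + y.1 i) ^ 2 = x.1 i ^ 2 + y.1 i ^ 2 + 2 * (x.1 i * y.1 i) := by
    intro i; ring
  simp only [this, sum_add_distrib, ← mul_sum]
  ring

lemma I2_smul_left (c : ℝ) (x y : M n) : I2 (c • x) y = c * I2 x y := by
  simp only [I2, Prod.smul_fst, Prod.smul_snd, Pi.smul_apply, smul_eq_mul, mul_add, mul_sum,
    mul_assoc]

lemma I2_smul_right (c : ℝ) (x y : M n) : I2 x (c • y) = c * I2 x y := by
  simp only [I2, Prod.smul_fst, Prod.smul_snd, Pi.smul_apply, smul_eq_mul, mul_add, mul_sum]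
  congr 1
  · exact sum_congr rfl fun i _ => by ring
  · ring

lemma abs_two_I2_le (x y : M n) : |2 * I2 x y| ≤ E2 x + E2 y := by
  rw [abs_le]
  constructor
  · have := E2_nonneg (x + y)
    rw [E2_add] at this
    linarith
  · have := E2_nonneg (x + (-1 : ℝ) • y)
    rw [E2_add, E2_smul, I2_smul_right] at this
    linarith

lemma I2_sq_le (x y : M n) : I2 x y ^ 2 ≤ E2 x * E2 y := by
  have h := E2_nonneg (E2 y • x + (-(I2 x y)) • y)
  rw [E2_add, E2_smul, E2_smul, I2_smul_left, I2_smul_right] at h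
  rcases (E2_nonneg y).eq_or_lt with h0 | h0
  · have hy : y = 0 := E2_eq_zero y h0.symm
    have : I2 x y = 0 := by
      rw [hy]
      simp [I2]
    rw [this, ← h0]
    simp
  · have h1 : 0 ≤ E2 y * (E2 x * E2 y - I2 x y ^ 2) := by
      nlinarith
    have h2 := nonneg_of_mul_nonneg_right h1 h0
    linarith

lemma B_sq_le (x y : M n) : B x y ^ 2 ≤ E2 x * E2 y := by
  have h := I2_sq_le x (y.1, -y.2)
  have h1 : I2 x (y.1, -y.2) = B x y := by
    simp only [I2, B]
    ring
  have h2 : E2 (y.1, -y.2) = E2 y := by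
    simp only [E2]
    ring
  rwa [h1, h2] at h

lemma E2_refl_le (v : M n) (hv : B v v ≠ 0) :
    ∃ C : ℝ, 1 ≤ C ∧ ∀ x, E2 (refl v x) ≤ C * E2 x := by
  refine ⟨2 + 8 * E2 v ^ 2 / B v v ^ 2, ?_, fun x => ?_⟩
  · have : 0 ≤ 8 * E2 v ^ 2 / B v v ^ 2 := by positivity
    linarith
  · have h1 : refl v x = x + (-(2 * B x v / B v v)) • v := by
      rw [refl_apply, neg_smul, sub_eq_add_neg]
    have h2 := abs_two_I2_le x ((-(2 * B x v / B v v)) • v)
    have h3 := (abs_le.1 h2).2
    rw [h1, E2_add]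
    have h4 : E2 ((-(2 * B x v / B v v)) • v) ≤ 4 * E2 v ^ 2 / B v v ^ 2 * E2 x := by
      rw [E2_smul]
      have h5 := B_sq_le x v
      have h6 : (-(2 * B x v / B v v)) ^ 2 * E2 v = 4 * E2 v / B v v ^ 2 * B x v ^ 2 := by
        field_simp
        ring
      rw [h6]
      have h7 : 4 * E2 v / B v v ^ 2 * B x v ^ 2 ≤ 4 * E2 v / B v v ^ 2 * (E2 x * E2 v) := by
        refine mul_le_mul_of_nonneg_left h5 ?_
        have := E2_nonneg v
        positivity
      refine h7.trans (le_of_eq ?_)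
      field_simp
    have h8 : 8 * E2 v ^ 2 / B v v ^ 2 = 2 * (4 * E2 v ^ 2 / B v v ^ 2) := by ring
    rw [h8]
    nlinarith

end Orthant

open Orthant in
theorem tendsto_orthant {n : ℕ} {ι : Type} (s : Finset ι) (e : ι → M n) (u : M n)
    (hunit : ∀ i ∈ s, B (e i) (e i) = 1)
    (horth : ∀ i ∈ s, ∀ j ∈ s, i ≠ j → B (e i) (e j) = 0)
    (hu : B u u = -1) (hue : ∀ i ∈ s, B u (e i) = 0) :
    Tendsto (fun δ : ℝ => ∫ x in {x : M n | ∀ i ∈ s, B x (e i) ≤ 0},
        Complex.exp (Complex.I * (B x x : ℝ) - (δ * E2 x : ℝ))) (𝓝[>] 0)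
      (𝓝 (Complex.exp (Complex.I * (Real.pi * ((n : ℝ) - 1) / 4 : ℝ)) *
        ((Real.pi ^ (((n : ℝ) + 1) / 2) * (1 / 2) ^ s.card : ℝ) : ℂ))) := by
  classical
  -- the reflection exchanging `u` and the time axis
  obtain ⟨ε, hε1, hε2⟩ : ∃ ε : ℝ, ε ^ 2 = 1 ∧ ε * u.2 ≤ 0 := by
    rcases le_total 0 u.2 with h | h
    · exact ⟨-1, by norm_num, by linarith⟩
    · exact ⟨1, by norm_num, by linarith⟩
  set e0 : M n := (0, 1) with he0
  have hBe0 : ∀ x : M n, B x e0 = -x.2 := by
    intro x
    simp [B, he0]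
  set v : M n := u - ε • e0 with hv
  have huv : B u v = -1 + ε * u.2 := by
    rw [hv, B_sub_right, B_smul_right, hu, hBe0]
    ring
  have hvv : B v v = 2 * (-1 + ε * u.2) := by
    have h1 : B e0 v = -u.2 + ε := by
      rw [hv, B_sub_right, B_smul_right, B_comm e0 u, hBe0, hBe0]
      simp [he0]
    rw [show B v v = B u v - ε * B e0 v by
      conv_lhs => rw [hv]
      rw [B_sub_left, B_smul_left, ← hv], huv, h1]
    linear_combination -hε1
  have hv0 : B v v ≠ 0 := by
    rw [hvv]
    intro h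
    linarith
  have hgu : refl v u = ε • e0 := by
    rw [refl_apply, huv, hvv, div_self, one_smul, hv]
    · abel
    · rw [← hvv]; exact hv0
  set e' : ι → M n := fun i => refl v (e i) with he'
  have hunit' : ∀ i ∈ s, B (e' i) (e' i) = 1 := by
    intro i hi
    rw [he']
    simp only
    rw [B_refl v hv0, hunit i hi]
  have horth' : ∀ i ∈ s, ∀ j ∈ s, i ≠ j → B (e' i) (e' j) = 0 := by
    intro i hi j hj hij
    rw [he']
    simp only
    rw [B_refl v hv0, horth i hi j hj hij]
  have he'2 : ∀ i ∈ s, (e' i).2 = 0 := by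
    intro i hi
    have h1 : B (e' i) (refl v u) = 0 := by
      rw [he']
      simp only
      rw [B_refl v hv0, B_comm, hue i hi]
    rw [hgu, B_smul_right, hBe0] at h1
    have hε0 : ε ≠ 0 := by
      intro h
      rw [h] at hε1
      norm_num at hε1
    rcases mul_eq_zero.1 h1 with h2 | h2
    · exact absurd h2 hε0
    · linarith
  set T : Set (M n) := {x : M n | ∀ i ∈ s, B x (e i) ≤ 0} with hT
  set T' : Set (M n) := {x : M n | ∀ i ∈ s, B x (e' i) ≤ 0} with hT'
  have hT'm : MeasurableSet T' := by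
    have : T' = ⋂ i ∈ s, {x : M n | B x (e' i) ≤ 0} := by ext x; simp [hT']
    rw [this]
    exact MeasurableSet.biInter s.countable_toSet fun i _ =>
      (isClosed_le (continuous_B_left _) continuous_const).measurableSet
  have hTcyl : IsCyl T' := by
    intro x a b ha
    simp only [hT', Set.mem_ofPred_eq]
    refine forall₂_congr fun i hi => ?_
    have h1 : B (a • x.1, b • x.2) (e' i) = a * B x (e' i) := by
      simp only [B, he'2 i hi, Pi.smul_apply, smul_eq_mul, mul_zero, sub_zero, mul_sum, mul_assoc]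
    rw [h1]
    constructor
    · intro h
      by_contra hcon
      rw [not_le] at hcon
      have := mul_pos ha hcon
      linarith
    · intro h
      exact mul_nonpos_of_nonneg_of_nonpos ha.le h
  -- change of variables
  have hcv : ∀ δ : ℝ, ∫ x in T, Complex.exp (Complex.I * (B x x : ℝ) - (δ * E2 x : ℝ))
      = ∫ x in T', Complex.exp (Complex.I * (B x x : ℝ) - (δ * E2 (refl v x) : ℝ)) := by
    intro δ
    have h1 := (measurePreserving_of_invol (refl v) (refl_refl _ hv0)).setIntegral_preimage_emb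
        (measurableEmbedding_of_invol (refl v) (refl_refl _ hv0))
        (fun x => Complex.exp (Complex.I * (B x x : ℝ) - (δ * E2 x : ℝ))) T
    rw [← h1]
    have h2 : (refl v) ⁻¹' T = T' := by
      ext x
      simp only [Set.mem_preimage, hT, hT', Set.mem_ofPred_eq]
      refine forall₂_congr fun i hi => ?_
      rw [he']
      simp only
      rw [← B_refl v hv0 x (refl v (e i)), refl_refl v hv0]
    rw [h2]
    simp only [B_refl v hv0]
  obtain ⟨C, hC1, hC⟩ := E2_refl_le v hv0
  have hC' : ∀ x, E2 x ≤ C * E2 (refl v x) := by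
    intro x
    have := hC (refl v x)
    rwa [refl_refl v hv0] at this
  set g : M n →ₗ[ℝ] M n := refl v with hg
  have hgc : Continuous g := LinearMap.continuous_of_finiteDimensional g
  -- space and time parts
  set ys : M n → M n := fun x => (x.1, 0) with hys
  set yt : M n → M n := fun x => (0, x.2) with hyt
  have hysc : Continuous ys := by rw [hys]; fun_prop
  have hytc : Continuous yt := by rw [hyt]; fun_prop
  have hsum : ∀ x, ys x + yt x = x := by
    intro x
    simp [hys, hyt]
  have hE2s : ∀ x, E2 (ys x) + E2 (yt x) = E2 x := by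
    intro x
    simp [hys, hyt, E2]
  have hEg : ∀ x, E2 (g x) = E2 (g (ys x)) + E2 (g (yt x)) + 2 * I2 (g (ys x)) (g (yt x)) := by
    intro x
    rw [← E2_add, ← map_add, hsum]
  have hEgs : ∀ x, E2 (g (ys x)) + E2 (g (yt x)) ≤ C * E2 x := by
    intro x
    rw [← hE2s x, mul_add]
    exact add_le_add (hC _) (hC _)
  have hI2c : Continuous (fun x => I2 (g (ys x)) (g (yt x))) := by
    have h1 : (fun x => I2 (g (ys x)) (g (yt x)))
        = fun x => (E2 (g x) - E2 (g (ys x)) - E2 (g (yt x))) / 2 := by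
      funext x
      rw [hEg x]
      ring
    rw [h1]
    have := continuous_E2 (n := n)
    fun_prop
  have hBs : ∀ x, B (ys x) (ys x) = ∑ i, x.1 i ^ 2 := by
    intro x
    simp [hys, B, sq]
  set α : ℝ → M n → ℂ := fun δ x =>
    Complex.I * (E2 (ys x) : ℝ) - (δ * E2 (g (ys x)) : ℝ) with hα
  set γ : ℝ → M n → ℂ := fun δ x =>
    -(Complex.I * (E2 (yt x) : ℝ)) - (δ * E2 (g (yt x)) : ℝ) with hγ
  set β : ℝ → M n → ℂ := fun δ x =>
    ((-(δ * (2 * I2 (g (ys x)) (g (yt x)))) : ℝ) : ℂ) with hβ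
  have hsplit : ∀ δ x, Complex.I * (B x x : ℝ) - (δ * E2 (g x) : ℝ) = α δ x + β δ x + γ δ x := by
    intro δ x
    have h1 : B x x = E2 (ys x) - E2 (yt x) := by
      rw [B_self]
      simp [hys, hyt, E2]
    rw [hα, hβ, hγ, h1, hEg x]
    push_cast
    ring
  have hE2c := continuous_E2 (n := n)
  have hαc : ∀ δ, Continuous (α δ) := by
    intro δ
    rw [hα]
    fun_prop
  have hγc : ∀ δ, Continuous (γ δ) := by
    intro δ
    rw [hγ]
    fun_prop
  have hβc : ∀ δ, Continuous (β δ) := by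
    intro δ
    rw [hβ]
    fun_prop
  have hysa : ∀ (x : M n) (a : ℝ), ys (Real.exp a • x.1, Real.exp (-a) • x.2)
      = Real.exp a • ys x := by
    intro x a
    simp [hys]
  have hyta : ∀ (x : M n) (a : ℝ), yt (Real.exp a • x.1, Real.exp (-a) • x.2)
      = Real.exp (-a) • yt x := by
    intro x a
    simp [hyt]
  have hrot : ∀ δ : ℝ, 0 < δ → δ ≤ 1 / (2 * C) →
      ∫ x in T, Complex.exp (Complex.I * (B x x : ℝ) - (δ * E2 x : ℝ))
        = Complex.exp (Complex.I * (Real.pi * ((n : ℝ) - 1) / 4 : ℝ)) *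
          ∫ x in T', Complex.exp (Complex.I * α δ x + β δ x - Complex.I * γ δ x) := by
    intro δ hδ hδC
    have hδC' : δ * C ≤ 1 := by
      have h1 : δ * C ≤ 1 / (2 * C) * C := mul_le_mul_of_nonneg_right hδC (by linarith)
      have h2 : 1 / (2 * C) * C = 1 / 2 := by
        field_simp
      linarith
    rw [hcv]
    simp only [hsplit]
    refine rotate T' hT'm hTcyl (α δ) (β δ) (γ δ) (hαc δ) (hβc δ) (hγc δ) (1 + δ * C)
      ?_ ?_ ?_ ?_ ?_ (δ / C) (by positivity) ?_
    · intro x
      rw [hα]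
      simp only
      refine (norm_sub_le _ _).trans ?_
      rw [norm_mul, Complex.norm_I, one_mul, Complex.norm_real, Complex.norm_real,
        Real.norm_eq_abs, Real.norm_eq_abs, abs_of_nonneg (E2_nonneg _),
        abs_of_nonneg (mul_nonneg hδ.le (E2_nonneg _))]
      have h1 := hEgs x
      have h2 := hE2s x
      have h3 := E2_nonneg (g (yt x))
      have h4 := E2_nonneg (yt x)
      nlinarith
    · intro x
      rw [hγ]
      simp only
      refine (norm_sub_le _ _).trans ?_
      rw [norm_neg, norm_mul, Complex.norm_I, one_mul, Complex.norm_real, Complex.norm_real,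
        Real.norm_eq_abs, Real.norm_eq_abs, abs_of_nonneg (E2_nonneg _),
        abs_of_nonneg (mul_nonneg hδ.le (E2_nonneg _))]
      have h1 := hEgs x
      have h2 := hE2s x
      have h3 := E2_nonneg (g (ys x))
      have h4 := E2_nonneg (ys x)
      nlinarith
    · intro x a
      rw [hα]
      simp only
      rw [hysa, map_smul, E2_smul, E2_smul, ← Real.exp_nat_mul]
      push_cast
      ring
    · intro x a
      rw [hβ]
      simp only
      rw [hysa, hyta, map_smul, map_smul, I2_smul_left, I2_smul_right, ← mul_assoc (Real.exp a),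
        ← Real.exp_add]
      simp
    · intro x a
      rw [hγ]
      simp only
      rw [hyta, map_smul, E2_smul, E2_smul, ← Real.exp_nat_mul]
      push_cast
      rw [show ((2 : ℂ) * -(a : ℂ)) = -(2 * a) by ring]
      ring
    · intro θ hθ x
      have hexp : Complex.exp (θ * Complex.I) = (Real.cos θ : ℂ) + (Real.sin θ : ℂ) * Complex.I := by
        rw [Complex.exp_mul_I]
        push_cast
        rfl
      have hexp' : (Complex.exp (θ * Complex.I))⁻¹
          = (Real.cos θ : ℂ) - (Real.sin θ : ℂ) * Complex.I := by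
        rw [← Complex.exp_neg, show -((θ : ℂ) * Complex.I) = ((-θ : ℝ) : ℂ) * Complex.I by
          push_cast; ring, Complex.exp_mul_I]
        push_cast
        rw [Complex.cos_neg, Complex.sin_neg]
        ring
      rw [hexp', hexp, hα, hβ, hγ]
      simp only [Complex.add_re, Complex.mul_re, Complex.sub_re, Complex.ofReal_re, Complex.I_re,
        Complex.I_im, Complex.ofReal_im, Complex.add_im, Complex.mul_im, Complex.sub_im,
        Complex.neg_re, Complex.neg_im]
      have hc0 : 0 ≤ Real.cos θ := Real.cos_nonneg_of_mem_Icc ⟨by linarith [hθ.1, Real.pi_pos], hθ.2⟩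
      have hs0 : 0 ≤ Real.sin θ := Real.sin_nonneg_of_nonneg_of_le_pi hθ.1
        (by linarith [hθ.2, Real.pi_pos])
      have hcs : 1 ≤ Real.cos θ + Real.sin θ := by
        nlinarith [Real.sin_sq_add_cos_sq θ, mul_nonneg hc0 hs0]
      have hc1 : Real.cos θ ≤ 1 := Real.cos_le_one θ
      have h1 := hEgs x
      have h2 := hE2s x
      have h3 : δ / C * E2 x ≤ δ * E2 (g x) := by
        have h4 := hC' x
        rw [div_mul_eq_mul_div, div_le_iff₀ (by linarith)]
        nlinarith
      have h4 : δ * (1 - Real.cos θ) * (E2 (g (ys x)) + E2 (g (yt x)))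
          ≤ Real.sin θ * E2 x := by
        have h5 : δ * (1 - Real.cos θ) * (E2 (g (ys x)) + E2 (g (yt x)))
            ≤ δ * (1 - Real.cos θ) * (C * E2 x) :=
          mul_le_mul_of_nonneg_left h1 (mul_nonneg hδ.le (by linarith))
        have h6 : δ * (1 - Real.cos θ) * (C * E2 x) = (δ * C) * ((1 - Real.cos θ) * E2 x) := by ring
        have h7 : 0 ≤ (1 - Real.cos θ) * E2 x := mul_nonneg (by linarith) (E2_nonneg x)
        have h8 : (1 - Real.cos θ) * E2 x ≤ Real.sin θ * E2 x :=
          mul_le_mul_of_nonneg_right (by linarith) (E2_nonneg x)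
        nlinarith
      have h5 := hEg x
      rw [← h2] at h4
      nlinarith
  -- the limit
  have hlim : Tendsto (fun δ : ℝ =>
      ∫ x in T', Complex.exp (Complex.I * α δ x + β δ x - Complex.I * γ δ x)) (𝓝[>] 0)
      (𝓝 (∫ x in T', Complex.exp ((-E2 x : ℝ) : ℂ))) := by
    refine tendsto_integral_filter_of_dominated_convergence
      (fun x => Real.exp (-(1 / 2 * E2 x))) ?_ ?_ ?_ ?_
    · refine Eventually.of_forall fun δ => Continuous.aestronglyMeasurable ?_
      have := hαc δ
      have := hβc δ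
      have := hγc δ
      fun_prop
    · have hev : ∀ᶠ δ : ℝ in 𝓝[>] 0, δ ≤ 1 / (2 * C) :=
        Filter.mem_of_superset (Ioc_mem_nhdsGT (show (0 : ℝ) < 1 / (2 * C) by positivity))
          fun δ hδ => hδ.2
      filter_upwards [hev, self_mem_nhdsWithin] with δ hδC hδ
      refine ae_of_all _ fun x => ?_
      have hδ' : 0 < δ := hδ
      have hδC' : δ * C ≤ 1 / 2 := by
        have h1 : δ * C ≤ 1 / (2 * C) * C := mul_le_mul_of_nonneg_right hδC (by linarith)
        have h2 : 1 / (2 * C) * C = 1 / 2 := by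
          field_simp
        linarith
      rw [Complex.norm_exp, Real.exp_le_exp, hα, hβ, hγ]
      simp only [Complex.add_re, Complex.mul_re, Complex.sub_re, Complex.ofReal_re, Complex.I_re,
        Complex.I_im, Complex.ofReal_im, Complex.add_im, Complex.mul_im, Complex.sub_im,
        Complex.neg_re, Complex.neg_im]
      have h1 := hEgs x
      have h2 := hE2s x
      have h3 := (abs_le.1 (abs_two_I2_le (g (ys x)) (g (yt x)))).1
      have h4 : -(δ * (2 * I2 (g (ys x)) (g (yt x)))) ≤ δ * (C * E2 x) := by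
        nlinarith
      have h5 : δ * (C * E2 x) ≤ 1 / 2 * E2 x := by
        rw [← mul_assoc]
        exact mul_le_mul_of_nonneg_right hδC' (E2_nonneg x)
      linarith
    · exact (integrable_gauss (n := n) (1 / 2) (by norm_num)).integrableOn
    · refine ae_of_all _ fun x => ?_
      have h1 : Continuous (fun δ : ℝ =>
          Complex.exp (Complex.I * α δ x + β δ x - Complex.I * γ δ x)) := by
        rw [hα, hβ, hγ]
        fun_prop
      have h2 := (h1.tendsto 0).mono_left (nhdsWithin_le_nhds (s := Set.Ioi 0))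
      have h3 : Complex.exp (Complex.I * α 0 x + β 0 x - Complex.I * γ 0 x)
          = Complex.exp ((-E2 x : ℝ) : ℂ) := by
        rw [hα, hβ, hγ, ← hE2s x]
        congr 1
        push_cast
        linear_combination ((E2 (ys x) : ℂ) + (E2 (yt x) : ℂ)) * Complex.I_sq
      rw [h3] at h2
      exact h2
  have hval : ∫ x in T', Complex.exp ((-E2 x : ℝ) : ℂ)
      = ((Real.pi ^ (((n : ℝ) + 1) / 2) * (1 / 2) ^ s.card : ℝ) : ℂ) := by
    rw [← integral_orthant s e' hunit' horth' he'2, ← integral_complex_ofReal]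
    simp only [Complex.ofReal_exp]
    rfl
  rw [hval] at hlim
  refine (hlim.const_mul _).congr' ?_
  have hev : ∀ᶠ δ : ℝ in 𝓝[>] 0, δ ≤ 1 / (2 * C) :=
    Filter.mem_of_superset (Ioc_mem_nhdsGT (show (0 : ℝ) < 1 / (2 * C) by positivity))
      fun δ hδ => hδ.2
  filter_upwards [hev, self_mem_nhdsWithin] with δ hδC hδ
  exact (hrot δ hδ hδC).symm

end Pool.Agent.RA
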