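import Pool.Agent.Lib_helper54.SchmidtTensor

/-!
Counting exponents and the choice of the exponent gap.
-/

namespace Pool.Agent.Lib_helper54.Schmidt

theorem card_smallSet_le (p n d : ℕ) {y : ℝ} (hy : 0 < y) (hy1 : y ≤ 1) :
    ((smallSet p n d).card : ℝ) * y ^ ((p - 1) * n) ≤
      (∑ j : Fin p, y ^ (d * (j : ℕ))) ^ n := by
  have h1 : (∑ j : Fin p, y ^ (d * (j : ℕ))) ^ n =
      ∑ γ : Fin n → Fin p, y ^ (d * ∑ i, (γ i : ℕ)) := by
    have h2 : (∑ j : Fin p, y ^ (d * (j : ℕ))) ^ n =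
        ∏ _i : Fin n, ∑ j : Fin p, y ^ (d * (j : ℕ)) := by simp
    rw [h2, Finset.prod_univ_sum, Fintype.piFinset_univ]
    refine Finset.sum_congr rfl fun γ _ => ?_
    rw [Finset.mul_sum, Finset.prod_pow_eq_pow_sum]
  rw [h1, ← nsmul_eq_mul, ← Finset.sum_const]
  calc ∑ _γ ∈ smallSet p n d, y ^ ((p - 1) * n)
      ≤ ∑ γ ∈ smallSet p n d, y ^ (d * ∑ i, (γ i : ℕ)) := by
        refine Finset.sum_le_sum fun γ hγ => ?_
        exact pow_le_pow_of_le_one hy.le hy1 (Finset.mem_filter.1 hγ).2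
    _ ≤ ∑ γ : Fin n → Fin p, y ^ (d * ∑ i, (γ i : ℕ)) :=
        Finset.sum_le_sum_of_subset_of_nonneg (Finset.subset_univ _) fun γ _ _ =>
          pow_nonneg hy.le _

theorem exists_y (p d : ℕ) (hp : 2 ≤ p) (hd : 3 ≤ d) :
    ∃ y : ℝ, 0 < y ∧ y ≤ 1 ∧ ∑ j : Fin p, y ^ (d * (j : ℕ)) < p * y ^ (p - 1) := by
  let g : ℝ → ℝ := fun y => ∑ j ∈ Finset.range p, y ^ (d * j) - p * y ^ (p - 1)
  have hder : HasDerivAt g (∑ j ∈ Finset.range p, ((d * j : ℕ) : ℝ) * 1 ^ (d * j - 1) -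
      p * (((p - 1 : ℕ) : ℝ) * 1 ^ (p - 1 - 1))) 1 := by
    refine HasDerivAt.sub ?_ ((hasDerivAt_pow (p - 1) 1).const_mul (p : ℝ))
    have := HasDerivAt.fun_sum (u := Finset.range p) (x := (1 : ℝ))
      (A := fun j => fun y : ℝ => y ^ (d * j))
      (A' := fun j => ((d * j : ℕ) : ℝ) * 1 ^ (d * j - 1)) (fun j _ => hasDerivAt_pow (d * j) 1)
    exact this
  have hpos : 0 < (∑ j ∈ Finset.range p, ((d * j : ℕ) : ℝ) * 1 ^ (d * j - 1) -
      p * (((p - 1 : ℕ) : ℝ) * 1 ^ (p - 1 - 1))) := by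
    have h1 : ∑ j ∈ Finset.range p, ((d * j : ℕ) : ℝ) * 1 ^ (d * j - 1) =
        d * ((p : ℝ) * (p - 1) / 2) := by
      simp only [one_pow, mul_one]
      have h2 : (∑ j ∈ Finset.range p, j) * 2 = p * (p - 1) := Finset.sum_range_id_mul_two p
      have h3 : ((∑ j ∈ Finset.range p, j : ℕ) : ℝ) * 2 = p * (p - 1) := by
        have := congrArg (Nat.cast : ℕ → ℝ) h2
        rw [Nat.cast_mul, Nat.cast_mul, Nat.cast_sub (by omega)] at this
        simpa using this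
      have h4 : ∑ j ∈ Finset.range p, ((d * j : ℕ) : ℝ) = d * ((∑ j ∈ Finset.range p, j : ℕ) : ℝ) := by
        push_cast
        rw [Finset.mul_sum]
      rw [h4]
      linear_combination (d : ℝ) / 2 * h3
    rw [h1, one_pow, mul_one, Nat.cast_sub (by omega)]
    have hp' : (2 : ℝ) ≤ p := by exact_mod_cast hp
    have hd' : (3 : ℝ) ≤ d := by exact_mod_cast hd
    push_cast
    nlinarith [mul_pos (show (0 : ℝ) < p by linarith) (show (0 : ℝ) < p - 1 by linarith)]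
  have hg1 : g 1 = 0 := by simp [g]
  have htend := hasDerivAt_iff_tendsto_slope.1 hder
  have hev := htend.eventually (lt_mem_nhds hpos)
  have hev2 : ∀ᶠ y in nhdsWithin (1 : ℝ) (Set.Iio 1), 0 < slope g 1 y :=
    hev.filter_mono (nhdsWithin_mono _ (fun y hy => ne_of_lt hy))
  have hev3 : ∀ᶠ y in nhdsWithin (1 : ℝ) (Set.Iio 1), y ∈ Set.Ioo (0 : ℝ) 1 :=
    Ioo_mem_nhdsLT (by norm_num)
  obtain ⟨y, hy, hy01⟩ := (hev2.and hev3).exists
  refine ⟨y, hy01.1, hy01.2.le, ?_⟩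
  rw [slope_def_field, hg1, sub_zero] at hy
  have hneg : y - 1 < 0 := by have := hy01.2; linarith
  have hgy : g y < 0 := by
    by_contra hcon
    push Not at hcon
    have := div_nonpos_of_nonneg_of_nonpos hcon hneg.le
    linarith
  rw [Fin.sum_univ_eq_sum_range (fun j => y ^ (d * j)) p]
  simp only [g] at hgy
  linarith

/-- exponential bound with a base smaller than `p` -/
theorem exists_base (p d : ℕ) (hp : 2 ≤ p) (hd : 3 ≤ d) :
    ∃ ρ : ℝ, 0 < ρ ∧ ρ < p ∧ ∀ n : ℕ, ((smallSet p n d).card : ℝ) ≤ ρ ^ n := by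
  obtain ⟨y, hy, hy1, hlt⟩ := exists_y p d hp hd
  have hypow : 0 < y ^ (p - 1) := pow_pos hy _
  have hsum : 0 < ∑ j : Fin p, y ^ (d * (j : ℕ)) := by
    have : Nonempty (Fin p) := ⟨⟨0, by omega⟩⟩
    exact Finset.sum_pos (fun j _ => pow_pos hy _) Finset.univ_nonempty
  refine ⟨(∑ j : Fin p, y ^ (d * (j : ℕ))) / y ^ (p - 1), div_pos hsum hypow,
    (div_lt_iff₀ hypow).2 hlt, fun n => ?_⟩
  rw [div_pow, le_div_iff₀ (pow_pos hypow n), ← pow_mul]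
  exact card_smallSet_le p n d hy hy1

/-- the exponent gap -/
theorem exists_gap (p d : ℕ) (hp : 2 ≤ p) (hd : 3 ≤ d) :
    ∃ ε : ℝ, 0 < ε ∧ ∀ C : ℝ, ∃ n : ℕ,
      C * ((d * (smallSet p n d).card : ℕ) : ℝ) ^ (1 + ε) * 2 ^ (d - 1) < (p : ℝ) ^ n := by
  obtain ⟨ρ, hρ, hρp, hcard⟩ := exists_base p d hp hd
  have hp0 : (0 : ℝ) < p := hρ.trans hρp
  have hcont : Filter.Tendsto (fun ε : ℝ => ρ ^ (1 + ε)) (nhdsWithin 0 (Set.Ioi 0)) (nhds (ρ ^ (1 + (0 : ℝ)))) := by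
    have : Continuous fun ε : ℝ => ρ ^ (1 + ε) :=
      (Real.continuous_const_rpow hρ.ne').comp (continuous_const.add continuous_id)
    exact (this.tendsto 0).mono_left nhdsWithin_le_nhds
  rw [add_zero, Real.rpow_one] at hcont
  have h1 : ∀ᶠ ε in nhdsWithin (0 : ℝ) (Set.Ioi 0), ρ ^ (1 + ε) < p := hcont.eventually (gt_mem_nhds hρp)
  obtain ⟨ε, hε, hε0⟩ := (h1.and self_mem_nhdsWithin).exists
  have hε0' : (0 : ℝ) < ε := hε0
  refine ⟨ε, hε0', fun C => ?_⟩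
  set q : ℝ := ρ ^ (1 + ε) / p with hq
  have hq0 : 0 ≤ q := by positivity
  have hq1 : q < 1 := (div_lt_one hp0).2 hε
  set D : ℝ := |C| * (d : ℝ) ^ (1 + ε) * 2 ^ (d - 1) with hD
  have htend : Filter.Tendsto (fun n : ℕ => D * q ^ n) Filter.atTop (nhds (D * 0)) :=
    (tendsto_pow_atTop_nhds_zero_of_lt_one hq0 hq1).const_mul D
  rw [mul_zero] at htend
  obtain ⟨n, hn⟩ := (htend.eventually (gt_mem_nhds (show (0 : ℝ) < 1 by norm_num))).exists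
  refine ⟨n, ?_⟩
  have hpn : (0 : ℝ) < (p : ℝ) ^ n := pow_pos hp0 n
  have h2 : D * (ρ ^ (1 + ε)) ^ n < (p : ℝ) ^ n := by
    rw [hq, div_pow, ← mul_div_assoc, div_lt_one hpn] at hn
    exact hn
  refine lt_of_le_of_lt ?_ h2
  have h3 : ((d * (smallSet p n d).card : ℕ) : ℝ) ^ (1 + ε) ≤
      (d : ℝ) ^ (1 + ε) * (ρ ^ (1 + ε)) ^ n := by
    have h4 : ((d * (smallSet p n d).card : ℕ) : ℝ) ≤ (d : ℝ) * ρ ^ n := by
      push_cast
      exact mul_le_mul_of_nonneg_left (hcard n) (Nat.cast_nonneg _)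
    refine (Real.rpow_le_rpow (Nat.cast_nonneg _) h4 (by linarith)).trans (le_of_eq ?_)
    rw [Real.mul_rpow (Nat.cast_nonneg _) (pow_nonneg hρ.le n), ← Real.rpow_natCast, ← Real.rpow_mul hρ.le,
      ← Real.rpow_natCast, ← Real.rpow_mul hρ.le, mul_comm (n : ℝ) (1 + ε)]
  calc C * ((d * (smallSet p n d).card : ℕ) : ℝ) ^ (1 + ε) * 2 ^ (d - 1)
      ≤ |C| * ((d * (smallSet p n d).card : ℕ) : ℝ) ^ (1 + ε) * 2 ^ (d - 1) := by
        gcongr
        exact le_abs_self C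
    _ ≤ |C| * ((d : ℝ) ^ (1 + ε) * (ρ ^ (1 + ε)) ^ n) * 2 ^ (d - 1) := by
        gcongr
    _ = D * (ρ ^ (1 + ε)) ^ n := by rw [hD]; ring

end Pool.Agent.Lib_helper54.Schmidt
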