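import Mathlib

/-!
Schmidt rank of polynomials, multilinear polynomials.
-/

namespace Pool.Agent.Lib_helper54.Schmidt

open MvPolynomial

/-- `HasRankLE d r P`: the polynomial `P` is a sum of `r` products `Q i * S i` of polynomials
of (total) degree smaller than `d`. -/
def HasRankLE {R σ : Type*} [CommSemiring R] (d r : ℕ) (P : MvPolynomial σ R) : Prop :=
  ∃ Q S : Fin r → MvPolynomial σ R,
    (∀ i, (Q i).totalDegree < d ∧ (S i).totalDegree < d) ∧ P = ∑ i, Q i * S i

/-- The Schmidt rank of a polynomial `P` of degree `d`: the least `r` such that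
`P = ∑ i < r, Q i * S i` with polynomials `Q i`, `S i` of degree smaller than `d`. -/
noncomputable def schmidtRank {R σ : Type*} [CommSemiring R] (d : ℕ) (P : MvPolynomial σ R) : ℕ :=
  sInf {r : ℕ | HasRankLE d r P}

/-- The multilinear polynomial of degree `d` attached to a multilinear form
`F : K^m × ... × K^m → K` (`d` factors), in the `d * m` coordinates `X (j, i)`. -/
noncomputable def multilinearPoly {K : Type*} [CommSemiring K] {d m : ℕ}
    (F : MultilinearMap K (fun _ : Fin d => Fin m → K) K) : MvPolynomial (Fin d × Fin m) K :=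
  ∑ f : Fin d → Fin m, C (F fun j => Pi.single (f j) 1) * ∏ j, X (j, f j)

/-- `r_K(F)`: the Schmidt rank over `K` of the multilinear polynomial of `F`. -/
noncomputable def rank {K : Type*} [CommSemiring K] {d m : ℕ}
    (F : MultilinearMap K (fun _ : Fin d => Fin m → K) K) : ℕ :=
  schmidtRank d (multilinearPoly F)

/-- `r_{K̄}(F)`: the Schmidt rank over the algebraic closure of `K` of the multilinear
polynomial of `F`. -/
noncomputable def rankBar {K : Type*} [Field K] {d m : ℕ}
    (F : MultilinearMap K (fun _ : Fin d => Fin m → K) K) : ℕ :=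
  schmidtRank d ((multilinearPoly F).map (algebraMap K (AlgebraicClosure K)))

theorem multilinear_expand {K : Type*} [CommSemiring K] {d m : ℕ}
    (F : MultilinearMap K (fun _ : Fin d => Fin m → K) K) (c : Fin d → Fin m → K) :
    F c = ∑ f : Fin d → Fin m, (F fun j => Pi.single (f j) 1) * ∏ j, c j (f j) := by
  have h1 : c = fun j => ∑ i, c j i • (Pi.single i 1 : Fin m → K) := by
    funext j
    exact (pi_eq_sum_univ' (c j)).trans (by simp)
  conv_lhs => rw [h1]
  rw [MultilinearMap.map_sum]
  refine Finset.sum_congr rfl fun f _ => ?_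
  rw [MultilinearMap.map_smul_univ, smul_eq_mul, mul_comm]

/-- Sanity check: the polynomial function of `multilinearPoly F` is `F`. -/
theorem eval_multilinearPoly {K : Type*} [CommSemiring K] {d m : ℕ}
    (F : MultilinearMap K (fun _ : Fin d => Fin m → K) K) (x : Fin d → Fin m → K) :
    eval (fun v => x v.1 v.2) (multilinearPoly F) = F x := by
  rw [multilinear_expand F x, multilinearPoly, map_sum]
  refine Finset.sum_congr rfl fun f _ => ?_
  rw [map_mul, eval_C, map_prod]
  simp only [eval_X]

end Pool.Agent.Lib_helper54.Schmidt
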