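import Pool.Agent.Lib_helper54.SchmidtDefs

/-!
Upper bound: Schmidt rank from a sparse representation in another basis.
-/

namespace Pool.Agent.Lib_helper54.Schmidt

open MvPolynomial

variable {L : Type*} [Field L] {d m : ℕ}

theorem hasRankLE_of_fintype {σ : Type*} {α : Type*} [Fintype α] (Q S : α → MvPolynomial σ L)
    (h : ∀ i, (Q i).totalDegree < d ∧ (S i).totalDegree < d) :
    HasRankLE d (Fintype.card α) (∑ i, Q i * S i) := by
  refine ⟨fun i => Q ((Fintype.equivFin α).symm i), fun i => S ((Fintype.equivFin α).symm i),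
    fun i => h _, ?_⟩
  exact (Equiv.sum_comp (Fintype.equivFin α).symm fun i => Q i * S i).symm

/-- upper bound lemma -/
theorem upper_bound {Γ : Type*} [Fintype Γ] [DecidableEq Γ] (hd : 2 ≤ d)
    (T : (Fin d → Fin m) → L) (c : Fin m → Γ → L) (μ : (Fin d → Γ) → L)
    (hT : ∀ f, T f = ∑ g : Fin d → Γ, μ g * ∏ j, c (f j) (g j))
    (small : Finset Γ) (hμ : ∀ g, μ g ≠ 0 → ∃ j, g j ∈ small) :
    HasRankLE d (d * small.card)
      (∑ f : Fin d → Fin m, C (T f) * ∏ j, X (j, f j) : MvPolynomial (Fin d × Fin m) L) := by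
  classical
  have hd0 : 0 < d := by omega
  -- the new linear forms
  let y : Fin d → Γ → MvPolynomial (Fin d × Fin m) L := fun j γ => ∑ i, C (c i γ) * X (j, i)
  have hy : ∀ j γ, (y j γ).totalDegree ≤ 1 := by
    intro j γ
    refine totalDegree_finsetSum_le fun i _ => ?_
    refine (totalDegree_mul _ _).trans ?_
    rw [totalDegree_C, zero_add]
    exact (totalDegree_X _).le
  have hchoose : ∀ g : Fin d → Γ, ∃ j : Fin d, μ g ≠ 0 → g j ∈ small := by
    intro g
    by_cases h : μ g = 0
    · exact ⟨⟨0, hd0⟩, fun h' => absurd h h'⟩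
    · obtain ⟨j, hj⟩ := hμ g h
      exact ⟨j, fun _ => hj⟩
  choose J hJ using hchoose
  have h1 : (∑ f : Fin d → Fin m, C (T f) * ∏ j, X (j, f j) :
      MvPolynomial (Fin d × Fin m) L) = ∑ g : Fin d → Γ, C (μ g) * ∏ j, y j (g j) := by
    have h2 : ∀ g : Fin d → Γ, C (μ g) * ∏ j, y j (g j) =
        ∑ f : Fin d → Fin m, C (μ g * ∏ j, c (f j) (g j)) * ∏ j, X (j, f j) := by
      intro g
      have h3 : ∏ j, y j (g j) = ∑ f : Fin d → Fin m, ∏ j, (C (c (f j) (g j)) * X (j, f j)) := by
        simp only [y]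
        rw [Finset.prod_univ_sum, Fintype.piFinset_univ]
      rw [h3, Finset.mul_sum]
      refine Finset.sum_congr rfl fun f _ => ?_
      rw [Finset.prod_mul_distrib, map_mul, map_prod, mul_assoc]
    simp only [h2]
    rw [Finset.sum_comm]
    refine Finset.sum_congr rfl fun f _ => ?_
    rw [← Finset.sum_mul, hT f, map_sum]
  have h4 : ∑ g : Fin d → Γ, C (μ g) * ∏ j, y j (g j) =
      ∑ x : Fin d × small, y x.1 x.2 * ∑ g : Fin d → Γ,
        if J g = x.1 ∧ g x.1 = x.2 then C (μ g) * ∏ j ∈ Finset.univ.erase x.1, y j (g j) else 0 := by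
    simp only [Finset.mul_sum]
    rw [Finset.sum_comm]
    refine Finset.sum_congr rfl fun g _ => ?_
    by_cases hg : μ g = 0
    · rw [hg]; simp
    · rw [Finset.sum_eq_single (J g, ⟨g (J g), hJ g hg⟩)]
      · rw [if_pos ⟨rfl, rfl⟩, ← Finset.mul_prod_erase Finset.univ _ (Finset.mem_univ (J g))]
        ring
      · rintro ⟨j, γ, hγ⟩ - hne
        rw [if_neg, mul_zero]
        rintro ⟨rfl, h⟩
        apply hne
        simp only at h
        subst h
        rfl
      · intro h; exact absurd (Finset.mem_univ _) h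
  rw [h1, h4]
  have hcard : d * small.card = Fintype.card (Fin d × small) := by
    rw [Fintype.card_prod, Fintype.card_fin, Fintype.card_coe]
  rw [hcard]
  refine hasRankLE_of_fintype _ _ fun x => ⟨lt_of_le_of_lt (hy _ _) hd, ?_⟩
  refine lt_of_le_of_lt (b := d - 1) ?_ (by omega)
  refine totalDegree_finsetSum_le fun g _ => ?_
  split_ifs
  · refine (totalDegree_mul _ _).trans ?_
    rw [totalDegree_C, zero_add]
    refine (totalDegree_finsetProd _ _).trans ?_
    refine (Finset.sum_le_sum fun j _ => hy j (g j)).trans ?_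
    rw [Finset.sum_const, Finset.card_erase_of_mem (Finset.mem_univ _), Finset.card_univ,
      Fintype.card_fin, smul_eq_mul, mul_one]
  · rw [totalDegree_zero]; omega

end Pool.Agent.Lib_helper54.Schmidt
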