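import Pool.Agent.Lib_helper54.SchmidtLower
import Pool.Agent.Lib_helper54.SchmidtUpper

/-!
The construction: purely inseparable extensions.
-/

namespace Pool.Agent.Lib_helper54.Schmidt

open MvPolynomial TensorProduct

/-- `p`-independence: the monomials `t^β`, `0 ≤ β i < p`, are linearly independent over `K^p`. -/
def PIndep (p : ℕ) {K : Type*} [Field K] {n : ℕ} (t : Fin n → K) : Prop :=
  ∀ κ : (Fin n → Fin p) → K, ∑ β, κ β ^ p * ∏ i, t i ^ (β i : ℕ) = 0 → ∀ β, κ β = 0

section

variable (p : ℕ) [hp : Fact p.Prime] {K : Type*} [Field K] [CharP K p] {n : ℕ}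
  {L : Type*} [Field L] [Algebra K L]

/-- the monomials in the `p`-th roots -/
noncomputable def mono {p n : ℕ} {L : Type*} [Field L] (a : Fin n → L) (β : Fin n → Fin p) : L :=
  ∏ i, a i ^ (β i : ℕ)

theorem mono_linearIndependent {t : Fin n → K} (ht : PIndep p t) {a : Fin n → L}
    (ha : ∀ i, a i ^ p = algebraMap K L (t i)) :
    LinearIndependent K (fun β : Fin n → Fin p => mono a β) := by
  rw [Fintype.linearIndependent_iff]
  intro κ hκ
  have : CharP L p := charP_of_injective_algebraMap (algebraMap K L).injective p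
  apply ht
  apply (algebraMap K L).injective
  rw [map_zero, map_sum]
  have h1 : (∑ β, κ β • mono a β) ^ p = 0 := by rw [hκ, zero_pow hp.out.ne_zero]
  rw [sum_pow_char] at h1
  rw [← h1]
  refine Finset.sum_congr rfl fun β _ => ?_
  rw [Algebra.smul_def, mul_pow, map_mul, map_pow, map_prod, mono, ← Finset.prod_pow]
  congr 1
  refine Finset.prod_congr rfl fun i _ => ?_
  rw [map_pow, ← ha i, ← pow_mul, ← pow_mul, mul_comm]

omit [CharP K p] in
theorem mono_mem_span {t : Fin n → K} {a : Fin n → L}
    (ha : ∀ i, a i ^ p = algebraMap K L (t i)) (s : Fin n → ℕ) :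
    ∏ i, a i ^ s i ∈ Submodule.span K (Set.range fun β : Fin n → Fin p => mono a β) := by
  have h1 : ∏ i, a i ^ s i = (∏ i, t i ^ (s i / p)) •
      mono a (fun i => (⟨s i % p, Nat.mod_lt _ hp.out.pos⟩ : Fin p)) := by
    rw [Algebra.smul_def, map_prod, mono, ← Finset.prod_mul_distrib]
    refine Finset.prod_congr rfl fun i _ => ?_
    rw [map_pow, ← ha i, ← pow_mul, ← pow_add, Nat.div_add_mod]
  rw [h1]
  exact Submodule.smul_mem _ _ (Submodule.subset_span ⟨_, rfl⟩)

omit [CharP K p] in
theorem adjoin_eq_span {t : Fin n → K} {a : Fin n → L}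
    (ha : ∀ i, a i ^ p = algebraMap K L (t i)) :
    Subalgebra.toSubmodule (Algebra.adjoin K (Set.range a)) =
      Submodule.span K (Set.range fun β : Fin n → Fin p => mono a β) := by
  apply le_antisymm
  · intro x hx
    rw [Subalgebra.mem_toSubmodule, Algebra.adjoin_range_eq_range_aeval] at hx
    obtain ⟨q, rfl⟩ := hx
    change aeval a q ∈ _
    rw [q.as_sum, map_sum]
    refine Submodule.sum_mem _ fun s _ => ?_
    rw [aeval_monomial, ← Algebra.smul_def, Finsupp.prod_fintype _ _ (fun i => pow_zero _)]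
    exact Submodule.smul_mem _ _ (mono_mem_span p ha _)
  · rw [Submodule.span_le]
    rintro _ ⟨β, rfl⟩
    change mono a β ∈ Algebra.adjoin K (Set.range a)
    exact Subalgebra.prod_mem _ fun i _ => Subalgebra.pow_mem _
      (Algebra.subset_adjoin (Set.mem_range_self i)) _

/-- The multilinear form `λ (x_1 ⋯ x_d)` in coordinates w.r.t. a family `b`. -/
noncomputable def prodForm {m : ℕ} (d : ℕ) (φ : L →ₗ[K] K) (b : Fin m → L) :
    MultilinearMap K (fun _ : Fin d => Fin m → K) K :=
  φ.compMultilinearMap ((MultilinearMap.mkPiAlgebra K (Fin d) L).compLinearMap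
    (fun _ => Fintype.linearCombination K b))

omit [CharP K p] hp in
theorem prodForm_apply {m : ℕ} (d : ℕ) (φ : L →ₗ[K] K) (b : Fin m → L)
    (x : Fin d → Fin m → K) : prodForm d φ b x = φ (∏ j, ∑ i, x j i • b i) := by
  simp [prodForm, Fintype.linearCombination_apply]

omit [CharP K p] hp in
/-- nonsingularity of `prodForm` on rational points -/
theorem prodForm_nonsing {m : ℕ} (d : ℕ) (φ : L →ₗ[K] K) (hφ : φ 1 = 1) (b : Fin m → L)
    (hb : LinearIndependent K b) (A : Subalgebra K L)
    (hA : Subalgebra.toSubmodule A = Submodule.span K (Set.range b)) [Algebra.IsAlgebraic K L]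
    (c : Fin (d + 1) → Fin m → K) (hc : ∀ j, c j ≠ 0) :
    ∃ c', prodForm (d + 1) φ b (Function.update c (Fin.last d) c') ≠ 0 := by
  classical
  set x : Fin (d + 1) → L := fun j => ∑ i, c j i • b i with hx
  have hx0 : ∀ j, x j ≠ 0 := by
    intro j h
    apply hc j
    funext i
    exact Fintype.linearIndependent_iff.1 hb (c j) h i
  have hxA : ∀ j, x j ∈ A := by
    intro j
    rw [← Subalgebra.mem_toSubmodule, hA]
    exact Submodule.sum_mem _ fun i _ => Submodule.smul_mem _ _ (Submodule.subset_span ⟨i, rfl⟩)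
  set u : L := ∏ j ∈ Finset.univ.erase (Fin.last d), x j with hu
  have hu0 : u ≠ 0 := Finset.prod_ne_zero_iff.2 fun j _ => hx0 j
  have huA : u ∈ A := Subalgebra.prod_mem _ fun j _ => hxA j
  have huinv : u⁻¹ ∈ A := by
    have := A.inv_mem_of_algebraic (x := ⟨u, huA⟩) (Algebra.IsAlgebraic.isAlgebraic u)
    simpa using this
  have huspan : u⁻¹ ∈ Submodule.span K (Set.range b) := by
    rw [← hA]; exact huinv
  obtain ⟨c', hc'⟩ := (Submodule.mem_span_range_iff_exists_fun K).1 huspan
  refine ⟨c', ?_⟩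
  rw [prodForm_apply]
  have h1 : ∏ j, ∑ i, Function.update c (Fin.last d) c' j i • b i = 1 := by
    rw [← Finset.mul_prod_erase Finset.univ _ (Finset.mem_univ (Fin.last d)), Function.update_self,
      hc']
    have h2 : ∏ j ∈ Finset.univ.erase (Fin.last d),
        ∑ i, Function.update c (Fin.last d) c' j i • b i = u := by
      refine Finset.prod_congr rfl fun j hj => ?_
      rw [Function.update_of_ne (Finset.mem_erase.1 hj).1]
    rw [h2, inv_mul_cancel₀ hu0]
  rw [h1, hφ]
  exact one_ne_zero

end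

end Pool.Agent.Lib_helper54.Schmidt
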