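import Pool.Agent.Lib_helper54.SchmidtDefs

/-!
Lower bound: a multilinear form which is nonsingular on `K`-points has Schmidt rank at least
`m / 2 ^ (d - 1)`.
-/

namespace Pool.Agent.Lib_helper54.Schmidt

open MvPolynomial

variable {K : Type*} [Field K] {d m : ℕ}

/-- derivation in direction `c` in the block `k` -/
noncomputable def dir (k : Fin d) : (Fin m → K) →ₗ[K]
    Derivation K (MvPolynomial (Fin d × Fin m) K) (MvPolynomial (Fin d × Fin m) K) :=
  Fintype.linearCombination K (fun i => pderiv (k, i))

theorem dir_apply (k : Fin d) (c : Fin m → K) (Q : MvPolynomial (Fin d × Fin m) K) :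
    dir k c Q = ∑ i, c i • pderiv (k, i) Q := by
  have h : ∀ s : Finset (Fin m), (∑ i ∈ s, c i • pderiv (k, i) :
      Derivation K (MvPolynomial (Fin d × Fin m) K) (MvPolynomial (Fin d × Fin m) K)) Q =
      ∑ i ∈ s, c i • pderiv (k, i) Q := by
    intro s
    induction s using Finset.induction_on with
    | empty => simp
    | insert a s ha ih =>
      rw [Finset.sum_insert ha, Finset.sum_insert ha, Derivation.add_apply, ih,
        Derivation.smul_apply]
  rw [dir, Fintype.linearCombination_apply]
  exact h _

/-- the polynomials of degree smaller than `n` -/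
noncomputable def degLT (K : Type*) [Field K] (d m n : ℕ) :
    Submodule K (MvPolynomial (Fin d × Fin m) K) :=
  Submodule.span K {q | ∃ s : (Fin d × Fin m) →₀ ℕ, s.degree < n ∧ q = monomial s 1}

theorem mem_degLT_of_totalDegree {n : ℕ} {Q : MvPolynomial (Fin d × Fin m) K}
    (h : Q.totalDegree < n) : Q ∈ degLT K d m n := by
  rw [Q.as_sum]
  refine Submodule.sum_mem _ fun s hs => ?_
  have : monomial s (coeff s Q) = coeff s Q • (monomial s (1 : K)) := by
    rw [smul_monomial, smul_eq_mul, mul_one]
  rw [this]
  refine Submodule.smul_mem _ _ (Submodule.subset_span ⟨s, ?_, rfl⟩)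
  refine lt_of_le_of_lt ?_ h
  exact le_totalDegree hs

theorem dir_mem_degLT {n : ℕ} (k : Fin d) (c : Fin m → K) {Q : MvPolynomial (Fin d × Fin m) K}
    (h : Q ∈ degLT K d m (n + 1)) : dir k c Q ∈ degLT K d m n := by
  have : degLT K d m (n + 1) ≤ (degLT K d m n).comap (dir k c).toLinearMap := by
    refine Submodule.span_le.2 ?_
    rintro q ⟨s, hs, rfl⟩
    simp only [Submodule.comap_coe, Set.mem_preimage, SetLike.mem_coe]
    change dir k c _ ∈ _
    rw [dir_apply]
    refine Submodule.sum_mem _ fun i _ => Submodule.smul_mem _ _ ?_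
    rw [pderiv_monomial, one_mul]
    by_cases h0 : s (k, i) = 0
    · simp [h0]
    · have h1 : (monomial (s - Finsupp.single (k, i) 1) ((s (k, i) : ℕ) : K)) =
          ((s (k, i) : ℕ) : K) • monomial (s - Finsupp.single (k, i) 1) (1 : K) := by
        rw [smul_monomial, smul_eq_mul, mul_one]
      rw [h1]
      refine Submodule.smul_mem _ _ (Submodule.subset_span ⟨_, ?_, rfl⟩)
      have hle : Finsupp.single (k, i) 1 ≤ s := by
        rw [Finsupp.single_le_iff]; omega
      have h2 : (s - Finsupp.single (k, i) 1) + Finsupp.single (k, i) 1 = s :=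
        tsub_add_cancel_of_le hle
      have h3 := congrArg Finsupp.degree h2
      rw [map_add, Finsupp.degree_single] at h3
      omega
  exact this h

theorem degLT_zero {Q : MvPolynomial (Fin d × Fin m) K} (h : Q ∈ degLT K d m 0) : Q = 0 := by
  have : degLT K d m 0 = ⊥ := by
    unfold degLT
    rw [Submodule.span_eq_bot]
    rintro q ⟨s, hs, rfl⟩
    omega
  rw [this] at h
  simpa using h

/-- sums of `r` products of polynomials without constant term -/
def InSq (r : ℕ) (S : MvPolynomial (Fin d × Fin m) K) : Prop :=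
  ∃ (α : Type) (_ : Fintype α) (Q R : α → MvPolynomial (Fin d × Fin m) K),
    Fintype.card α = r ∧ (∀ i, constantCoeff (Q i) = 0 ∧ constantCoeff (R i) = 0) ∧
    S = ∑ i, Q i * R i

theorem InSq.constantCoeff_dir {r : ℕ} {S : MvPolynomial (Fin d × Fin m) K} (h : InSq r S)
    (k : Fin d) (c : Fin m → K) : constantCoeff (dir k c S) = 0 := by
  obtain ⟨α, _, Q, R, -, h0, rfl⟩ := h
  rw [map_sum, map_sum]
  refine Finset.sum_eq_zero fun i _ => ?_
  rw [Derivation.leibniz, smul_eq_mul, smul_eq_mul, map_add, map_mul, map_mul, (h0 i).1, (h0 i).2]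
  simp

theorem InSq.step {r : ℕ} {S : MvPolynomial (Fin d × Fin m) K} (h : InSq r S)
    (hr : 2 * r < m) (k : Fin d) : ∃ c : Fin m → K, c ≠ 0 ∧ InSq (2 * r) (dir k c S) := by
  obtain ⟨α, _, Q, R, hcard, h0, rfl⟩ := h
  let Φ : (Fin m → K) →ₗ[K] (α ⊕ α → K) :=
    LinearMap.pi (fun x => Sum.elim
      (fun i => (Fintype.linearCombination K (fun l => constantCoeff (pderiv (k, l) (Q i)))))
      (fun i => (Fintype.linearCombination K (fun l => constantCoeff (pderiv (k, l) (R i))))) x)
  have hker : LinearMap.ker Φ ≠ ⊥ := by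
    apply LinearMap.ker_ne_bot_of_finrank_lt
    rw [Module.finrank_fintype_fun_eq_card, Module.finrank_fintype_fun_eq_card, Fintype.card_sum,
      Fintype.card_fin]
    omega
  obtain ⟨c, hc, hc0⟩ := (Submodule.ne_bot_iff _).1 hker
  refine ⟨c, hc0, α ⊕ α, inferInstance, Sum.elim (fun i => dir k c (Q i)) Q,
    Sum.elim R (fun i => dir k c (R i)), ?_, ?_, ?_⟩
  · rw [Fintype.card_sum]; omega
  · have hval : ∀ P : MvPolynomial (Fin d × Fin m) K, constantCoeff (dir k c P) =
        Fintype.linearCombination K (fun l => constantCoeff (pderiv (k, l) P)) c := by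
      intro P
      rw [dir_apply, map_sum, Fintype.linearCombination_apply]
      refine Finset.sum_congr rfl fun l _ => ?_
      rw [constantCoeff_smul]
    have hc' : Φ c = 0 := hc
    rintro (i | i)
    · refine ⟨?_, (h0 i).2⟩
      have := congrFun hc' (Sum.inl i)
      simp only [Sum.elim_inl]
      rw [hval]
      exact this
    · refine ⟨(h0 i).1, ?_⟩
      have := congrFun hc' (Sum.inr i)
      simp only [Sum.elim_inr]
      rw [hval]
      exact this
  · rw [map_sum, Fintype.sum_sum_type, ← Finset.sum_add_distrib]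
    refine Finset.sum_congr rfl fun i _ => ?_
    rw [Derivation.leibniz]
    simp only [Sum.elim_inl, Sum.elim_inr, smul_eq_mul]
    ring

/-- the partially evaluated multilinear polynomial -/
noncomputable def partialEval (F : MultilinearMap K (fun _ : Fin d => Fin m → K) K) (k : ℕ)
    (c : Fin d → Fin m → K) : MvPolynomial (Fin d × Fin m) K :=
  ∑ f : Fin d → Fin m, C (F fun j => Pi.single (f j) 1) *
    ∏ j : Fin d, (if (j : ℕ) < k then C (c j (f j)) else X (j, f j))

theorem partialEval_zero (F : MultilinearMap K (fun _ : Fin d => Fin m → K) K)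
    (c : Fin d → Fin m → K) : partialEval F 0 c = multilinearPoly F := by
  simp [partialEval, multilinearPoly]

theorem partialEval_full (F : MultilinearMap K (fun _ : Fin d => Fin m → K) K)
    (c : Fin d → Fin m → K) : partialEval F d c = C (F c) := by
  rw [multilinear_expand, map_sum, partialEval]
  refine Finset.sum_congr rfl fun f _ => ?_
  rw [map_mul, map_prod]
  congr 1
  refine Finset.prod_congr rfl fun j _ => ?_
  rw [if_pos j.2]

theorem partialEval_congr (F : MultilinearMap K (fun _ : Fin d => Fin m → K) K) (k : ℕ)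
    (c c' : Fin d → Fin m → K) (h : ∀ j : Fin d, (j : ℕ) < k → c j = c' j) :
    partialEval F k c = partialEval F k c' := by
  refine Finset.sum_congr rfl fun f _ => ?_
  congr 1
  refine Finset.prod_congr rfl fun j _ => ?_
  by_cases hj : (j : ℕ) < k
  · rw [if_pos hj, if_pos hj, h j hj]
  · rw [if_neg hj, if_neg hj]

theorem dir_partialEval (F : MultilinearMap K (fun _ : Fin d => Fin m → K) K) (k : Fin d)
    (c : Fin d → Fin m → K) :
    dir k (c k) (partialEval F k c) = partialEval F (k + 1) c := by
  unfold partialEval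
  rw [map_sum]
  refine Finset.sum_congr rfl fun f _ => ?_
  rw [Derivation.leibniz, smul_eq_mul, smul_eq_mul]
  have hC : dir k (c k) (C (F fun j => Pi.single (f j) 1)) = 0 := derivation_C _ _
  rw [hC, mul_zero, add_zero]
  congr 1
  rw [← Finset.mul_prod_erase Finset.univ _ (Finset.mem_univ k),
    ← Finset.mul_prod_erase Finset.univ (fun j : Fin d =>
      (if (j : ℕ) < k + 1 then C (c j (f j)) else X (j, f j) : MvPolynomial (Fin d × Fin m) K))
      (Finset.mem_univ k), if_neg (lt_irrefl _), if_pos (Nat.lt_succ_self _),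
    Derivation.leibniz, smul_eq_mul, smul_eq_mul]
  have h1 : dir k (c k) (X (k, f k)) = C (c k (f k)) := by
    rw [dir_apply, Finset.sum_eq_single (f k)]
    · rw [pderiv_X_self, ← C_mul', mul_one]
    · intro i _ hi
      rw [pderiv_X_of_ne, smul_zero]
      intro h
      exact hi (Prod.ext_iff.1 h).2.symm
    · intro h; exact absurd (Finset.mem_univ _) h
  have h2 : dir k (c k) (∏ j ∈ Finset.univ.erase k,
      (if (j : ℕ) < k then C (c j (f j)) else X (j, f j) : MvPolynomial (Fin d × Fin m) K)) = 0 := by
    refine Finset.prod_induction _ (fun q => dir k (c k) q = 0) ?_ ?_ ?_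
    · intro a b ha hb
      rw [Derivation.leibniz, ha, hb]; simp
    · exact Derivation.map_one_eq_zero _
    · intro j hj
      have hjk : j ≠ k := (Finset.mem_erase.1 hj).1
      split_ifs with h
      · exact derivation_C _ _
      · rw [dir_apply]
        refine Finset.sum_eq_zero fun i _ => ?_
        rw [pderiv_X_of_ne, smul_zero]
        intro h
        exact hjk (Prod.ext_iff.1 h).1
  rw [h1, h2, mul_zero, zero_add, mul_comm]
  congr 1
  refine Finset.prod_congr rfl fun j hj => ?_
  have hjk : (j : ℕ) ≠ (k : ℕ) := fun h => (Finset.mem_erase.1 hj).1 (Fin.ext h)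
  by_cases h : (j : ℕ) < k
  · rw [if_pos h, if_pos (by omega)]
  · rw [if_neg h, if_neg (by omega)]

/-- The lower bound. -/
theorem lower_bound (F : MultilinearMap K (fun _ : Fin (d + 1) => Fin m → K) K) {r : ℕ}
    (hF : ∀ c : Fin (d + 1) → Fin m → K, (∀ j, c j ≠ 0) →
      ∃ c', F (Function.update c (Fin.last d) c') ≠ 0)
    (hr : HasRankLE (d + 1) r (multilinearPoly F)) : m ≤ 2 ^ d * r := by
  by_contra hlt
  push Not at hlt
  obtain ⟨Q, R, hdeg, hP⟩ := hr
  have hm : 0 < m := lt_of_le_of_lt (Nat.zero_le _) hlt
  set S : MvPolynomial (Fin (d + 1) × Fin m) K :=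
    ∑ i, (Q i - C (constantCoeff (Q i))) * (R i - C (constantCoeff (R i))) with hS
  set E : MvPolynomial (Fin (d + 1) × Fin m) K :=
    ∑ i, (constantCoeff (Q i) • R i + constantCoeff (R i) • Q i -
      (constantCoeff (Q i) * constantCoeff (R i)) • 1) with hE
  have hPSE : multilinearPoly F = S + E := by
    rw [hP, hS, hE, ← Finset.sum_add_distrib]
    refine Finset.sum_congr rfl fun i _ => ?_
    simp only [← C_mul', map_mul]
    ring
  have hEdeg : E ∈ degLT K (d + 1) m (d + 1) := by
    refine Submodule.sum_mem _ fun i _ => Submodule.sub_mem _ (Submodule.add_mem _ ?_ ?_) ?_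
    · exact Submodule.smul_mem _ _ (mem_degLT_of_totalDegree (hdeg i).2)
    · exact Submodule.smul_mem _ _ (mem_degLT_of_totalDegree (hdeg i).1)
    · refine Submodule.smul_mem _ _ (mem_degLT_of_totalDegree ?_)
      rw [totalDegree_one]; omega
  have hSsq : InSq r S := by
    refine ⟨Fin r, inferInstance, _, _, by simp, ?_, hS⟩
    intro i
    simp
  have key : ∀ k : ℕ, k ≤ d → ∃ (c : Fin (d + 1) → Fin m → K)
      (T : MvPolynomial (Fin (d + 1) × Fin m) K →ₗ[K] MvPolynomial (Fin (d + 1) × Fin m) K),
      (∀ j, c j ≠ 0) ∧ T (multilinearPoly F) = partialEval F k c ∧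
      T E ∈ degLT K (d + 1) m (d + 1 - k) ∧ InSq (2 ^ k * r) (T S) := by
    intro k
    induction k with
    | zero =>
      intro _
      refine ⟨fun _ _ => 1, LinearMap.id, ?_, ?_, ?_, ?_⟩
      · intro j h
        exact one_ne_zero (congrFun h ⟨0, hm⟩)
      · rw [partialEval_zero]; rfl
      · exact hEdeg
      · simpa using hSsq
    | succ k ih =>
      intro hk
      obtain ⟨c, T, hc, hT1, hT2, hT3⟩ := ih (by omega)
      have h2r : 2 * (2 ^ k * r) < m := by
        refine lt_of_le_of_lt ?_ hlt
        rw [← mul_assoc, ← pow_succ']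
        exact Nat.mul_le_mul_right _ (Nat.pow_le_pow_right (by norm_num) hk)
      let k' : Fin (d + 1) := ⟨k, by omega⟩
      obtain ⟨c', hc'0, hc'⟩ := hT3.step h2r k'
      refine ⟨Function.update c k' c', (dir k' c').toLinearMap ∘ₗ T, ?_, ?_, ?_, ?_⟩
      · intro j
        by_cases hj : j = k'
        · subst hj; simpa using hc'0
        · rw [Function.update_of_ne hj]; exact hc j
      · have h1 : partialEval F k c = partialEval F k (Function.update c k' c') := by
          refine partialEval_congr F k _ _ fun j hj => ?_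
          rw [Function.update_of_ne]
          intro h
          rw [h] at hj
          exact lt_irrefl _ hj
        have h2 := dir_partialEval F k' (Function.update c k' c')
        rw [Function.update_self] at h2
        change dir k' c' (T (multilinearPoly F)) = _
        rw [hT1, h1]
        exact h2
      · change dir k' c' (T E) ∈ _
        apply dir_mem_degLT
        have : d + 1 - (k + 1) + 1 = d + 1 - k := by omega
        rw [this]
        exact hT2
      · have : 2 ^ (k + 1) * r = 2 * (2 ^ k * r) := by ring
        rw [this]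
        exact hc'
  obtain ⟨c, T, hc, hT1, hT2, hT3⟩ := key d le_rfl
  obtain ⟨c', hc'⟩ := hF c hc
  apply hc'
  have h1 : partialEval F d c = partialEval F (Fin.last d : ℕ)
      (Function.update c (Fin.last d) c') := by
    rw [Fin.val_last]
    refine partialEval_congr F d _ _ fun j hj => ?_
    rw [Function.update_of_ne]
    intro h
    rw [h] at hj
    exact lt_irrefl _ hj
  have h2 := dir_partialEval F (Fin.last d) (Function.update c (Fin.last d) c')
  rw [Function.update_self, ← h1, ← hT1, hPSE, map_add, map_add, Fin.val_last,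
    partialEval_full] at h2
  have h3 : dir (Fin.last d) c' (T E) = 0 := by
    apply degLT_zero
    apply dir_mem_degLT
    have : d + 1 - d = 0 + 1 := by omega
    rw [this] at hT2
    exact hT2
  rw [h3, add_zero] at h2
  have h4 := hT3.constantCoeff_dir (Fin.last d) c'
  rw [h2, constantCoeff_C] at h4
  exact h4

end Pool.Agent.Lib_helper54.Schmidt
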