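import Pool.Agent.Lib_helper54.SchmidtTensor

/-!
Fields of infinite `p`-degree have `p`-independent families of every size.
-/

namespace Pool.Agent.Lib_helper54.Schmidt

open MvPolynomial

variable (p : ℕ) [hp : Fact p.Prime]

/-- the intermediate field `K^p(t_1, ..., t_n)` -/
noncomputable def kpAdjoin (K : Type*) [Field K] [CharP K p] {n : ℕ} (t : Fin n → K) :
    IntermediateField (frobenius K p).fieldRange K :=
  IntermediateField.adjoin (frobenius K p).fieldRange (Set.range t)

theorem exists_PIndep (K : Type*) [Field K] [CharP K p]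
    (hK : ¬ Module.Finite (frobenius K p).fieldRange K) (n : ℕ) :
    ∃ t : Fin n → K, PIndep p t := by
  induction n with
  | zero =>
    refine ⟨fun i => i.elim0, ?_⟩
    intro κ h β
    have hβ : ∀ γ : Fin 0 → Fin p, γ = β := fun γ => Subsingleton.elim _ _
    rw [Fintype.sum_eq_single β (fun γ hγ => absurd (hβ γ) hγ)] at h
    simp only [Finset.univ_eq_empty, Finset.prod_empty, mul_one] at h
    exact pow_eq_zero_iff hp.out.ne_zero |>.1 h
  | succ n ih =>
    obtain ⟨t, ht⟩ := ih
    set M := kpAdjoin p K t with hM
    have hpow : ∀ x : K, x ^ p ∈ M := by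
      intro x
      have : (⟨x ^ p, ⟨x, rfl⟩⟩ : (frobenius K p).fieldRange) • (1 : K) = x ^ p := by
        rw [Subfield.smul_def]; simp
      rw [← this]
      exact M.smul_mem M.one_mem
    have hfin : FiniteDimensional (frobenius K p).fieldRange M := by
      refine IntermediateField.finiteDimensional_adjoin ?_
      rintro x ⟨i, rfl⟩
      refine ⟨Polynomial.X ^ p - Polynomial.C ⟨t i ^ p, ⟨t i, rfl⟩⟩,
        Polynomial.monic_X_pow_sub_C _ hp.out.ne_zero, ?_⟩
      rw [Polynomial.eval₂_sub, Polynomial.eval₂_X_pow, Polynomial.eval₂_C]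
      change t i ^ p - t i ^ p = 0
      rw [sub_self]
    have hne : ∃ s : K, s ∉ M := by
      by_contra hcon
      push Not at hcon
      apply hK
      have htop : M = ⊤ := by
        rw [eq_top_iff]; intro x _; exact hcon x
      rw [htop] at hfin
      exact Module.Finite.equiv
        (IntermediateField.topEquiv (F := (frobenius K p).fieldRange) (E := K)).toLinearEquiv
    obtain ⟨s, hs⟩ := hne
    refine ⟨Fin.cons s t, ?_⟩
    -- the minimal polynomial of `s` over `M` has degree `p`
    set P : Polynomial M := Polynomial.X ^ p - Polynomial.C ⟨s ^ p, hpow s⟩ with hP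
    have hPirr : Irreducible P := by
      refine X_pow_sub_C_irreducible_of_prime hp.out fun b hb => hs ?_
      have h1 : (b : K) ^ p = s ^ p := congrArg Subtype.val hb
      have h2 : (b : K) = s := frobenius_inj K p h1
      rw [← h2]; exact b.2
    have hPmonic : P.Monic := Polynomial.monic_X_pow_sub_C _ hp.out.ne_zero
    have hPs : Polynomial.aeval s P = 0 := by
      rw [hP, map_sub, map_pow, Polynomial.aeval_X, Polynomial.aeval_C]
      change s ^ p - s ^ p = 0
      rw [sub_self]
    have hmin : minpoly M s = P := (minpoly.eq_of_irreducible_of_monic hPirr hPs hPmonic).symm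
    intro κ hκ
    have hmem : ∀ j : Fin p, ∑ γ : Fin n → Fin p, κ (Fin.cons j γ) ^ p * ∏ i, t i ^ (γ i : ℕ) ∈ M := by
      intro j
      refine sum_mem fun γ _ => mul_mem (hpow _) (prod_mem fun i _ => pow_mem ?_ _)
      exact IntermediateField.subset_adjoin _ _ (Set.mem_range_self i)
    set f : Polynomial M := ∑ j : Fin p, Polynomial.C ⟨_, hmem j⟩ * Polynomial.X ^ (j : ℕ) with hf
    have hfs : Polynomial.aeval s f = 0 := by
      rw [hf, map_sum, ← hκ, ← (Fin.consEquiv (fun _ : Fin (n + 1) => Fin p)).sum_comp,
        Fintype.sum_prod_type]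
      refine Finset.sum_congr rfl fun j _ => ?_
      rw [map_mul, map_pow, Polynomial.aeval_X, Polynomial.aeval_C]
      change (∑ γ : Fin n → Fin p, κ (Fin.cons j γ) ^ p * ∏ i, t i ^ (γ i : ℕ)) * s ^ (j : ℕ) = _
      rw [Finset.sum_mul]
      refine Finset.sum_congr rfl fun γ _ => ?_
      have hce : (Fin.consEquiv fun _ : Fin (n + 1) => Fin p) (j, γ) = Fin.cons j γ := rfl
      rw [Fin.prod_univ_succ, hce]
      simp only [Fin.cons_zero, Fin.cons_succ]
      ring
    have hf0 : f = 0 := by
      by_contra hne
      have h1 := minpoly.degree_le_of_ne_zero M s hne hfs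
      have h2 : f.degree < p := Polynomial.degree_sum_fin_lt _
      rw [hmin, hP, Polynomial.degree_X_pow_sub_C hp.out.pos] at h1
      exact absurd (lt_of_le_of_lt h1 h2) (lt_irrefl _)
    have hcoef : ∀ j : Fin p,
        ∑ γ : Fin n → Fin p, κ (Fin.cons j γ) ^ p * ∏ i, t i ^ (γ i : ℕ) = 0 := by
      intro j
      have h1 : f.coeff j = ⟨_, hmem j⟩ := by
        rw [hf, Polynomial.finsetSum_coeff, Finset.sum_eq_single j]
        · simp
        · intro j' _ hj'
          rw [Polynomial.coeff_C_mul, Polynomial.coeff_X_pow, if_neg, mul_zero]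
          intro h; exact hj' (Fin.ext h.symm)
        · intro h; exact absurd (Finset.mem_univ _) h
      rw [hf0, Polynomial.coeff_zero] at h1
      exact (congrArg Subtype.val h1).symm
    intro β
    have h1 := ht (fun γ => κ (Fin.cons (β 0) γ)) (hcoef (β 0)) (Fin.tail β)
    rw [Fin.cons_self_tail] at h1
    exact h1

/-- The field `F_p(t_0, t_1, ...)` has infinite `p`-degree. -/
theorem not_finite_fractionRing :
    ¬ Module.Finite (frobenius (FractionRing (MvPolynomial ℕ (ZMod p))) p).fieldRange
      (FractionRing (MvPolynomial ℕ (ZMod p))) := by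
  intro hfin
  set A := MvPolynomial ℕ (ZMod p)
  set K := FractionRing A
  have hinj : Function.Injective (algebraMap A K) := IsFractionRing.injective A K
  have hli : LinearIndependent (frobenius K p).fieldRange (fun i : ℕ => algebraMap A K (X i)) := by
    rw [linearIndependent_iff']
    intro s g hg i hi
    -- write g i as a p-th power
    have hex : ∀ j, ∃ x : K, x ^ p = (g j : K) := fun j => (g j).2
    choose x hx using hex
    obtain ⟨b, hb⟩ := IsLocalization.exist_integer_multiples (nonZeroDivisors A) s x
    have hex2 : ∀ j : ℕ, ∃ f : A, j ∈ s → algebraMap A K f = algebraMap A K b * x j := by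
      intro j
      by_cases hj : j ∈ s
      · obtain ⟨f, hf⟩ := hb j hj
        exact ⟨f, fun _ => by rw [hf]; exact Algebra.smul_def _ _⟩
      · exact ⟨0, fun h => absurd h hj⟩
    choose f hf using hex2
    have h1 : ∑ j ∈ s, f j ^ p * X j = 0 := by
      apply hinj
      rw [map_zero, map_sum]
      have h2 : ∑ j ∈ s, algebraMap A K (f j ^ p * X j) =
          algebraMap A K b ^ p * ∑ j ∈ s, g j • algebraMap A K (X j) := by
        rw [Finset.mul_sum]
        refine Finset.sum_congr rfl fun j hj => ?_
        rw [map_mul, map_pow, hf j hj, Subfield.smul_def, ← hx j, smul_eq_mul]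
        ring
      rw [h2, hg, mul_zero]
    have hDp : ∀ (l : ℕ) (q : A), pderiv l (q ^ p) = 0 := by
      intro l q
      rw [Derivation.leibniz_pow, nsmul_eq_mul, CharP.cast_eq_zero, zero_mul]
    have h3 : f i ^ p = 0 := by
      have h4 := congrArg (pderiv i) h1
      rw [map_zero, map_sum, Finset.sum_eq_single i] at h4
      · rw [Derivation.leibniz, pderiv_X_self, hDp, smul_zero, add_zero, smul_eq_mul, mul_one] at h4
        exact h4
      · intro j _ hj
        rw [Derivation.leibniz, pderiv_X_of_ne hj, hDp, smul_zero, smul_zero, add_zero]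
      · intro h; exact absurd hi h
    have h5 : f i = 0 := pow_eq_zero_iff hp.out.ne_zero |>.1 h3
    have h6 : algebraMap A K b * x i = 0 := by rw [← hf i hi, h5, map_zero]
    have hb0 : algebraMap A K b ≠ 0 := by
      intro h
      exact nonZeroDivisors.ne_zero b.2 (hinj (by rw [h, map_zero]))
    have h7 : x i = 0 := (mul_eq_zero.1 h6).resolve_left hb0
    apply Subtype.ext
    rw [← hx i, h7, zero_pow hp.out.ne_zero]
    rfl
  exact not_finite_iff_infinite.2 inferInstance hli.finite

end Pool.Agent.Lib_helper54.Schmidt
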