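import Pool.Agent.Lib_helper54.SchmidtCount
import Pool.Agent.Lib_helper54.SchmidtPDegree

/-!
Assembly.
-/

namespace Pool.Agent.Lib_helper54.Schmidt

open MvPolynomial

theorem exists_hasRankLE {K : Type*} [Field K] {d m : ℕ} (hd : 2 ≤ d)
    (F : MultilinearMap K (fun _ : Fin d => Fin m → K) K) :
    HasRankLE d (d * m) (multilinearPoly F) := by
  classical
  have h := upper_bound (L := K) hd (fun f => F fun j => Pi.single (f j) 1)
    (fun i j : Fin m => if i = j then (1 : K) else 0) (fun f => F fun j => Pi.single (f j) 1)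
    (by
      intro f
      rw [Finset.sum_eq_single f]
      · simp
      · intro g _ hg
        have : ∃ j, f j ≠ g j := by
          by_contra hcon
          push Not at hcon
          exact hg (funext fun j => (hcon j).symm)
        obtain ⟨j, hj⟩ := this
        rw [Finset.prod_eq_zero (Finset.mem_univ j) (if_neg hj), mul_zero]
      · intro h; exact absurd (Finset.mem_univ _) h)
    Finset.univ (fun g _ => ⟨⟨0, by omega⟩, Finset.mem_univ _⟩)
  rw [Finset.card_univ, Fintype.card_fin] at h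
  exact h

/-- Both bounds for the constructed form. -/
theorem exists_form (p : ℕ) [hp : Fact p.Prime] (K : Type*) [Field K] [CharP K p]
    (hK : ¬ Module.Finite (frobenius K p).fieldRange K) (d : ℕ) (hd : 2 ≤ d) (n : ℕ) :
    ∃ F : MultilinearMap K (fun _ : Fin d => Fin (p ^ n) → K) K,
      p ^ n ≤ 2 ^ (d - 1) * rank F ∧ rankBar F ≤ d * (smallSet p n d).card := by
  classical
  obtain ⟨d, rfl⟩ : ∃ d', d = d' + 1 := ⟨d - 1, by omega⟩
  obtain ⟨t, ht⟩ := exists_PIndep p K hK n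
  have hex : ∀ i, ∃ a : AlgebraicClosure K, a ^ p = algebraMap K (AlgebraicClosure K) (t i) :=
    fun i => IsAlgClosed.exists_pow_nat_eq _ hp.out.pos
  choose a ha using hex
  obtain ⟨φ, hφ⟩ : ∃ φ : AlgebraicClosure K →ₗ[K] K, φ 1 = 1 := by
    obtain ⟨φ, hφ⟩ := LinearMap.exists_leftInverse_of_injective
      (Algebra.linearMap K (AlgebraicClosure K))
      (LinearMap.ker_eq_bot.2 (algebraMap K (AlgebraicClosure K)).injective)
    refine ⟨φ, ?_⟩
    have := congrArg (fun g : K →ₗ[K] K => g 1) hφ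
    simpa using this
  let e : Fin (p ^ n) ≃ (Fin n → Fin p) := finFunctionFinEquiv.symm
  have hli : LinearIndependent K (fun i : Fin (p ^ n) => mono a (e i)) :=
    (mono_linearIndependent p ht ha).comp e e.injective
  have hspan : Subalgebra.toSubmodule (Algebra.adjoin K (Set.range a)) =
      Submodule.span K (Set.range (fun i : Fin (p ^ n) => mono a (e i))) := by
    rw [adjoin_eq_span p ha]
    congr 1
    exact (e.surjective.range_comp (fun β => mono a β)).symm
  refine ⟨prodForm (d + 1) φ (fun i => mono a (e i)), ?_, ?_⟩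
  · have hmem : HasRankLE (d + 1) (rank (prodForm (d + 1) φ (fun i => mono a (e i))))
        (multilinearPoly (prodForm (d + 1) φ (fun i => mono a (e i)))) :=
      Nat.sInf_mem (s := {r : ℕ | HasRankLE (d + 1) r
        (multilinearPoly (prodForm (d + 1) φ (fun i => mono a (e i))))})
        ⟨_, exists_hasRankLE hd _⟩
    rw [Nat.add_sub_cancel]
    exact lower_bound _ (fun c hc => prodForm_nonsing d φ hφ _ hli _ hspan c hc) hmem
  · exact Nat.sInf_le (upper_bound_field p hd ha φ e)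

/-- The power gap over every field of infinite `p`-degree. -/
theorem power_gap (p : ℕ) [hp : Fact p.Prime] (d : ℕ) (hd : 3 ≤ d) :
    ∃ ε : ℝ, 0 < ε ∧ ∀ (K : Type*) [Field K] [CharP K p],
      ¬ Module.Finite (frobenius K p).fieldRange K → ∀ C : ℝ,
        ∃ (m : ℕ) (F : MultilinearMap K (fun _ : Fin d => Fin m → K) K),
          C * (rankBar F : ℝ) ^ (1 + ε) < rank F := by
  obtain ⟨ε, hε, h⟩ := exists_gap p d hp.out.two_le hd
  refine ⟨ε, hε, fun K _ _ hK C => ?_⟩
  obtain ⟨n, hn⟩ := h |C|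
  obtain ⟨F, h1, h2⟩ := exists_form p K hK d (by omega) n
  refine ⟨p ^ n, F, ?_⟩
  have h3 : ((p : ℝ)) ^ n ≤ 2 ^ (d - 1) * (rank F : ℝ) := by exact_mod_cast h1
  have h4 : ((rankBar F : ℕ) : ℝ) ^ (1 + ε) ≤
      ((d * (smallSet p n d).card : ℕ) : ℝ) ^ (1 + ε) :=
    Real.rpow_le_rpow (Nat.cast_nonneg _) (by exact_mod_cast h2) (by linarith)
  have h5 : |C| * ((rankBar F : ℕ) : ℝ) ^ (1 + ε) * 2 ^ (d - 1) < 2 ^ (d - 1) * (rank F : ℝ) := by
    refine lt_of_le_of_lt ?_ (hn.trans_le h3)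
    gcongr
  have h6 : |C| * ((rankBar F : ℕ) : ℝ) ^ (1 + ε) < (rank F : ℝ) := by
    rw [mul_comm] at h5
    exact lt_of_mul_lt_mul_left h5 (by positivity)
  refine lt_of_le_of_lt ?_ h6
  exact mul_le_mul_of_nonneg_right (le_abs_self C) (Real.rpow_nonneg (Nat.cast_nonneg _) _)

theorem linear_gap (p : ℕ) [hp : Fact p.Prime] (d : ℕ) (hd : 3 ≤ d)
    (K : Type*) [Field K] [CharP K p]
    (hK : ¬ Module.Finite (frobenius K p).fieldRange K) (κ : ℝ) :
    ∃ (m : ℕ) (F : MultilinearMap K (fun _ : Fin d => Fin m → K) K),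
      κ * (rankBar F : ℝ) < rank F := by
  obtain ⟨ε, hε, h⟩ := power_gap p d hd
  obtain ⟨m, F, hF⟩ := h K hK |κ|
  refine ⟨m, F, lt_of_le_of_lt ?_ hF⟩
  have h1 : (rankBar F : ℝ) ≤ (rankBar F : ℝ) ^ (1 + ε) := by
    rcases Nat.eq_zero_or_pos (rankBar F) with h0 | h0
    · rw [h0, Nat.cast_zero, Real.zero_rpow (by linarith)]
    · have h2 : (1 : ℝ) ≤ rankBar F := by exact_mod_cast h0
      calc (rankBar F : ℝ) = (rankBar F : ℝ) ^ (1 : ℝ) := (Real.rpow_one _).symm
        _ ≤ (rankBar F : ℝ) ^ (1 + ε) := Real.rpow_le_rpow_of_exponent_le h2 (by linarith)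
  calc κ * (rankBar F : ℝ) ≤ |κ| * (rankBar F : ℝ) :=
        mul_le_mul_of_nonneg_right (le_abs_self κ) (Nat.cast_nonneg _)
    _ ≤ |κ| * (rankBar F : ℝ) ^ (1 + ε) := mul_le_mul_of_nonneg_left h1 (abs_nonneg κ)

end Pool.Agent.Lib_helper54.Schmidt
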