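import Pool.Agent.Lib_helper54.SchmidtField

/-!
Upper bound over a field containing the `p`-th roots.
-/

namespace Pool.Agent.Lib_helper54.Schmidt

open MvPolynomial TensorProduct

section

variable (p : ℕ) [hp : Fact p.Prime] {K : Type*} [Field K] {n : ℕ}
  {L : Type*} [Field L] [Algebra K L]

/-- scalar extension of the functional -/
noncomputable def phiL (φ : L →ₗ[K] K) : L ⊗[K] L →ₗ[L] L :=
  (Algebra.TensorProduct.rid K L L).toLinearMap ∘ₗ φ.baseChange L

theorem phiL_one_tmul (φ : L →ₗ[K] K) (y : L) : phiL φ (1 ⊗ₜ y) = algebraMap K L (φ y) := by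
  simp [phiL, Algebra.smul_def]

/-- the nilpotent elements -/
noncomputable def eps (a : Fin n → L) (i : Fin n) : L ⊗[K] L := 1 ⊗ₜ a i - a i ⊗ₜ 1

theorem eps_pow [CharP K p] {t : Fin n → K} {a : Fin n → L}
    (ha : ∀ i, a i ^ p = algebraMap K L (t i)) (i : Fin n) :
    (eps (K := K) a i) ^ p = 0 := by
  have : CharP (L ⊗[K] L) p :=
    charP_of_injective_algebraMap (algebraMap K (L ⊗[K] L)).injective p
  rw [eps, sub_pow_char, Algebra.TensorProduct.tmul_pow, Algebra.TensorProduct.tmul_pow, one_pow,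
    ha, sub_eq_zero]
  rw [Algebra.algebraMap_eq_smul_one, TensorProduct.tmul_smul, TensorProduct.smul_tmul']

/-- the coefficients of the change of basis -/
noncomputable def coef {p n : ℕ} {L : Type*} [Field L] (a : Fin n → L) (β γ : Fin n → Fin p) : L :=
  ∏ i, ((Nat.choose (β i) (γ i) : ℕ) : L) * a i ^ ((β i : ℕ) - (γ i : ℕ))

omit hp in
theorem one_tmul_mono (a : Fin n → L) (β : Fin n → Fin p) :
    (1 : L) ⊗ₜ[K] mono a β =
      ∑ γ : Fin n → Fin p, coef a β γ • ∏ i, (eps (K := K) a i) ^ (γ i : ℕ) := by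
  have h0 : (1 : L) ⊗ₜ[K] mono a β = ∏ i, ((1 : L) ⊗ₜ[K] a i) ^ (β i : ℕ) := by
    have := map_prod (Algebra.TensorProduct.includeRight : L →ₐ[K] L ⊗[K] L)
      (fun i => a i ^ (β i : ℕ)) Finset.univ
    simp only [map_pow, Algebra.TensorProduct.includeRight_apply] at this
    exact this
  have h1 : ∀ i, ((1 : L) ⊗ₜ[K] a i) ^ (β i : ℕ) = ∑ k : Fin p,
      algebraMap L (L ⊗[K] L) (((Nat.choose (β i) k : ℕ) : L) * a i ^ ((β i : ℕ) - (k : ℕ))) *
        (eps (K := K) a i) ^ (k : ℕ) := by
    intro i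
    have h2 : (1 : L) ⊗ₜ[K] a i = eps (K := K) a i + algebraMap L (L ⊗[K] L) (a i) := by
      rw [eps, Algebra.TensorProduct.algebraMap_apply]
      simp
    rw [h2, add_pow, Fin.sum_univ_eq_sum_range (fun k =>
      algebraMap L (L ⊗[K] L) (((Nat.choose (β i) k : ℕ) : L) * a i ^ ((β i : ℕ) - k)) *
        (eps (K := K) a i) ^ k) p]
    rw [Finset.sum_subset (Finset.range_subset_range.2 (β i).2)]
    · refine Finset.sum_congr rfl fun k _ => ?_
      rw [map_mul, map_pow, map_natCast]
      ring
    · intro k _ hk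
      rw [Finset.mem_range, not_lt] at hk
      rw [Nat.choose_eq_zero_of_lt (by omega)]
      simp
  rw [h0]
  simp only [h1]
  rw [Finset.prod_univ_sum, Fintype.piFinset_univ]
  refine Finset.sum_congr rfl fun γ _ => ?_
  rw [Finset.prod_mul_distrib, ← map_prod, Algebra.smul_def, coef]

/-- The exponents of small total degree. -/
def smallSet (p n d : ℕ) : Finset (Fin n → Fin p) :=
  Finset.univ.filter fun γ => d * ∑ i, (γ i : ℕ) ≤ (p - 1) * n

/-- upper bound for the Schmidt rank over a field containing the `p`-th roots -/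
theorem upper_bound_field [CharP K p] {m d : ℕ} (hd : 2 ≤ d) {t : Fin n → K} {a : Fin n → L}
    (ha : ∀ i, a i ^ p = algebraMap K L (t i)) (φ : L →ₗ[K] K)
    (e : Fin m → (Fin n → Fin p)) :
    HasRankLE d (d * (smallSet p n d).card)
      ((multilinearPoly (prodForm d φ (fun i => mono a (e i)))).map (algebraMap K L)) := by
  classical
  have h1 : (multilinearPoly (prodForm d φ (fun i => mono a (e i)))).map (algebraMap K L) =
      ∑ f : Fin d → Fin m, C (algebraMap K L (φ (∏ j, mono a (e (f j))))) *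
        ∏ j, X (j, f j) := by
    rw [multilinearPoly, map_sum]
    refine Finset.sum_congr rfl fun f _ => ?_
    rw [map_mul, map_C, map_prod]
    simp only [map_X]
    congr 3
    rw [prodForm_apply]
    congr 1
    refine Finset.prod_congr rfl fun j _ => ?_
    rw [Finset.sum_eq_single (f j)]
    · simp
    · intro i _ hi
      rw [Pi.single_eq_of_ne hi, zero_smul]
    · intro h; exact absurd (Finset.mem_univ _) h
  rw [h1]
  refine upper_bound hd _ (fun i γ => coef a (e i) γ)
    (fun g => phiL φ (∏ j, ∏ i, (eps (K := K) a i) ^ (g j i : ℕ))) ?_ (smallSet p n d) ?_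
  · intro f
    rw [← phiL_one_tmul]
    have h2 : (1 : L) ⊗ₜ[K] (∏ j, mono a (e (f j))) = ∏ j, ((1 : L) ⊗ₜ[K] mono a (e (f j))) := by
      have := map_prod (Algebra.TensorProduct.includeRight : L →ₐ[K] L ⊗[K] L)
        (fun j => mono a (e (f j))) Finset.univ
      simp only [Algebra.TensorProduct.includeRight_apply] at this
      exact this
    rw [h2]
    simp only [one_tmul_mono p]
    rw [Finset.prod_univ_sum, Fintype.piFinset_univ, map_sum]
    refine Finset.sum_congr rfl fun g _ => ?_
    simp only [Algebra.smul_def]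
    rw [Finset.prod_mul_distrib, ← map_prod, ← Algebra.smul_def, map_smul, smul_eq_mul, mul_comm]
  · intro g hg
    by_contra hcon
    push Not at hcon
    apply hg
    have hsum : ∃ i, p ≤ ∑ j, (g j i : ℕ) := by
      by_contra hlt
      push Not at hlt
      have h3 : ∑ i, ∑ j, (g j i : ℕ) ≤ (p - 1) * n := by
        calc ∑ i, ∑ j, (g j i : ℕ) ≤ ∑ _i : Fin n, (p - 1) :=
              Finset.sum_le_sum fun i _ => by have := hlt i; omega
          _ = (p - 1) * n := by simp [mul_comm]
      rw [Finset.sum_comm] at h3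
      have h4 : ∀ j, (p - 1) * n + 1 ≤ d * ∑ i, (g j i : ℕ) := by
        intro j
        have := hcon j
        rw [smallSet, Finset.mem_filter, not_and] at this
        have := this (Finset.mem_univ _)
        omega
      have h5 : d * ((p - 1) * n + 1) ≤ d * ∑ j, ∑ i, (g j i : ℕ) := by
        calc d * ((p - 1) * n + 1) = ∑ _j : Fin d, ((p - 1) * n + 1) := by simp
          _ ≤ ∑ j, d * ∑ i, (g j i : ℕ) := Finset.sum_le_sum fun j _ => h4 j
          _ = d * ∑ j, ∑ i, (g j i : ℕ) := by rw [Finset.mul_sum]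
      have h6 := Nat.le_of_mul_le_mul_left h5 (by omega)
      omega
    obtain ⟨i, hi⟩ := hsum
    have h7 : ∏ j, ∏ i, (eps (K := K) a i) ^ (g j i : ℕ) = 0 := by
      rw [Finset.prod_comm]
      refine Finset.prod_eq_zero (Finset.mem_univ i) ?_
      rw [Finset.prod_pow_eq_pow_sum]
      exact pow_eq_zero_of_le hi (eps_pow p ha i)
    rw [h7, map_zero]

end

end Pool.Agent.Lib_helper54.Schmidt
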